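import Pool.Agent.H958R2.GK.Stubs

set_option autoImplicit false

/-!
# Project GK, task ALG: the transfer operator bound
-/

open Finset

namespace Pool.Agent.H958R2.GK

namespace ALG

variable {T : ℕ} {S : Sq}

theorem stp_nonneg (hM : MsgCert T S) {s k : ℕ} {v : ℕ → ℝ} (hv : ∀ j ≤ 2, 0 ≤ v j) (j : ℕ) :
    0 ≤ stp S s k v j := by
  refine Finset.sum_nonneg fun i hi => ?_
  rw [mem_range] at hi
  have h1 := hv (j + i) (by omega)
  have h2 := hM.p1 s (k + (j + i))
  have h3 := hM.x0 s
  have h4 : 0 ≤ 1 - S.p s (k + (j + i)) := by linarith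
  positivity

theorem stp_mono (hM : MsgCert T S) {s k : ℕ} {v w : ℕ → ℝ} (hv : ∀ j ≤ 2, v j ≤ w j) (j : ℕ) :
    stp S s k v j ≤ stp S s k w j := by
  refine Finset.sum_le_sum fun i hi => ?_
  rw [mem_range] at hi
  have h1 := hv (j + i) (by omega)
  have h2 := hM.p1 s (k + (j + i))
  have h3 := hM.x0 s
  have h4 : 0 ≤ 1 - S.p s (k + (j + i)) := by linarith
  gcongr

theorem stp_sum (S : Sq) (s k : ℕ) (A : Finset ℕ) (α : ℕ → ℝ) (v : ℕ → ℕ → ℝ) (j : ℕ) :
    stp S s k (fun j => ∑ z ∈ A, α z * v z j) j = ∑ z ∈ A, α z * stp S s k (v z) j := by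
  simp only [stp, Finset.mul_sum, Finset.sum_mul]
  rw [Finset.sum_comm]
  refine Finset.sum_congr rfl fun z _ => Finset.sum_congr rfl fun i _ => ?_
  ring

theorem vec_nonneg (hM : MsgCert T S) (m : ℕ → ℕ) : ∀ s, ∀ j, 0 ≤ vec S m s j := by
  intro s
  induction s with
  | zero => intro j; simp only [vec]; split_ifs <;> norm_num
  | succ s ih => intro j; exact stp_nonneg hM (fun j _ => ih j) j

theorem vec_congr (S : Sq) {m m' : ℕ → ℕ} : ∀ s, (∀ s' < s, m s' = m' s') → vec S m s = vec S m' s := by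
  intro s
  induction s with
  | zero => intro _; rfl
  | succ s ih =>
    intro h
    simp only [vec]
    rw [ih (fun s' hs' => h s' (by omega)), h s (by omega)]

theorem exc_nonneg (hM : MsgCert T S) (t k : ℕ) (sim : Bool) (j : ℕ) : 0 ≤ exc S t k sim j := by
  have h1 : S.n t ^ j ≤ (S.J t + S.n t) ^ j :=
    pow_le_pow_left₀ (hM.n0 t) (by linarith [hM.J0 t]) j
  have h2 : S.b t ^ j ≤ (S.f t + S.b t) ^ j :=
    pow_le_pow_left₀ (hM.b0 t) (by linarith [hM.f0 t]) j
  have h3 := hM.p0 t (k + j)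
  have h4 := hM.p1 t (k + j)
  have h5 : 0 ≤ S.a t ^ j := pow_nonneg (hM.a0 t) j
  unfold exc
  refine mul_nonneg (by positivity) (add_nonneg (mul_nonneg (by linarith) (by linarith))
    (mul_nonneg h3 ?_))
  split_ifs
  · exact h5
  · linarith

theorem exw_nonneg (hM : MsgCert T S) (t k : ℕ) (sim : Bool) {v : ℕ → ℝ} (hv : ∀ j, 0 ≤ v j) :
    0 ≤ exw S t k sim v :=
  Finset.sum_nonneg fun j _ => mul_nonneg (hv j) (exc_nonneg hM t k sim j)

theorem exw_mono (hM : MsgCert T S) (t k : ℕ) (sim : Bool) {v w : ℕ → ℝ}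
    (hv : ∀ j ≤ 2, v j ≤ w j) : exw S t k sim v ≤ exw S t k sim w :=
  Finset.sum_le_sum fun j hj => by
    rw [mem_range] at hj
    exact mul_le_mul_of_nonneg_right (hv j (by omega)) (exc_nonneg hM t k sim j)

theorem exw_sum (S : Sq) (t k : ℕ) (sim : Bool) (A : Finset ℕ) (α : ℕ → ℝ) (v : ℕ → ℕ → ℝ) :
    exw S t k sim (fun j => ∑ z ∈ A, α z * v z j) = ∑ z ∈ A, exw S t k sim (v z) * α z := by
  simp only [exw, Finset.sum_mul]
  rw [Finset.sum_comm]
  refine Finset.sum_congr rfl fun z _ => Finset.sum_congr rfl fun i _ => ?_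
  ring

theorem enw_nonneg (hM : MsgCert T S) {v : ℕ → ℝ} (hv : ∀ j, 0 ≤ v j) : 0 ≤ enw S T v :=
  Finset.sum_nonneg fun j _ => mul_nonneg (hv j)
    (mul_nonneg (by positivity) (pow_nonneg (hM.a0 T) j))

theorem enw_mono (hM : MsgCert T S) {v w : ℕ → ℝ} (hv : ∀ j ≤ 2, v j ≤ w j) :
    enw S T v ≤ enw S T w :=
  Finset.sum_le_sum fun j hj => by
    rw [mem_range] at hj
    exact mul_le_mul_of_nonneg_right (hv j (by omega))
      (mul_nonneg (by positivity) (pow_nonneg (hM.a0 T) j))

theorem enw_sum (S : Sq) (T : ℕ) (A : Finset ℕ) (α : ℕ → ℝ) (v : ℕ → ℕ → ℝ) :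
    enw S T (fun j => ∑ z ∈ A, α z * v z j) = ∑ z ∈ A, enw S T (v z) * α z := by
  simp only [enw, Finset.sum_mul]
  rw [Finset.sum_comm]
  refine Finset.sum_congr rfl fun z _ => Finset.sum_congr rfl fun i _ => ?_
  ring

theorem wt_nonneg (hM : MsgCert T S) (x y z : ℕ) : 0 ≤ wt S T x y z := by
  unfold wt
  split_ifs
  · exact exw_nonneg hM _ _ _ (vec_nonneg hM _ _)
  · exact enw_nonneg hM (vec_nonneg hM _ _)

/-! ### The two recursions -/

/-- the left neighbour is alive -/
def my (y s : ℕ) : ℕ := if s ≤ y then 1 else 0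

/-- right neighbour alive forever -/
noncomputable def GG (S : Sq) (y s : ℕ) : ℕ → ℝ := vec S (fun s' => my y s' + 1) s

/-- sum over the exit times of the right neighbour before `s` -/
noncomputable def RR (S : Sq) (q : ℕ → ℝ) (y s : ℕ) : ℕ → ℝ :=
  fun j => ∑ z ∈ range s, q z * vec S (mm y z) s j

theorem mm_eq (y z s : ℕ) : mm y z s = my y s + if s ≤ z then 1 else 0 := rfl

theorem GG_nonneg (hM : MsgCert T S) (y s j : ℕ) : 0 ≤ GG S y s j := vec_nonneg hM _ _ _

theorem RR_nonneg (hM : MsgCert T S) {q : ℕ → ℝ} (hq : ∀ s, 0 < q s) (y s j : ℕ) :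
    0 ≤ RR S q y s j :=
  Finset.sum_nonneg fun z _ => mul_nonneg (hq z).le (vec_nonneg hM _ _ _)

theorem GG_succ (S : Sq) (y s : ℕ) : GG S y (s + 1) = stp S s (my y s + 1) (GG S y s) := rfl

theorem vec_eq_GG (S : Sq) {y z s : ℕ} (h : s ≤ z + 1) : vec S (mm y z) s = GG S y s :=
  vec_congr S s fun s' hs' => by rw [mm_eq, if_pos (by omega)]

theorem RR_succ (S : Sq) (q : ℕ → ℝ) (y s j : ℕ) :
    RR S q y (s + 1) j = stp S s (my y s) (RR S q y s) j +
      q s * stp S s (my y s + 1) (GG S y s) j := by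
  rw [RR, Finset.sum_range_succ]
  congr 1
  · unfold RR
    rw [stp_sum]
    refine Finset.sum_congr rfl fun z hz => ?_
    rw [mem_range] at hz
    have h1 : mm y z s = my y s := by rw [mm_eq, if_neg (by omega), add_zero]
    simp only [vec]
    rw [h1]
  · have h1 : mm y s s = my y s + 1 := by rw [mm_eq, if_pos le_rfl]
    simp only [vec]
    rw [h1, vec_eq_GG S (by omega)]

section cert

variable {lam del : ℝ} {q q' c : ℕ → ℝ} {g r yy be : ℕ → ℕ → ℝ}

theorem GG_le (hM : MsgCert T S) (hP : PathCert T S lam del q q' c g r yy be) (y : ℕ) :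
    ∀ s, s ≤ T → s ≤ y + 1 → ∀ j ≤ 2, GG S y s j ≤ g s j := by
  intro s
  induction s with
  | zero =>
    intro _ _ j hj
    simp only [GG, vec]
    split_ifs with h
    · rw [h]; exact hP.g_init
    · exact hP.g0 _ _
  | succ s ih =>
    intro h1 h2 j hj
    have h3 : my y s + 1 = 2 := by rw [my, if_pos (by omega)]
    rw [GG_succ, h3]
    exact (stp_mono hM (ih (by omega) (by omega)) j).trans (hP.g_step s (by omega) j hj)

theorem RR_le (hM : MsgCert T S) (hP : PathCert T S lam del q q' c g r yy be) (y : ℕ) :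
    ∀ s, s ≤ T → s ≤ y + 1 → ∀ j ≤ 2, RR S q y s j ≤ r s j := by
  intro s
  induction s with
  | zero =>
    intro _ _ j hj
    simp only [RR, range_zero, sum_empty]
    exact hP.r0 _ _
  | succ s ih =>
    intro h1 h2 j hj
    have h3 : my y s = 1 := by rw [my, if_pos (by omega)]
    rw [RR_succ, h3]
    refine le_trans ?_ (hP.r_step s (by omega) j hj)
    exact add_le_add (stp_mono hM (ih (by omega) (by omega)) j)
      (mul_le_mul_of_nonneg_left (stp_mono hM (GG_le hM hP y s (by omega) (by omega)) j)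
        (hP.q0 s).le)

/-- the main part of the transfer operator -/
noncomputable def Brk (S : Sq) (T : ℕ) (q q' c : ℕ → ℝ) (x y : ℕ) : ℝ :=
  ∑ z ∈ range x, wt S T x y z * q z + wt S T x y x * q' x +
    (if x < T then wt S T x y (x + 1) * c x else 0)

theorem Brk_lt (q q' c : ℕ → ℝ) {x : ℕ} (hx : x < T) (y : ℕ) :
    Brk S T q q' c x y = exw S x (my y x) (decide (y = x)) (RR S q y x) +
      q' x * exw S x (my y x + 1) true (GG S y x) +
      c x * exw S x (my y x + 1) (decide (y = x)) (GG S y x) := by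
  have h1 : ∑ z ∈ range x, wt S T x y z * q z =
      exw S x (my y x) (decide (y = x)) (RR S q y x) := by
    unfold RR
    rw [exw_sum]
    refine Finset.sum_congr rfl fun z hz => ?_
    rw [mem_range] at hz
    rw [wt, if_pos hx]
    have h2 : mm y z x = my y x := by rw [mm_eq, if_neg (by omega), add_zero]
    have h3 : decide (y = x ∨ z = x) = decide (y = x) := by
      rw [decide_eq_decide]
      constructor
      · rintro (h | h)
        · exact h
        · omega
      · exact Or.inl
    rw [h2, h3]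
  have h4 : wt S T x y x = exw S x (my y x + 1) true (GG S y x) := by
    rw [wt, if_pos hx, vec_eq_GG S (by omega), mm_eq, if_pos le_rfl]
    simp
  have h5 : wt S T x y (x + 1) = exw S x (my y x + 1) (decide (y = x)) (GG S y x) := by
    rw [wt, if_pos hx, vec_eq_GG S (by omega), mm_eq, if_pos (by omega)]
    have h3 : decide (y = x ∨ x + 1 = x) = decide (y = x) := by
      rw [decide_eq_decide]
      constructor
      · rintro (h | h)
        · exact h
        · omega
      · exact Or.inl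
    rw [h3]
  rw [Brk, if_pos hx, h1, h4, h5]
  ring

theorem Brk_T (q q' c : ℕ → ℝ) (y : ℕ) :
    Brk S T q q' c T y = enw S T (RR S q y T) + q' T * enw S T (GG S y T) := by
  have h1 : ∑ z ∈ range T, wt S T T y z * q z = enw S T (RR S q y T) := by
    unfold RR
    rw [enw_sum]
    refine Finset.sum_congr rfl fun z hz => ?_
    rw [wt, if_neg (lt_irrefl T)]
  have h4 : wt S T T y T = enw S T (GG S y T) := by
    rw [wt, if_neg (lt_irrefl T), vec_eq_GG S (by omega)]
  rw [Brk, if_neg (lt_irrefl T), h1, h4]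
  ring

/-- the transposed step -/
theorem stp_transpose (S : Sq) (s k : ℕ) (v w : ℕ → ℝ) :
    ∑ i ∈ range 3, stp S s k v i * w i = ∑ j ∈ range 3, v j * ∑ i ∈ range (j + 1),
      w i * (((2 - i).choose (j - i) : ℝ) * (1 - S.p s (k + j)) * (S.x s) ^ (j - i)) := by
  simp only [stp, Finset.sum_range_succ, Finset.sum_range_zero, Nat.sub_zero, zero_add,
    Nat.choose_zero_right, Nat.choose_self, Nat.cast_one, pow_zero,
    Nat.sub_self, Nat.choose_succ_self_right, Nat.reduceAdd, Nat.reduceSub, add_zero, pow_one,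
    Nat.cast_ofNat]
  ring

theorem back (hM : MsgCert T S) (hP : PathCert T S lam del q q' c g r yy be) (y : ℕ) :
    ∀ d s, s + d = T → y < s → ∑ z ∈ Ico s (T + 1), Brk S T q q' c z y ≤
      ∑ j ∈ range 3, (GG S y s j * be s j + RR S q y s j * yy s j) := by
  intro d
  induction d with
  | zero =>
    intro s hs hy
    have hsT : s = T := by omega
    subst hsT
    rw [Nat.Ico_succ_singleton, sum_singleton, Brk_T, enw, enw, Finset.mul_sum,
      ← Finset.sum_add_distrib]
    refine Finset.sum_le_sum fun j hj => ?_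
    rw [mem_range] at hj
    have h1 := mul_le_mul_of_nonneg_left (hP.y_T j (by omega)) (RR_nonneg hM hP.q0 y s j)
    have h2 := mul_le_mul_of_nonneg_left (hP.be_T j (by omega)) (GG_nonneg hM y s j)
    calc _ = RR S q y s j * ((Nat.choose 2 j : ℝ) * S.a s ^ j) +
          GG S y s j * (q' s * ((Nat.choose 2 j : ℝ) * S.a s ^ j)) := by ring
      _ ≤ RR S q y s j * yy s j + GG S y s j * be s j := add_le_add h1 h2
      _ = _ := by ring
  | succ d ih =>
    intro s hs hy
    have hsT : s < T := by omega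
    have h0 := ih (s + 1) (by omega) (by omega)
    rw [Finset.sum_eq_sum_Ico_succ_bot (by omega : s < T + 1)]
    have hmy : my y s = 0 := by rw [my, if_neg (by omega)]
    have hdec : decide (y = s) = false := by simp; omega
    rw [Brk_lt q q' c hsT y, hmy, hdec]
    have hG : ∑ j ∈ range 3, GG S y (s + 1) j * be (s + 1) j =
        ∑ j ∈ range 3, GG S y s j * ∑ i ∈ range (j + 1), be (s + 1) i *
        (((2 - i).choose (j - i) : ℝ) * (1 - S.p s (1 + j)) * (S.x s) ^ (j - i)) := by
      rw [GG_succ, hmy, zero_add, stp_transpose]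
    have hR : ∑ j ∈ range 3, RR S q y (s + 1) j * yy (s + 1) j =
        ∑ j ∈ range 3, RR S q y s j * ∑ i ∈ range (j + 1), yy (s + 1) i *
          (((2 - i).choose (j - i) : ℝ) * (1 - S.p s (0 + j)) * (S.x s) ^ (j - i)) +
        q s * ∑ j ∈ range 3, GG S y s j * ∑ i ∈ range (j + 1), yy (s + 1) i *
          (((2 - i).choose (j - i) : ℝ) * (1 - S.p s (1 + j)) * (S.x s) ^ (j - i)) := by
      rw [← stp_transpose, ← stp_transpose, Finset.mul_sum, ← Finset.sum_add_distrib]
      refine Finset.sum_congr rfl fun j _ => ?_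
      rw [RR_succ, hmy]
      ring
    rw [Finset.sum_add_distrib, hG, hR] at h0
    have hy' : ∀ j ∈ range 3, RR S q y s j * (exc S s 0 false j + ∑ i ∈ range (j + 1),
        yy (s + 1) i * (((2 - i).choose (j - i) : ℝ) * (1 - S.p s (0 + j)) *
          (S.x s) ^ (j - i))) ≤ RR S q y s j * yy s j := fun j hj => by
      rw [mem_range] at hj
      exact mul_le_mul_of_nonneg_left (hP.y_step s hsT j (by omega)) (RR_nonneg hM hP.q0 y s j)
    have hb' : ∀ j ∈ range 3, GG S y s j * (q' s * exc S s 1 true j + c s * exc S s 1 false j +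
        ∑ i ∈ range (j + 1), (be (s + 1) i + q s * yy (s + 1) i) *
        (((2 - i).choose (j - i) : ℝ) * (1 - S.p s (1 + j)) * (S.x s) ^ (j - i))) ≤
        GG S y s j * be s j := fun j hj => by
      rw [mem_range] at hj
      exact mul_le_mul_of_nonneg_left (hP.be_step s hsT j (by omega)) (GG_nonneg hM y s j)
    have hsum1 := Finset.sum_le_sum hy'
    have hsum2 := Finset.sum_le_sum hb'
    rw [Finset.sum_add_distrib]
    refine le_trans ?_ (add_le_add hsum2 hsum1)
    refine le_trans (add_le_add_right h0 _) (le_of_eq ?_)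
    rw [exw, exw, exw, Finset.mul_sum, Finset.mul_sum, Finset.mul_sum]
    simp only [← Finset.sum_add_distrib]
    refine Finset.sum_congr rfl fun j _ => ?_
    have h6 : ∑ i ∈ range (j + 1), (be (s + 1) i + q s * yy (s + 1) i) *
        (((2 - i).choose (j - i) : ℝ) * (1 - S.p s (1 + j)) * (S.x s) ^ (j - i)) =
        ∑ i ∈ range (j + 1), be (s + 1) i *
          (((2 - i).choose (j - i) : ℝ) * (1 - S.p s (1 + j)) * (S.x s) ^ (j - i)) +
        q s * ∑ i ∈ range (j + 1), yy (s + 1) i *
          (((2 - i).choose (j - i) : ℝ) * (1 - S.p s (1 + j)) * (S.x s) ^ (j - i)) := by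
      rw [Finset.mul_sum, ← Finset.sum_add_distrib]
      refine Finset.sum_congr rfl fun i _ => by ring
    rw [h6]
    ring

/-- (K) -/
theorem keyK (hM : MsgCert T S) (hP : PathCert T S lam del q q' c g r yy be) {y : ℕ}
    (hy : y < T) : ∑ z ∈ Ico (y + 1) (T + 1), (Brk S T q q' c z y / lam + del) ≤ c y := by
  have h1 := back hM hP y (T - (y + 1)) (y + 1) (by omega) (by omega)
  have h2 : ∑ j ∈ range 3, (GG S y (y + 1) j * be (y + 1) j + RR S q y (y + 1) j * yy (y + 1) j) ≤
      ∑ j ∈ range 3, (g (y + 1) j * be (y + 1) j + r (y + 1) j * yy (y + 1) j) := by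
    refine Finset.sum_le_sum fun j hj => ?_
    rw [mem_range] at hj
    exact add_le_add
      (mul_le_mul_of_nonneg_right (GG_le hM hP y (y + 1) hy le_rfl j (by omega)) (hP.be0 _ _))
      (mul_le_mul_of_nonneg_right (RR_le hM hP y (y + 1) hy le_rfl j (by omega)) (hP.y0 _ _))
  have h3 := hP.c_ge y hy
  have h4 : lam * ∑ z ∈ Ico (y + 1) (T + 1), (Brk S T q q' c z y / lam + del) =
      ∑ z ∈ Ico (y + 1) (T + 1), Brk S T q q' c z y + lam * del * (T - y : ℕ) := by
    rw [Finset.sum_add_distrib, ← Finset.sum_div, Finset.sum_const, Nat.card_Ico, nsmul_eq_mul]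
    have h5 : T + 1 - (y + 1) = T - y := by omega
    rw [h5]
    have := hP.lam0.ne'
    field_simp
  have h5 : lam * del * ((T - y : ℕ) : ℝ) ≤ lam * del * T := by
    have h6 : ((T - y : ℕ) : ℝ) ≤ T := by exact_mod_cast Nat.sub_le T y
    exact mul_le_mul_of_nonneg_left h6 (mul_pos hP.lam0 hP.del0).le
  have h6 : lam * ∑ z ∈ Ico (y + 1) (T + 1), (Brk S T q q' c z y / lam + del) ≤ lam * c y := by
    rw [h4]
    linarith
  exact le_of_mul_le_mul_left h6 hP.lam0

/-- the test function -/
noncomputable def hh (S : Sq) (T : ℕ) (lam del : ℝ) (q q' c : ℕ → ℝ) (x y : ℕ) : ℝ :=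
  if x < y then q x else if x = y then q' x else Brk S T q q' c x y / lam + del

theorem Brk_nonneg (hM : MsgCert T S) (hP : PathCert T S lam del q q' c g r yy be) (x y : ℕ) :
    0 ≤ Brk S T q q' c x y := by
  unfold Brk
  refine add_nonneg (add_nonneg (Finset.sum_nonneg fun z _ =>
    mul_nonneg (wt_nonneg hM _ _ _) (hP.q0 z).le) (mul_nonneg (wt_nonneg hM _ _ _) (hP.q'0 x).le)) ?_
  split_ifs
  · exact mul_nonneg (wt_nonneg hM _ _ _) (hP.c0 x)
  · exact le_rfl

theorem hh_pos (hM : MsgCert T S) (hP : PathCert T S lam del q q' c g r yy be) (x y : ℕ) :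
    0 < hh S T lam del q q' c x y := by
  unfold hh
  split_ifs
  · exact hP.q0 x
  · exact hP.q'0 x
  · exact add_pos_of_nonneg_of_pos (div_nonneg (Brk_nonneg hM hP x y) hP.lam0.le) hP.del0

theorem wt_far (y : ℕ) {x z : ℕ} (hx : x < T) (hz : x < z) :
    wt S T x y z = wt S T x y (x + 1) := by
  rw [wt, wt, if_pos hx, if_pos hx, vec_eq_GG S (by omega), vec_eq_GG S (by omega), mm_eq, mm_eq,
    if_pos (by omega), if_pos (by omega)]
  have h3 : decide (y = x ∨ x + 1 = x) = decide (y = x ∨ z = x) := by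
    rw [decide_eq_decide]
    constructor
    · rintro (h | h)
      · exact Or.inl h
      · omega
    · rintro (h | h)
      · exact Or.inl h
      · omega
  rw [h3]

theorem sum_le_Brk (hM : MsgCert T S) (hP : PathCert T S lam del q q' c g r yy be) {x : ℕ}
    (hx : x ≤ T) (y : ℕ) :
    ∑ z ∈ range (T + 1), wt S T x y z * hh S T lam del q q' c z x ≤ Brk S T q q' c x y := by
  rw [Finset.range_eq_Ico, ← Finset.sum_Ico_consecutive _ (Nat.zero_le (x + 1))
    (by omega : x + 1 ≤ T + 1), ← Finset.range_eq_Ico, Finset.sum_range_succ, Brk]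
  have h1 : ∑ z ∈ range x, wt S T x y z * hh S T lam del q q' c z x =
      ∑ z ∈ range x, wt S T x y z * q z := by
    refine Finset.sum_congr rfl fun z hz => ?_
    rw [mem_range] at hz
    rw [hh, if_pos hz]
  have h2 : hh S T lam del q q' c x x = q' x := by
    rw [hh, if_neg (lt_irrefl x), if_pos rfl]
  rw [h1, h2]
  refine add_le_add_right ?_ _
  split_ifs with hxT
  · have h3 : ∑ z ∈ Ico (x + 1) (T + 1), wt S T x y z * hh S T lam del q q' c z x =
        wt S T x y (x + 1) * ∑ z ∈ Ico (x + 1) (T + 1), (Brk S T q q' c z x / lam + del) := by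
      rw [Finset.mul_sum]
      refine Finset.sum_congr rfl fun z hz => ?_
      rw [mem_Ico] at hz
      rw [wt_far y hxT (by omega : x < z), hh, if_neg (by omega), if_neg (by omega)]
    rw [h3]
    exact mul_le_mul_of_nonneg_left (keyK hM hP hxT) (wt_nonneg hM _ _ _)
  · have h4 : x = T := by omega
    rw [h4, Finset.Ico_self, sum_empty]

theorem claim (hM : MsgCert T S) (hP : PathCert T S lam del q q' c g r yy be) {x y : ℕ}
    (hx : x ≤ T) (hy : y ≤ T) :
    ∑ z ∈ range (T + 1), wt S T x y z * hh S T lam del q q' c z x ≤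
      lam * hh S T lam del q q' c x y := by
  refine (sum_le_Brk hM hP hx y).trans ?_
  unfold hh
  split_ifs with h1 h2
  · have hxT : x < T := by omega
    have hmy : my y x = 1 := by rw [my, if_pos h1.le]
    have hdec : decide (y = x) = false := by simp; omega
    rw [Brk_lt q q' c hxT y, hmy, hdec]
    refine le_trans ?_ (hP.q_ge x hxT)
    exact add_le_add (add_le_add (exw_mono hM _ _ _ (RR_le hM hP y x hx (by omega)))
      (mul_le_mul_of_nonneg_left (exw_mono hM _ _ _ (GG_le hM hP y x hx (by omega)))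
        (hP.q'0 x).le))
      (mul_le_mul_of_nonneg_left (exw_mono hM _ _ _ (GG_le hM hP y x hx (by omega))) (hP.c0 x))
  · subst h2
    rcases hx.lt_or_eq with hxT | hxT
    · have hmy : my x x = 1 := by rw [my, if_pos le_rfl]
      have hdec : decide (x = x) = true := by simp
      rw [Brk_lt q q' c hxT x, hmy, hdec]
      refine le_trans ?_ (hP.q'_ge x hxT)
      exact add_le_add (add_le_add (exw_mono hM _ _ _ (RR_le hM hP x x hx (by omega)))
        (mul_le_mul_of_nonneg_left (exw_mono hM _ _ _ (GG_le hM hP x x hx (by omega)))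
          (hP.q'0 x).le))
        (mul_le_mul_of_nonneg_left (exw_mono hM _ _ _ (GG_le hM hP x x hx (by omega)))
          (hP.c0 x))
    · subst hxT
      rw [Brk_T]
      refine le_trans ?_ hP.q'_T
      exact add_le_add (enw_mono hM (RR_le hM hP x x hx (by omega)))
        (mul_le_mul_of_nonneg_left (enw_mono hM (GG_le hM hP x x hx (by omega)))
          (hP.q'0 x).le)
  · have := hP.lam0
    have := hP.del0
    rw [mul_add, mul_div_cancel₀ _ hP.lam0.ne']
    nlinarith

end cert

end ALG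

open ALG in
/-- ALG: growth of the sums over exit times. -/
theorem alg_proof : St_ALG := by
  intro T S lam del q q' c g r y be hM hP
  set H := hh S T lam del q q' c with hH
  have hpos : ∀ x y, 0 < H x y := fun x y => hh_pos hM hP x y
  set I := range (T + 1) ×ˢ range (T + 1) with hI
  set C := ∑ p ∈ I, (H p.1 p.2)⁻¹ with hC
  set D := ∑ p ∈ I, H p.1 p.2 with hD
  have hmem : ∀ x ≤ T, ∀ y ≤ T, (x, y) ∈ I := fun x hx y hy => by
    rw [hI, mem_product, mem_range, mem_range]
    exact ⟨by simp only; omega, by simp only; omega⟩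
  have hC1 : ∀ x ≤ T, ∀ y ≤ T, 1 ≤ C * H x y := by
    intro x hx y hy
    have h1 : (H x y)⁻¹ ≤ C :=
      Finset.single_le_sum (f := fun p : ℕ × ℕ => (H p.1 p.2)⁻¹)
        (fun p _ => (inv_pos.2 (hpos p.1 p.2)).le) (hmem x hx y hy)
    calc (1 : ℝ) = (H x y)⁻¹ * H x y := (inv_mul_cancel₀ (hpos x y).ne').symm
      _ ≤ C * H x y := mul_le_mul_of_nonneg_right h1 (hpos x y).le
  have hD1 : ∀ x ≤ T, ∀ y ≤ T, H x y ≤ D := fun x hx y hy =>
    Finset.single_le_sum (f := fun p : ℕ × ℕ => H p.1 p.2)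
      (fun p _ => (hpos p.1 p.2).le) (hmem x hx y hy)
  have hCpos : 0 < C := by
    have h1 := hC1 0 (Nat.zero_le _) 0 (Nat.zero_le _)
    have h2 := hpos 0 0
    by_contra hc
    have : C * H 0 0 ≤ 0 := mul_nonpos_of_nonpos_of_nonneg (not_lt.1 hc) h2.le
    linarith
  have hDpos : 0 < D := (hpos 0 0).trans_le (hD1 0 (Nat.zero_le _) 0 (Nat.zero_le _))
  have hmain : ∀ n, ∀ x ≤ T, ∀ y ≤ T, Q S T n x y ≤ C * lam ^ n * H x y := by
    intro n
    induction n with
    | zero =>
      intro x hx y hy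
      simp only [Q, pow_zero, mul_one]
      exact hC1 x hx y hy
    | succ n ih =>
      intro x hx y hy
      have h1 : Q S T (n + 1) x y ≤ ∑ z ∈ range (T + 1), wt S T x y z * (C * lam ^ n * H z x) := by
        simp only [Q]
        refine Finset.sum_le_sum fun z hz => ?_
        rw [mem_range] at hz
        exact mul_le_mul_of_nonneg_left (ih z (by omega) x hx) (wt_nonneg hM _ _ _)
      have h2 : ∑ z ∈ range (T + 1), wt S T x y z * (C * lam ^ n * H z x) =
          C * lam ^ n * ∑ z ∈ range (T + 1), wt S T x y z * H z x := by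
        rw [Finset.mul_sum]
        refine Finset.sum_congr rfl fun z _ => by ring
      rw [h2] at h1
      refine h1.trans ?_
      have h3 := claim hM hP hx hy
      have h4 : 0 ≤ C * lam ^ n := mul_nonneg hCpos.le (pow_nonneg hP.lam0.le n)
      calc C * lam ^ n * ∑ z ∈ range (T + 1), wt S T x y z * H z x
          ≤ C * lam ^ n * (lam * H x y) := mul_le_mul_of_nonneg_left h3 h4
        _ = C * lam ^ (n + 1) * H x y := by ring
  refine ⟨C * D, mul_pos hCpos hDpos, fun n x hx y hy => ?_⟩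
  calc Q S T n x y ≤ C * lam ^ n * H x y := hmain n x hx y hy
    _ ≤ C * lam ^ n * D := mul_le_mul_of_nonneg_left (hD1 x hx y hy)
        (mul_nonneg hCpos.le (pow_nonneg hP.lam0.le n))
    _ = C * D * lam ^ n := by ring

end Pool.Agent.H958R2.GK
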