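import Pool.Agent.H958R2.GK.Defs

set_option autoImplicit false

/-!
# Statements of the tasks of project GK
-/

open Finset

namespace Pool.Agent.H958R2.GK

/-- PROB: calculus of probabilities. -/
def St_PROB : Prop := ∀ (ι C : Type) [Fintype ι] [Fintype C] [Nonempty C],
  (∀ E : (ι → C) → Prop, 0 ≤ Pr E ∧ Pr E ≤ 1) ∧
  (∀ E F : (ι → C) → Prop, (∀ ω, E ω → F ω) → Pr E ≤ Pr F) ∧
  (∀ E F : (ι → C) → Prop, Pr (fun ω => E ω ∨ F ω) ≤ Pr E + Pr F) ∧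
  (∀ (κ : Type) (s : Finset κ) (E : κ → (ι → C) → Prop),
    Pr (fun ω => ∃ k ∈ s, E k ω) ≤ ∑ k ∈ s, Pr (E k)) ∧
  (∀ (E F : (ι → C) → Prop) (S S' : Set ι), Dep E S → Dep F S' → Disjoint S S' →
    Pr (fun ω => E ω ∧ F ω) = Pr E * Pr F) ∧
  (∀ (κ : Type) (s : Finset κ) (E : κ → (ι → C) → Prop) (S : κ → Set ι),
    (∀ k ∈ s, Dep (E k) (S k)) → (∀ k ∈ s, ∀ k' ∈ s, k ≠ k' → Disjoint (S k) (S k')) →
    Pr (fun ω => ∀ k ∈ s, E k ω) = ∏ k ∈ s, Pr (E k))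

/-- COIN: probability of firing. -/
def St_COIN : Prop := ∀ (V : Type) [Fintype V] (T N : ℕ) (P : ℕ → ℕ → ℕ), 0 < N →
  (∀ t k, P t k ≤ N) → ∀ (v : V) (t k : ℕ),
  Dep (fun ω : Lab V T N => coin P ω v t k) {i | i.1 = v ∧ i.2.val = t} ∧
  (t < T → Pr (fun ω : Lab V T N => coin P ω v t k) = (P t k : ℝ) / N ∧
    Pr (fun ω : Lab V T N => ¬ coin P ω v t k) = 1 - (P t k : ℝ) / N)

open Classical in
/-- LLL: symmetric local lemma (see `Pool.Agent.Helper805.CHS.Colour`, `LLL.lll`). -/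
def St_LLL : Prop := ∀ (ι C J : Type) [Fintype ι] [Fintype C] [Nonempty C] (I : Finset J)
  (B : J → (ι → C) → Prop) (S : J → Finset ι), (∀ j ∈ I, Dep (B j) (S j : Set ι)) →
  ∀ (p : ℝ) (d : ℕ), 0 ≤ p → (∀ j ∈ I, Pr (B j) ≤ p) →
  (∀ i ∈ I, (I.filter (fun j => ¬ Disjoint (S i) (S j))).card ≤ d) → 4 * p * d ≤ 1 → 1 ≤ d →
  ∃ ω : ι → C, ∀ j ∈ I, ¬ B j ω

/-- GIRTH: in a graph of large girth short non-backtracking walks are determined by their ends. -/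
def St_GIRTH : Prop := ∀ (V : Type) [Fintype V] (G : SimpleGraph V) (nb : V → Finset V),
  (∀ v w, w ∈ nb v ↔ G.Adj v w) → ∀ M : ℕ, ((2 * M + 1 : ℕ) : ℕ∞) ≤ G.egirth → Uniq nb M

open Classical in
/-- COUNT: number of non-backtracking walks through a vertex. -/
def St_COUNT : Prop := ∀ (V : Type) [Fintype V] (nb : V → Finset V), Nb4 nb → ∀ (L : ℕ) (v : V),
  ((univ : Finset (List.Vector V (L + 1))).filter (fun l => NBW nb l.val ∧ v ∈ l.val)).card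
    ≤ (L + 1) * 16 * 3 ^ L

open Classical in
/-- DEG: number of non-backtracking walks near a given one. -/
def St_DEG : Prop := ∀ (V : Type) [Fintype V] (nb : V → Finset V), Nb4 nb → ∀ (L R : ℕ)
  (l : List.Vector V (L + 1)),
  ((univ : Finset (List.Vector V (L + 1))).filter
    (fun l' => NBW nb l'.val ∧ ¬ Disjoint (NL nb R l.val) (NL nb R l'.val))).card
    ≤ (L + 1) * 5 ^ R * (5 ^ R * ((L + 1) * 16 * 3 ^ L))

/-- COL: the colouring. -/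
def St_COL : Prop := ∀ (V : Type) [Fintype V] (G : SimpleGraph V) (nb : V → Finset V),
  (∀ v w, w ∈ nb v ↔ G.Adj v w) → ∀ (I : Set V) (L : ℕ),
  (∀ v ∈ I, ∀ w ∈ I, ¬ G.Adj v w) →
  (∀ l : List V, NBW nb l → l.length = L + 1 → ∃ v ∈ l, v ∈ I) → G.Colorable 3

/-- IND: the set produced by the process is independent. -/
def St_IND : Prop := ∀ (V : Type) [Fintype V] (nb : V → Finset V), Nb4 nb → ∀ (T N : ℕ)
  (P : ℕ → ℕ → ℕ) (ω : Lab V T N) (v w : V), inI nb P ω v → inI nb P ω w → w ∉ nb v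

/-- CONS: messages agree with the true process at an alive vertex. -/
def St_CONS : Prop := ∀ (V : Type) [Fintype V] (nb : V → Finset V), Nb4 nb → ∀ (T N : ℕ)
  (P : ℕ → ℕ → ℕ) (ω : Lab V T N) (t : ℕ) (v : V), lv nb P ω t v → ∀ d ∈ nb v,
  (lv nb P ω t d ↔ al nb P ω t v d) ∧
  (fr nb P ω t (lv nb P ω t) d ↔ fi nb P ω t v d) ∧
  (¬ fr nb P ω t (lv nb P ω t) v → (jn nb P ω t (lv nb P ω t) d ↔ jo nb P ω t v d))

/-- PD: exit times of a path that avoids the independent set. -/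
def St_PD : Prop := ∀ (V : Type) [Fintype V] (nb : V → Finset V), Nb4 nb → ∀ (T N : ℕ)
  (P : ℕ → ℕ → ℕ) (ω : Lab V T N) (l : List V), NBW nb l → (∀ v ∈ l, ¬ inI nb P ω v) →
  ∃ y ≤ T, ∃ x ≤ T, EvL nb P ω l y x

/-- SUPPI: the labels on which the independent set depends. -/
def St_SUPPI : Prop := ∀ (V : Type) [Fintype V] (nb : V → Finset V) (T N : ℕ)
  (P : ℕ → ℕ → ℕ) (v : V),
  Dep (fun ω : Lab V T N => inI nb P ω v) (lab (Bl nb (3 * T + 3) v))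

/-- SUPPM: the labels on which the messages depend. -/
def St_SUPPM : Prop := ∀ (V : Type) [Fintype V] (nb : V → Finset V) (T N : ℕ)
  (P : ℕ → ℕ → ℕ) (R t : ℕ) (v c : V),
  (3 * t ≤ R → Dep (fun ω : Lab V T N => al nb P ω t v c) (lab (Br nb R v c))) ∧
  (3 * t + 1 ≤ R → Dep (fun ω : Lab V T N => fi nb P ω t v c) (lab (Br nb R v c))) ∧
  (3 * t + 2 ≤ R → Dep (fun ω : Lab V T N => jo nb P ω t v c) (lab (Br nb R v c)))

/-- DISJ: disjointness of the branches in a graph of large girth. -/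
def St_DISJ : Prop := ∀ (V : Type) [Fintype V] (nb : V → Finset V), Nb4 nb → ∀ (M R : ℕ),
  Uniq nb M →
  (R + 3 ≤ M → ∀ c : V, (∀ d ∈ nb c, ∀ d' ∈ nb c, d ≠ d' → Disjoint (Br nb R c d) (Br nb R c d')) ∧
    ∀ d ∈ nb c, c ∉ Br nb R c d) ∧
  (∀ (u c w : V) (l : List V), NBW nb (u :: c :: w :: l) → l.length + R + 6 ≤ M →
    Disjoint (Site nb R u c w) (SL nb R (c :: w :: l)))

/-- SITE: probability that a site lives in spite of the children outside `J`. -/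
def St_SITE : Prop := ∀ (V : Type) [Fintype V] (nb : V → Finset V) (T N : ℕ) (P : ℕ → ℕ → ℕ),
  0 < N → (∀ t k, P t k ≤ N) → ∀ (R : ℕ) (c : V) (D : Finset V), Loc nb T R c D →
  ∀ (m : ℕ → ℕ) (xs : ℕ → ℝ) (v : ℕ → ℕ → ℝ) (T' : ℕ), T' ≤ T →
  (∀ t j, 0 ≤ v t j) → (∀ t, 0 ≤ xs t) → 1 ≤ v 0 D.card →
  (∀ t < T', ∀ j ≤ D.card, ∑ i ∈ range (D.card + 1 - j), ((D.card - j).choose i : ℝ) *
    v t (j + i) * (1 - (P t (m t + (j + i)) : ℝ) / N) * (xs t) ^ i ≤ v (t + 1) j) →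
  (∀ t < T', ∀ d ∈ D, Pr (fun ω : Lab V T N => sil nb P ω t c d) ≤ xs t) →
  ∀ t ≤ T', ∀ J ⊆ D, Pr (fun ω : Lab V T N => Ue nb P c D m t J ω) ≤ v t J.card

open Classical in
/-- GL: sums over the set `J` of living children. -/
def St_GL : Prop := ∀ (V : Type) [Fintype V] (nb : V → Finset V) (T N : ℕ) (P : ℕ → ℕ → ℕ),
  0 < N → ∀ (R : ℕ) (c : V) (D : Finset V), Loc nb T R c D →
  ∀ (m : ℕ → ℕ) (t : ℕ) (v : ℕ → ℝ), t ≤ T → (∀ j, 0 ≤ v j) →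
  (∀ J ⊆ D, Pr (fun ω : Lab V T N => Ue nb P c D m t J ω) ≤ v J.card) →
  ∀ (K : ℕ → Lab V T N → Prop) (κ : ℕ → ℝ), (∀ j, 0 ≤ κ j) →
  (∀ j, Dep (K j) {i | i.1 = c ∧ i.2.val = t}) → (∀ j, Pr (K j) ≤ κ j) →
  ∀ (X Y : V → Lab V T N → Prop) (α β : ℝ), 0 ≤ α → 0 ≤ β →
  (∀ d ∈ D, Dep (X d) (lab (Br nb R c d))) → (∀ d ∈ D, Dep (Y d) (lab (Br nb R c d))) →
  (∀ d ∈ D, Pr (X d) ≤ α) → (∀ d ∈ D, Pr (Y d) ≤ β) →
  Pr (fun ω : Lab V T N => ∃ J ⊆ D, Ue nb P c D m t J ω ∧ K J.card ω ∧ ∀ d ∈ J, Y d ω)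
    ≤ ∑ j ∈ range (D.card + 1), (Nat.choose D.card j : ℝ) * v j * κ j * β ^ j ∧
  Pr (fun ω : Lab V T N => ∃ J ⊆ D, Ue nb P c D m t J ω ∧ K J.card ω ∧
      ∃ B ⊆ J, B.Nonempty ∧ (∀ d ∈ B, X d ω) ∧ ∀ d ∈ J \ B, Y d ω)
    ≤ ∑ j ∈ range (D.card + 1), (Nat.choose D.card j : ℝ) * v j * κ j * ((α + β) ^ j - β ^ j)

open Classical in
/-- DD: splitting by the set of living children. -/
def St_DD : Prop := ∀ (V : Type) [Fintype V] (nb : V → Finset V) (T N : ℕ) (P : ℕ → ℕ → ℕ)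
  (c : V) (D : Finset V) (m : ℕ → ℕ) (t : ℕ) (ω : Lab V T N),
  (∀ s < t, ¬ coin P ω c s (m s + cn D (al nb P ω s c)) ∧ ∀ d ∈ D, ¬ jo nb P ω s c d) →
  Ue nb P c D m t (D.filter (fun d => al nb P ω t c d)) ω ∧
  (∀ v : V, ∀ s, al nb P ω s v c ↔
    ∀ s' < s, ¬ coin P ω c s' (1 + cn (ch nb v c) (al nb P ω s' c)) ∧
      ∀ d ∈ ch nb v c, ¬ jo nb P ω s' c d)

/-- MSG: probabilities of the messages. -/
def St_MSG : Prop := ∀ (V : Type) [Fintype V] (nb : V → Finset V), Nb4 nb →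
  ∀ (T N : ℕ) (P : ℕ → ℕ → ℕ) (S : Sq), 0 < N → (∀ t k, P t k ≤ N) →
  (∀ t k, S.p t k = (P t k : ℝ) / N) → MsgCert T S → Uniq nb (3 * T + 6) →
  ∀ t ≤ T, ∀ c : V, ∀ v ∈ nb c,
    Pr (fun ω : Lab V T N => al nb P ω t v c) ≤ S.a t ∧
    (t < T →
      Pr (fun ω : Lab V T N => fi nb P ω t v c) ≤ S.f t ∧
      Pr (fun ω : Lab V T N => al nb P ω t v c ∧ ¬ fi nb P ω t v c) ≤ S.b t ∧
      Pr (fun ω : Lab V T N => jo nb P ω t v c) ≤ S.J t ∧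
      Pr (fun ω : Lab V T N => al nb P ω t v c ∧ ¬ jo nb P ω t v c) ≤ S.n t ∧
      Pr (fun ω : Lab V T N => sil nb P ω t v c) ≤ S.x t)

/-- WPR: probability of `Wt`. -/
def St_WPR : Prop := ∀ (V : Type) [Fintype V] (nb : V → Finset V), Nb4 nb →
  ∀ (T N : ℕ) (P : ℕ → ℕ → ℕ) (S : Sq), 0 < N → (∀ t k, P t k ≤ N) →
  (∀ t k, S.p t k = (P t k : ℝ) / N) → MsgCert T S → Uniq nb (3 * T + 6) →
  ∀ c : V, ∀ u ∈ nb c, ∀ w ∈ nb c, u ≠ w → ∀ x ≤ T, ∀ y ≤ T, ∀ z ≤ T,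
    Pr (fun ω : Lab V T N => Wt nb P c (ch2 nb u c w) x y z ω) ≤ wt S T x y z

/-- PATHPR: probability of `EvL`. -/
def St_PATHPR : Prop := ∀ (V : Type) [Fintype V] (nb : V → Finset V), Nb4 nb →
  ∀ (T N : ℕ) (P : ℕ → ℕ → ℕ) (S : Sq), 0 < N → (∀ t k, P t k ≤ N) →
  (∀ t k, S.p t k = (P t k : ℝ) / N) → MsgCert T S →
  ∀ (l : List V), NBW nb l → Uniq nb (l.length + 3 * T + 12) → ∀ y ≤ T, ∀ x ≤ T,
    Pr (fun ω : Lab V T N => EvL nb P ω l y x) ≤ Q S T (l.length - 2) x y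

/-- ALG: growth of the sums over exit times. -/
def St_ALG : Prop := ∀ (T : ℕ) (S : Sq) (lam del : ℝ) (q q' c : ℕ → ℝ) (g r y be : ℕ → ℕ → ℝ),
  MsgCert T S → PathCert T S lam del q q' c g r y be →
  ∃ C : ℝ, 0 < C ∧ ∀ n, ∀ x ≤ T, ∀ y ≤ T, Q S T n x y ≤ C * lam ^ n

/-- NUM: the certificate. -/
def St_NUM : Prop := ∃ (T N : ℕ) (P : ℕ → ℕ → ℕ) (S : Sq) (lam del : ℝ) (q q' c : ℕ → ℝ)
  (g r y be : ℕ → ℕ → ℝ), 0 < N ∧ (∀ t k, P t k ≤ N) ∧ (∀ t k, S.p t k = (P t k : ℝ) / N) ∧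
  MsgCert T S ∧ PathCert T S lam del q q' c g r y be ∧ lam < 1 / 3

/-- FIN: large 4-regular graphs of large girth are 3-colourable. -/
def St_FIN : Prop := ∃ g : ℕ, ∀ (V : Type) [Fintype V] (G : SimpleGraph V),
  (∀ v, (G.neighborSet v).ncard = 4) → (g : ℕ∞) ≤ G.egirth → G.Colorable 3

end Pool.Agent.H958R2.GK
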