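import Mathlib
import Pool.Agent.H958R2.GK.Stubs

set_option autoImplicit false

/-! COIN: probability of firing. -/

open Finset

namespace Pool.Agent.H958R2.GK

theorem coin_Pr_not {ι C : Type} [Finite ι] [Finite C] [Nonempty C] (E : (ι → C) → Prop) :
    Pr (fun ω => ¬ E ω) = 1 - Pr E := by
  classical
  have h1 : Nat.card {ω : ι → C // E ω} + Nat.card {ω : ι → C // ¬ E ω} = Nat.card (ι → C) := by
    rw [← Nat.card_sum, Nat.card_congr (Equiv.sumCompl E)]
  have h2 : (Nat.card (ι → C) : ℝ) ≠ 0 := by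
    have : 0 < Nat.card (ι → C) := Nat.card_pos
    exact_mod_cast this.ne'
  have h3 : (Nat.card {ω : ι → C // E ω} : ℝ) + Nat.card {ω : ι → C // ¬ E ω} =
      Nat.card (ι → C) := by exact_mod_cast h1
  unfold Pr
  rw [eq_sub_iff_add_eq, ← add_div, div_eq_one_iff_eq h2]
  linarith

theorem coin_Pr_lt {ι : Type} [Finite ι] {N : ℕ} (hN : 0 < N) (i : ι) (m : ℕ) (hm : m ≤ N) :
    Pr (fun ω : ι → Fin N => (ω i).val < m) = (m : ℝ) / N := by
  classical
  have hne : Nonempty (Fin N) := ⟨⟨0, hN⟩⟩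
  have e1 : Nat.card {a : Fin N // a.val < m} = m := by
    have e : {a : Fin N // a.val < m} ≃ Fin m :=
      { toFun := fun a => ⟨a.1.val, a.2⟩
        invFun := fun b => ⟨⟨b.val, lt_of_lt_of_le b.2 hm⟩, b.2⟩
        left_inv := fun _ => rfl
        right_inv := fun _ => rfl }
    rw [Nat.card_congr e, Nat.card_eq_fintype_card, Fintype.card_fin]
  have e2 : Nat.card {ω : ι → Fin N // (ω i).val < m} =
      m * Nat.card ({j // j ≠ i} → Fin N) := by
    have e : {ω : ι → Fin N // (ω i).val < m} ≃ {p : Fin N × ({j // j ≠ i} → Fin N) // p.1.val < m} :=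
      (Equiv.funSplitAt i (Fin N)).subtypeEquiv (fun ω => Iff.rfl)
    have e' : {p : Fin N × ({j // j ≠ i} → Fin N) // p.1.val < m} ≃
        {a : Fin N // a.val < m} × ({j // j ≠ i} → Fin N) :=
      Equiv.prodSubtypeFstEquivSubtypeProd (p := fun a : Fin N => a.val < m)
    rw [Nat.card_congr (e.trans e'), Nat.card_prod, e1]
  have e3 : Nat.card (ι → Fin N) = N * Nat.card ({j // j ≠ i} → Fin N) := by
    rw [Nat.card_congr (Equiv.funSplitAt i (Fin N)), Nat.card_prod, Nat.card_eq_fintype_card (α := Fin N),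
      Fintype.card_fin]
  have h0 : (Nat.card ({j // j ≠ i} → Fin N) : ℝ) ≠ 0 := by
    have : 0 < Nat.card ({j // j ≠ i} → Fin N) := Nat.card_pos
    exact_mod_cast this.ne'
  have hN0 : (N : ℝ) ≠ 0 := by exact_mod_cast hN.ne'
  unfold Pr
  rw [e2, e3]
  push_cast
  rw [mul_div_mul_right _ _ h0]

theorem coin_proof : St_COIN := by
  intro V _ T N P hN hP v t k
  constructor
  · intro ω ω' h
    unfold coin
    constructor
    · rintro ⟨ht, h1⟩
      refine ⟨ht, ?_⟩
      rw [← h (v, ⟨t, ht⟩) ⟨rfl, rfl⟩]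
      exact h1
    · rintro ⟨ht, h1⟩
      refine ⟨ht, ?_⟩
      rw [h (v, ⟨t, ht⟩) ⟨rfl, rfl⟩]
      exact h1
  · intro ht
    have hne : Nonempty (Fin N) := ⟨⟨0, hN⟩⟩
    have hiff : ∀ ω : V × Fin T → Fin N,
        coin P ω v t k ↔ (ω (v, (⟨t, ht⟩ : Fin T))).val < P t k := by
      intro ω
      constructor
      · rintro ⟨_, h1⟩
        exact h1
      · intro h1
        exact ⟨ht, h1⟩
    have e : (fun ω : V × Fin T → Fin N => coin P ω v t k) =
        fun ω : V × Fin T → Fin N => (ω (v, (⟨t, ht⟩ : Fin T))).val < P t k :=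
      funext fun ω => propext (hiff ω)
    have h0 : Pr (fun ω : V × Fin T → Fin N => (ω (v, (⟨t, ht⟩ : Fin T))).val < P t k) =
        (P t k : ℝ) / N :=
      coin_Pr_lt (ι := V × Fin T) hN (v, (⟨t, ht⟩ : Fin T)) (P t k) (hP t k)
    have h1 : Pr (fun ω : V × Fin T → Fin N => coin P ω v t k) = (P t k : ℝ) / N := by
      rw [e]
      exact h0
    have h2 := coin_Pr_not (ι := V × Fin T) (C := Fin N) (fun ω => coin P ω v t k)
    rw [h1] at h2
    exact ⟨h1, h2⟩

end Pool.Agent.H958R2.GK
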