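import Pool.Agent.H958R2.GK.Stubs

set_option autoImplicit false

open Finset

namespace Pool.Agent.H958R2.GK

theorem COL_nbw {V : Type} (nb : V → Finset V) (f : ℕ → V) (h1 : ∀ i, f (i + 1) ∈ nb (f i))
    (h2 : ∀ i, f i ≠ f (i + 2)) : ∀ n s, NBW nb ((List.range' s n).map f) := by
  intro n
  induction n with
  | zero => intro s; trivial
  | succ n ih =>
    intro s
    rcases n with _ | _ | n
    · trivial
    · exact h1 s
    · exact ⟨h1 s, h2 s, ih (s + 1)⟩

theorem col_proof : St_COL := by
  classical
  intro V _ G nb hnb I L hI hL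
  have hac : (G.induce (Iᶜ : Set V)).IsAcyclic := by
    intro v p hp
    have hk := hp.three_le_length
    set k := p.length with hkdef
    set f : ℕ → V := fun i => (p.getVert (i % k)).1 with hf
    have hk0 : 0 < k := by omega
    have h1 : ∀ i, f (i + 1) ∈ nb (f i) := by
      intro i
      rw [hnb]
      have hlt : i % k < p.length := Nat.mod_lt _ hk0
      have hadj := p.adj_getVert_succ hlt
      have hadj' : G.Adj (p.getVert (i % k)).1 (p.getVert (i % k + 1)).1 := hadj
      have he : p.getVert ((i + 1) % k) = p.getVert (i % k + 1) := by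
        by_cases hlt2 : i % k + 1 < k
        · rw [show (i + 1) % k = i % k + 1 by
            rw [Nat.add_mod, Nat.mod_eq_of_lt (show 1 < k by omega), Nat.mod_eq_of_lt hlt2]]
        · have h3 : i % k + 1 = k := by omega
          have h4 : (i + 1) % k = 0 := by
            rw [Nat.add_mod, Nat.mod_eq_of_lt (show 1 < k by omega), h3, Nat.mod_self]
          rw [h4, h3, p.getVert_zero, hkdef, p.getVert_length]
      show G.Adj (p.getVert (i % k)).1 (p.getVert ((i + 1) % k)).1
      rw [he]
      exact hadj'
    have h2 : ∀ i, f i ≠ f (i + 2) := by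
      intro i h
      have h3 : p.getVert (i % k) = p.getVert ((i + 2) % k) := Subtype.ext h
      have hlt : i % k < k := Nat.mod_lt _ hk0
      have hlt' : (i + 2) % k < k := Nat.mod_lt _ hk0
      have h4 := hp.getVert_injOn' (show i % k ≤ p.length - 1 by omega)
        (show (i + 2) % k ≤ p.length - 1 by omega) h3
      have h5 : (i + 2) % k = (i % k + 2) % k := by
        rw [Nat.add_mod, Nat.mod_eq_of_lt (show 2 < k by omega)]
      rw [h5] at h4
      by_cases hc : i % k + 2 < k
      · rw [Nat.mod_eq_of_lt hc] at h4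
        omega
      · have h6 : (i % k + 2) % k = i % k + 2 - k := by
          rw [Nat.mod_eq_sub_mod (by omega), Nat.mod_eq_of_lt (by omega)]
        omega
    obtain ⟨w, hw, hwI⟩ := hL ((List.range' 0 (L + 1)).map f) (COL_nbw nb f h1 h2 (L + 1) 0)
      (by simp)
    obtain ⟨i, -, rfl⟩ := List.mem_map.mp hw
    exact (p.getVert (i % k)).2 hwI
  obtain ⟨C⟩ : (G.induce (Iᶜ : Set V)).Colorable 2 := hac.isBipartite
  refine ⟨SimpleGraph.Coloring.mk (fun v => if h : v ∈ I then (2 : Fin 3) else
    (C ⟨v, h⟩).castSucc) ?_⟩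
  intro v w hvw
  by_cases hv : v ∈ I
  · have hw : w ∉ I := fun hw => hI v hv w hw hvw
    simp only [hv, hw, dif_pos, dif_neg, not_false_eq_true]
    intro h
    have h2 := congrArg Fin.val h
    have h3 := (C ⟨w, hw⟩).isLt
    simp at h2
    omega
  · by_cases hw : w ∈ I
    · simp only [hv, hw, dif_pos, dif_neg, not_false_eq_true]
      intro h
      have h2 := congrArg Fin.val h
      have h3 := (C ⟨v, hv⟩).isLt
      simp at h2
      omega
    · simp only [hv, hw, dif_neg, not_false_eq_true]
      intro h
      have h2 : C ⟨v, hv⟩ = C ⟨w, hw⟩ := Fin.castSucc_injective 2 h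
      exact C.valid (show (G.induce (Iᶜ : Set V)).Adj ⟨v, hv⟩ ⟨w, hw⟩ from hvw) h2

end Pool.Agent.H958R2.GK
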