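import Pool.Agent.H958R2.GK.Stubs

set_option autoImplicit false

/-!
# CONS: messages agree with the true process at an alive vertex
-/

open Finset

namespace Pool.Agent.H958R2.GK

section

variable {V : Type} {T N : ℕ} {nb : V → Finset V} {P : ℕ → ℕ → ℕ} {ω : Lab V T N} {t : ℕ}

open Classical in
theorem cons_cn (hnb : Nb4 nb)
    (hA : ∀ v, lv nb P ω t v → ∀ d ∈ nb v, (lv nb P ω t d ↔ al nb P ω t v d))
    {v : V} (hv : lv nb P ω t v) {d : V} (hd : d ∈ nb v) (hdl : lv nb P ω t d) :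
    cn (nb d) (lv nb P ω t) = 1 + cn (ch nb v d) (al nb P ω t d) := by
  unfold cn ch
  have hvd : v ∈ nb d := hnb.symm v d hd
  have h1 : (nb d).filter (lv nb P ω t) =
      insert v (((nb d).filter (fun e => e ≠ v)).filter (al nb P ω t d)) := by
    ext e
    simp only [mem_filter, mem_insert]
    constructor
    · rintro ⟨h1, h2⟩
      by_cases hev : e = v
      · exact Or.inl hev
      · exact Or.inr ⟨⟨h1, hev⟩, (hA d hdl e h1).1 h2⟩
    · rintro (rfl | ⟨⟨h1, h2⟩, h3⟩)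
      · exact ⟨hvd, hv⟩
      · exact ⟨h1, (hA d hdl e h1).2 h3⟩
  rw [h1, card_insert_of_notMem]
  · ring
  · simp

theorem cons_fr (hnb : Nb4 nb)
    (hA : ∀ v, lv nb P ω t v → ∀ d ∈ nb v, (lv nb P ω t d ↔ al nb P ω t v d))
    {v : V} (hv : lv nb P ω t v) {d : V} (hd : d ∈ nb v) :
    fr nb P ω t (lv nb P ω t) d ↔ fi nb P ω t v d := by
  unfold fr fi FI
  constructor
  · rintro ⟨h1, h2⟩
    rw [cons_cn hnb hA hv hd h1] at h2
    exact ⟨(hA v hv d hd).1 h1, h2⟩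
  · rintro ⟨h1, h2⟩
    have h1' := (hA v hv d hd).2 h1
    rw [← cons_cn hnb hA hv hd h1'] at h2
    exact ⟨h1', h2⟩

theorem cons_jn (hnb : Nb4 nb)
    (hA : ∀ v, lv nb P ω t v → ∀ d ∈ nb v, (lv nb P ω t d ↔ al nb P ω t v d))
    {v : V} (hv : lv nb P ω t v) (hfv : ¬ fr nb P ω t (lv nb P ω t) v) {d : V} (hd : d ∈ nb v) :
    jn nb P ω t (lv nb P ω t) d ↔ jo nb P ω t v d := by
  have hmem : ∀ e, e ∈ ch nb v d ↔ e ∈ nb d ∧ e ≠ v := by
    intro e
    unfold ch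
    simp
  unfold jn jo JO
  constructor
  · rintro ⟨h1, h2⟩
    have hdl := h1.1
    refine ⟨(cons_fr hnb hA hv hd).1 h1, fun e he hfe => ?_⟩
    exact h2 e ((hmem e).1 he).1 ((cons_fr hnb hA hdl ((hmem e).1 he).1).2 hfe)
  · rintro ⟨h1, h2⟩
    have h1' := (cons_fr hnb hA hv hd).2 h1
    have hdl := h1'.1
    refine ⟨h1', fun e he hfe => ?_⟩
    by_cases hev : e = v
    · subst hev
      exact hfv hfe
    · exact h2 e ((hmem e).2 ⟨he, hev⟩) ((cons_fr hnb hA hdl he).1 hfe)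

theorem cons_al (hnb : Nb4 nb) (t : ℕ) :
    ∀ v, lv nb P ω t v → ∀ d ∈ nb v, (lv nb P ω t d ↔ al nb P ω t v d) := by
  induction t with
  | zero => exact fun v _ d _ => Iff.rfl
  | succ t ih =>
    rintro v ⟨hv, hfv, hjv⟩ d hd
    have hmem : ∀ e, e ∈ ch nb v d ↔ e ∈ nb d ∧ e ≠ v := by
      intro e
      unfold ch
      simp
    constructor
    · rintro ⟨h1, h2, h3⟩
      refine ⟨(ih v hv d hd).1 h1, fun h => h2 ((cons_fr hnb ih hv hd).2 h), fun e he h => ?_⟩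
      exact h3 e ((hmem e).1 he).1 ((cons_jn hnb ih h1 h2 ((hmem e).1 he).1).2 h)
    · rintro ⟨h1, h2, h3⟩
      have h1' := (ih v hv d hd).2 h1
      have h2' : ¬ fr nb P ω t (lv nb P ω t) d := fun h => h2 ((cons_fr hnb ih hv hd).1 h)
      refine ⟨h1', h2', fun e he h => ?_⟩
      by_cases hev : e = v
      · subst hev
        exact hfv h.1
      · exact h3 e ((hmem e).2 ⟨he, hev⟩) ((cons_jn hnb ih h1' h2' he).1 h)

end

theorem cons_proof : St_CONS := by
  intro V _ nb hnb T N P ω t v hv d hd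
  have hA := cons_al (P := P) (ω := ω) hnb t
  exact ⟨hA v hv d hd, cons_fr hnb hA hv hd, fun h => cons_jn hnb hA hv h hd⟩

end Pool.Agent.H958R2.GK
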