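import Pool.Agent.H958R2.GK.Stubs

set_option autoImplicit false

/-! TASK COUNT of project GK (helper958); proof by helper439. -/

open Finset

namespace Pool.Agent.H958R2.GK

/-- characterisation of non-backtracking walks by infixes -/
theorem nbw_iff {V : Type} (nb : V → Finset V) : ∀ l : List V,
    NBW nb l ↔ (∀ a b, [a, b] <:+: l → b ∈ nb a) ∧ ∀ a b c, [a, b, c] <:+: l → a ≠ c
  | [] => by
    simp only [NBW, true_iff]
    exact ⟨fun a b h => absurd h.length_le (by simp), fun a b c h => absurd h.length_le (by simp)⟩
  | [x] => by
    simp only [NBW, true_iff]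
    exact ⟨fun a b h => absurd h.length_le (by simp), fun a b c h => absurd h.length_le (by simp)⟩
  | [x, y] => by
    simp only [NBW]
    constructor
    · intro h
      refine ⟨fun a b h' => ?_, fun a b c h' => absurd h'.length_le (by simp)⟩
      have := h'.eq_of_length rfl
      simp only [List.cons.injEq, and_true] at this
      rw [this.1, this.2]
      exact h
    · intro h
      exact h.1 x y List.infix_rfl
  | x :: y :: z :: l => by
    have ih := nbw_iff nb (y :: z :: l)
    rw [NBW, ih]
    constructor
    · rintro ⟨h1, h2, h3, h4⟩
      refine ⟨fun a b h => ?_, fun a b c h => ?_⟩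
      · rw [List.infix_cons_iff] at h
        rcases h with h | h
        · rw [List.cons_prefix_cons, List.cons_prefix_cons] at h
          rw [h.1, h.2.1]
          exact h1
        · exact h3 a b h
      · rw [List.infix_cons_iff] at h
        rcases h with h | h
        · rw [List.cons_prefix_cons, List.cons_prefix_cons, List.cons_prefix_cons] at h
          rw [h.1, h.2.2.1]
          exact h2
        · exact h4 a b c h
    · rintro ⟨h1, h2⟩
      refine ⟨h1 x y ?_, h2 x y z ?_, fun a b h => h1 a b ?_, fun a b c h => h2 a b c ?_⟩
      · rw [List.infix_cons_iff]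
        left
        rw [List.cons_prefix_cons, List.cons_prefix_cons]
        exact ⟨rfl, rfl, List.nil_prefix⟩
      · rw [List.infix_cons_iff]
        left
        rw [List.cons_prefix_cons, List.cons_prefix_cons, List.cons_prefix_cons]
        exact ⟨rfl, rfl, rfl, List.nil_prefix⟩
      · exact h.trans (List.suffix_cons _ _).isInfix
      · exact h.trans (List.suffix_cons _ _).isInfix

theorem nbw_infix {V : Type} (nb : V → Finset V) {l l' : List V} (h : NBW nb l)
    (h' : l' <:+: l) : NBW nb l' := by
  rw [nbw_iff] at h ⊢
  exact ⟨fun a b hh => h.1 a b (hh.trans h'), fun a b c hh => h.2 a b c (hh.trans h')⟩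

theorem nbw_reverse {V : Type} (nb : V → Finset V) (hs : ∀ v w, w ∈ nb v → v ∈ nb w)
    {l : List V} (h : NBW nb l) : NBW nb l.reverse := by
  rw [nbw_iff] at h ⊢
  refine ⟨fun a b hh => ?_, fun a b c hh => ?_⟩
  · have := List.reverse_infix.2 hh
    rw [List.reverse_reverse] at this
    exact hs _ _ (h.1 b a this)
  · have := List.reverse_infix.2 hh
    rw [List.reverse_reverse] at this
    exact (h.2 c b a this).symm

open Classical in
/-- continuations of the walk `a, b` -/
noncomputable def countEX {V : Type} (nb : V → Finset V) : ℕ → V → V → Finset (List V)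
  | 0 => fun _ _ => {[]}
  | k + 1 => fun a b => ((nb b).filter (fun c => c ≠ a)).biUnion
      (fun c => (countEX nb k b c).image (fun l => c :: l))

theorem countEX_card {V : Type} (nb : V → Finset V) (h : Nb4 nb) (k : ℕ) :
    ∀ a b, b ∈ nb a → (countEX nb k a b).card ≤ 3 ^ k := by
  classical
  induction k with
  | zero => intro a b _; simp [countEX]
  | succ k ih =>
    intro a b hab
    rw [countEX]
    have h1 : ((nb b).filter (fun c => c ≠ a)).card = 3 := by
      have h2 : (nb b).filter (fun c => c ≠ a) = (nb b).erase a := by
        ext c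
        simp only [mem_filter, mem_erase]
        tauto
      rw [h2, card_erase_of_mem (h.symm a b hab), h.card]
    refine card_biUnion_le.trans ?_
    refine (sum_le_sum (fun c hc => card_image_le.trans
      (ih b c (mem_filter.1 hc).1))).trans ?_
    rw [sum_const, h1, smul_eq_mul, pow_succ, mul_comm]

theorem mem_countEX {V : Type} (nb : V → Finset V) : ∀ (l : List V) (a b : V),
    NBW nb (a :: b :: l) → l ∈ countEX nb l.length a b
  | [], a, b, _ => by simp [countEX]
  | c :: l, a, b, hl => by
    classical
    rw [List.length_cons, countEX, mem_biUnion]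
    refine ⟨c, mem_filter.2 ⟨?_, hl.2.1.symm⟩, mem_image.2 ⟨l, ?_, rfl⟩⟩
    · cases l with
      | nil => exact hl.2.2
      | cons d l => exact hl.2.2.1
    · exact mem_countEX nb l b c hl.2.2

open Classical in
/-- the walks with `k + 1` vertices starting at `v` -/
noncomputable def countWF {V : Type} (nb : V → Finset V) (v : V) : ℕ → Finset (List V)
  | 0 => {[v]}
  | k + 1 => (nb v).biUnion (fun b => (countEX nb k v b).image (fun l => v :: b :: l))

theorem countWF_card {V : Type} (nb : V → Finset V) (h : Nb4 nb) (v : V) (k : ℕ) :
    (countWF nb v k).card ≤ 4 * 3 ^ k := by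
  classical
  cases k with
  | zero => simp [countWF]
  | succ k =>
    rw [countWF]
    refine card_biUnion_le.trans ?_
    refine (sum_le_sum (fun b hb => card_image_le.trans (countEX_card nb h k v b hb))).trans ?_
    rw [sum_const, h.card, smul_eq_mul]
    exact Nat.mul_le_mul_left 4 (Nat.pow_le_pow_right (by norm_num) (Nat.le_succ k))

theorem mem_countWF {V : Type} (nb : V → Finset V) (l : List V) (v : V)
    (hl : NBW nb (v :: l)) : v :: l ∈ countWF nb v l.length := by
  classical
  cases l with
  | nil => simp [countWF]
  | cons b l =>
    rw [List.length_cons, countWF, mem_biUnion]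
    refine ⟨b, ?_, mem_image.2 ⟨l, mem_countEX nb l v b hl, rfl⟩⟩
    cases l with
    | nil => exact hl
    | cons c l => exact hl.1

theorem count_proof : St_COUNT := by
  classical
  intro V _ nb h L v
  set Fs := (univ : Finset (List.Vector V (L + 1))).filter
    (fun l => NBW nb l.val ∧ v ∈ l.val) with hF
  set T : Finset (List V) := (range (L + 1)).biUnion (fun i =>
    ((countWF nb v i) ×ˢ (countWF nb v (L - i))).image (fun p => p.1.tail.reverse ++ p.2)) with hT
  have h1 : Fs.card ≤ T.card := by
    refine card_le_card_of_injOn (fun l => l.val) ?_ (fun a _ b _ hab => Subtype.ext hab)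
    intro l hl
    have hl' := (mem_filter.1 (mem_coe.1 hl)).2
    obtain ⟨hn, hv⟩ := hl'
    obtain ⟨i, hi, hiv⟩ := List.getElem_of_mem hv
    have hlen : l.val.length = L + 1 := l.2
    refine mem_coe.2 (mem_biUnion.2 ⟨i, mem_range.2 (by omega), mem_image.2
      ⟨((l.val.take (i + 1)).reverse, l.val.drop i), mem_product.2 ⟨?_, ?_⟩, ?_⟩⟩)
    · have e1 : (l.val.take (i + 1)).reverse = v :: (l.val.take i).reverse := by
        rw [List.take_succ_eq_append_getElem hi, List.reverse_append, hiv]
        rfl
      simp only
      have h2 : NBW nb (v :: (l.val.take i).reverse) := by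
        rw [← e1]
        exact nbw_reverse nb h.symm (nbw_infix nb hn (List.take_prefix _ _).isInfix)
      have h3 := mem_countWF nb _ v h2
      rw [List.length_reverse, List.length_take, min_eq_left (by omega)] at h3
      rw [e1]
      exact h3
    · have e1 : l.val.drop i = v :: l.val.drop (i + 1) := by
        rw [List.drop_eq_getElem_cons hi, hiv]
      simp only
      have h2 : NBW nb (v :: l.val.drop (i + 1)) := by
        rw [← e1]
        exact nbw_infix nb hn (List.drop_suffix _ _).isInfix
      have h3 := mem_countWF nb _ v h2
      rw [List.length_drop, hlen] at h3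
      rw [e1]
      have e2 : L + 1 - (i + 1) = L - i := by omega
      rw [e2] at h3
      exact h3
    · simp only
      rw [List.take_succ_eq_append_getElem hi, List.reverse_append]
      simp
  refine h1.trans ?_
  rw [hT]
  refine card_biUnion_le.trans ?_
  have h2 : ∀ i ∈ range (L + 1), (((countWF nb v i) ×ˢ (countWF nb v (L - i))).image
      (fun p => p.1.tail.reverse ++ p.2)).card ≤ 16 * 3 ^ L := by
    intro i hi
    have hi' := mem_range.1 hi
    refine card_image_le.trans ?_
    rw [card_product]
    refine (Nat.mul_le_mul (countWF_card nb h v i) (countWF_card nb h v (L - i))).trans ?_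
    have e1 : 4 * 3 ^ i * (4 * 3 ^ (L - i)) = 16 * (3 ^ i * 3 ^ (L - i)) := by ring
    rw [e1, ← pow_add, show i + (L - i) = L by omega]
  refine (sum_le_sum h2).trans ?_
  rw [sum_const, card_range, smul_eq_mul, mul_assoc]

end Pool.Agent.H958R2.GK
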