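import Pool.Agent.H958R2.GK.Stubs

set_option autoImplicit false

/-!
# Task DD: splitting by the set of living children
-/

open Finset

namespace Pool.Agent.H958R2.GK

theorem dd_al_succ {V : Type} {T N : ℕ} (nb : V → Finset V) (P : ℕ → ℕ → ℕ) (ω : Lab V T N)
    (t : ℕ) (v c : V) (h : al nb P ω (t + 1) v c) : al nb P ω t v c := h.1

theorem dd_al_mono {V : Type} {T N : ℕ} (nb : V → Finset V) (P : ℕ → ℕ → ℕ) (ω : Lab V T N)
    {s t : ℕ} (hst : s ≤ t) (v c : V) (h : al nb P ω t v c) : al nb P ω s v c := by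
  induction hst with
  | refl => exact h
  | step _ ih => exact ih (dd_al_succ nb P ω _ v c h)

/-- a child that is alive at time `t` did not join before. -/
theorem dd_not_jo {V : Type} {T N : ℕ} (nb : V → Finset V) (P : ℕ → ℕ → ℕ) (ω : Lab V T N)
    {s t : ℕ} (hst : s < t) (v c : V) (h : al nb P ω t v c) : ¬ jo nb P ω s v c := by
  have h1 : al nb P ω (s + 1) v c := dd_al_mono nb P ω hst v c h
  intro hj
  exact h1.2.1 hj.1

open Classical in
theorem dd_cn_split {V : Type} (D J : Finset V) (R : V → Prop) (hJ : J ⊆ D)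
    (hR : ∀ d ∈ J, R d) : cn D R = J.card + cn (D \ J) R := by
  unfold cn
  have h1 : D.filter R = J ∪ (D \ J).filter R := by
    ext d
    simp only [mem_filter, mem_union, mem_sdiff]
    constructor
    · rintro ⟨h1, h2⟩
      by_cases h : d ∈ J
      · exact Or.inl h
      · exact Or.inr ⟨⟨h1, h⟩, h2⟩
    · rintro (h | ⟨⟨h1, _⟩, h2⟩)
      · exact ⟨hJ h, hR d h⟩
      · exact ⟨h1, h2⟩
  have h2 : Disjoint J ((D \ J).filter R) := by
    rw [Finset.disjoint_left]
    intro a ha hb
    exact (mem_sdiff.1 (mem_filter.1 hb).1).2 ha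
  have h3 := card_union_of_disjoint h2
  rw [← h3, ← h1]

open Classical in
theorem dd_proof : St_DD := by
  intro V _ nb T N P c D m t ω h
  refine ⟨?_, ?_⟩
  · refine ⟨?_, ?_⟩
    · intro s hs
      obtain ⟨h1, h2⟩ := h s hs
      refine ⟨?_, ?_⟩
      · rw [← dd_cn_split D (D.filter (fun d => al nb P ω t c d)) (al nb P ω s c)
          (filter_subset _ _) (fun d hd => dd_al_mono nb P ω hs.le c d (mem_filter.1 hd).2)]
        exact h1
      · intro d hd
        exact h2 d (mem_sdiff.1 hd).1
    · intro d hd hal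
      obtain ⟨h1, h2⟩ := mem_sdiff.1 hd
      exact h2 (mem_filter.2 ⟨h1, hal⟩)
  · intro v s
    induction s with
    | zero =>
      constructor
      · intro _ s' hs'
        exact absurd hs' (Nat.not_lt_zero _)
      · intro _
        trivial
    | succ s ih =>
      constructor
      · intro hal s' hs'
        rcases Nat.lt_succ_iff_lt_or_eq.1 hs' with h1 | h1
        · exact ih.1 hal.1 s' h1
        · subst h1
          refine ⟨fun hc => hal.2.1 ⟨hal.1, hc⟩, hal.2.2⟩
      · intro hall
        have h1 : al nb P ω s v c := ih.2 (fun s' hs' => hall s' (hs'.trans (Nat.lt_succ_self s)))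
        obtain ⟨h2, h3⟩ := hall s (Nat.lt_succ_self s)
        exact ⟨h1, fun hf => h2 hf.2, h3⟩

end Pool.Agent.H958R2.GK
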