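import Pool.Agent.H958R2.GK.Stubs

set_option autoImplicit false

/-!
# Task DEG of project GK (helper814)
-/

open Finset

namespace Pool.Agent.H958R2.GK

open Classical in
theorem deg_mem_succ {V : Type} (nb : V → Finset V) (k : ℕ) (v w : V) :
    w ∈ Bl nb (k + 1) v ↔ w = v ∨ ∃ d ∈ nb v, w ∈ Bl nb k d := by
  show w ∈ {v} ∪ (nb v).biUnion (fun d => Bl nb k d) ↔ _
  rw [Finset.mem_union, Finset.mem_singleton, Finset.mem_biUnion]

theorem deg_mem_zero {V : Type} (nb : V → Finset V) (v w : V) :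
    w ∈ Bl nb 0 v ↔ w = v := by
  show w ∈ ({v} : Finset V) ↔ _
  rw [Finset.mem_singleton]

theorem deg_self {V : Type} (nb : V → Finset V) (k : ℕ) (v : V) : v ∈ Bl nb k v := by
  cases k with
  | zero => rw [deg_mem_zero]
  | succ k => rw [deg_mem_succ]; exact Or.inl rfl

theorem deg_ext {V : Type} (nb : V → Finset V) (k : ℕ) (v w u : V) (h : w ∈ Bl nb k v)
    (hu : u ∈ nb w) : u ∈ Bl nb (k + 1) v := by
  induction k generalizing v with
  | zero =>
    rw [deg_mem_zero] at h
    subst h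
    rw [deg_mem_succ]
    exact Or.inr ⟨u, hu, deg_self nb 0 u⟩
  | succ k ih =>
    rw [deg_mem_succ] at h
    rw [deg_mem_succ]
    rcases h with h | ⟨d, hd, h⟩
    · subst h
      exact Or.inr ⟨u, hu, deg_self nb (k + 1) u⟩
    · exact Or.inr ⟨d, hd, ih d h⟩

theorem deg_symm {V : Type} (nb : V → Finset V) (hs : ∀ v w, w ∈ nb v → v ∈ nb w) (k : ℕ)
    (v w : V) (h : w ∈ Bl nb k v) : v ∈ Bl nb k w := by
  induction k generalizing v with
  | zero =>
    rw [deg_mem_zero] at h ⊢
    exact h.symm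
  | succ k ih =>
    rw [deg_mem_succ] at h
    rcases h with h | ⟨d, hd, h⟩
    · subst h
      exact deg_self nb (k + 1) w
    · exact deg_ext nb k w d v (ih d h) (hs v d hd)

theorem deg_card {V : Type} (nb : V → Finset V) (hc : ∀ v, (nb v).card = 4) (k : ℕ)
    (v : V) : (Bl nb k v).card ≤ 5 ^ k := by
  classical
  induction k generalizing v with
  | zero => exact le_of_eq (Finset.card_singleton v)
  | succ k ih =>
    have h1 : Bl nb (k + 1) v ⊆ {v} ∪ (nb v).biUnion (fun d => Bl nb k d) := by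
      intro w hw
      rw [deg_mem_succ] at hw
      rw [Finset.mem_union, Finset.mem_singleton, Finset.mem_biUnion]
      exact hw
    have h2 := Finset.card_le_card h1
    have h3 := Finset.card_union_le ({v} : Finset V) ((nb v).biUnion (fun d => Bl nb k d))
    have h4 := Finset.card_biUnion_le_card_mul (nb v) (fun d => Bl nb k d) (5 ^ k)
      (fun d _ => ih d)
    rw [hc] at h4
    rw [Finset.card_singleton] at h3
    have h5 : 1 ≤ 5 ^ k := Nat.one_le_pow _ _ (by norm_num)
    have h6 : 5 ^ (k + 1) = 5 * 5 ^ k := by ring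
    omega

theorem deg_proof (h : St_COUNT) : St_DEG := by
  classical
  intro V _ nb hnb L R l
  have key : ∀ l' : List.Vector V (L + 1), NBW nb l'.val →
      ¬ Disjoint (NL nb R l.val) (NL nb R l'.val) →
      ∃ v ∈ l.val.toFinset, ∃ z ∈ Bl nb R v, ∃ v' ∈ Bl nb R z, v' ∈ l'.val := by
    intro l' _ hd
    rw [Finset.not_disjoint_iff] at hd
    obtain ⟨z, h1, h2⟩ := hd
    unfold NL at h1 h2
    rw [Finset.mem_biUnion] at h1 h2
    obtain ⟨v, hv, hz⟩ := h1
    obtain ⟨v', hv', hz'⟩ := h2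
    refine ⟨v, ?_, z, hz, v', deg_symm nb hnb.symm R v' z hz', ?_⟩
    · rw [List.mem_toFinset] at hv ⊢
      exact hv
    · rw [List.mem_toFinset] at hv'
      exact hv'
  have hsub : (univ : Finset (List.Vector V (L + 1))).filter
      (fun l' => NBW nb l'.val ∧ ¬ Disjoint (NL nb R l.val) (NL nb R l'.val)) ⊆
      l.val.toFinset.biUnion (fun v => (Bl nb R v).biUnion (fun z => (Bl nb R z).biUnion
        (fun v' => (univ : Finset (List.Vector V (L + 1))).filter
          (fun l' => NBW nb l'.val ∧ v' ∈ l'.val)))) := by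
    intro l' hl'
    rw [Finset.mem_filter] at hl'
    obtain ⟨v, hv, z, hz, v', hv', hm⟩ := key l' hl'.2.1 hl'.2.2
    rw [Finset.mem_biUnion]
    refine ⟨v, hv, ?_⟩
    rw [Finset.mem_biUnion]
    refine ⟨z, hz, ?_⟩
    rw [Finset.mem_biUnion]
    refine ⟨v', hv', ?_⟩
    rw [Finset.mem_filter]
    exact ⟨Finset.mem_univ _, hl'.2.1, hm⟩
  have hN : ∀ v' : V, ((univ : Finset (List.Vector V (L + 1))).filter
          (fun l' => NBW nb l'.val ∧ v' ∈ l'.val)).card ≤ (L + 1) * 16 * 3 ^ L := by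
    intro v'
    exact h V nb hnb L v'
  have hA : ∀ z : V, ((Bl nb R z).biUnion
        (fun v' => (univ : Finset (List.Vector V (L + 1))).filter
          (fun l' => NBW nb l'.val ∧ v' ∈ l'.val))).card ≤ 5 ^ R * ((L + 1) * 16 * 3 ^ L) := by
    intro z
    refine (Finset.card_biUnion_le_card_mul _ _ _ (fun v' _ => hN v')).trans ?_
    exact Nat.mul_le_mul_right _ (deg_card nb hnb.card R z)
  have hB : ∀ v : V, ((Bl nb R v).biUnion (fun z => (Bl nb R z).biUnion
        (fun v' => (univ : Finset (List.Vector V (L + 1))).filter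
          (fun l' => NBW nb l'.val ∧ v' ∈ l'.val)))).card ≤
        5 ^ R * (5 ^ R * ((L + 1) * 16 * 3 ^ L)) := by
    intro v
    refine (Finset.card_biUnion_le_card_mul _ _ _ (fun z _ => hA z)).trans ?_
    exact Nat.mul_le_mul_right _ (deg_card nb hnb.card R v)
  have hC := (Finset.card_le_card hsub).trans (Finset.card_biUnion_le_card_mul l.val.toFinset _
    (5 ^ R * (5 ^ R * ((L + 1) * 16 * 3 ^ L))) (fun v _ => hB v))
  have hD : l.val.toFinset.card ≤ L + 1 := by
    refine (List.toFinset_card_le _).trans ?_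
    exact le_of_eq l.2
  have hE := Nat.mul_le_mul_right (5 ^ R * (5 ^ R * ((L + 1) * 16 * 3 ^ L))) hD
  have hF := hC.trans hE
  rw [← mul_assoc] at hF
  exact hF

end Pool.Agent.H958R2.GK
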