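import Pool.Agent.H958R2.GK.Stubs

set_option autoImplicit false

open Finset

namespace Pool.Agent.H958R2.GK

theorem DISJ_br {V : Type} (nb : V → Finset V) : ∀ (k : ℕ) (v c e : V), c ∈ nb v →
    e ∈ Br nb k v c → ∃ l : List V, l.length ≤ k ∧ NBW nb (v :: c :: l) ∧
      (v :: c :: l).getLast? = some e := by
  classical
  intro k
  induction k with
  | zero =>
    intro v c e hc he
    have : e = c := by simpa [Br] using he
    subst this
    exact ⟨[], le_refl _, hc, rfl⟩
  | succ k ih =>
    intro v c e hc he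
    simp only [Br, Finset.mem_union, Finset.mem_singleton, Finset.mem_biUnion, ch,
      Finset.mem_filter] at he
    rcases he with rfl | ⟨d, ⟨hd, hdv⟩, he⟩
    · exact ⟨[], Nat.zero_le _, hc, rfl⟩
    · obtain ⟨l, hl, hn, hlast⟩ := ih c d e hd he
      refine ⟨d :: l, by simpa using hl, ⟨hc, fun h => hdv h.symm, hn⟩, ?_⟩
      rw [← hlast]
      rfl

theorem DISJ_sl {V : Type} (nb : V → Finset V) (R : ℕ) : ∀ (l : List V) (c w e : V),
    NBW nb (c :: w :: l) → e ∈ SL nb R (c :: w :: l) → ∃ m : List V,
      m.length ≤ l.length + R + 1 ∧ NBW nb (c :: w :: m) ∧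
      (c :: w :: m).getLast? = some e := by
  classical
  intro l
  induction l with
  | nil =>
    intro c w e _ he
    simp [SL] at he
  | cons n l ih =>
    intro c w e hn he
    obtain ⟨hcw, hcn, hn'⟩ := hn
    rw [SL, Finset.mem_union] at he
    rcases he with he | he
    · simp only [Site, Finset.mem_union, Finset.mem_singleton, Finset.mem_biUnion, ch2,
        Finset.mem_filter] at he
      rcases he with rfl | ⟨d, ⟨hd, hdc, hdn⟩, he⟩
      · exact ⟨[], Nat.zero_le _, hcw, rfl⟩
      · obtain ⟨l1, h1, h2, h3⟩ := DISJ_br nb R w d e hd he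
        refine ⟨d :: l1, by simp; omega, ⟨hcw, fun h => hdc h.symm, h2⟩, ?_⟩
        rw [← h3]
        rfl
    · obtain ⟨m, h1, h2, h3⟩ := ih w n e hn' he
      refine ⟨n :: m, by simp; omega, ⟨hcw, hcn, h2⟩, ?_⟩
      rw [← h3]
      rfl

theorem disj_proof : St_DISJ := by
  classical
  intro V _ nb hnb M R hU
  refine ⟨?_, ?_⟩
  · intro hM c
    refine ⟨?_, ?_⟩
    · intro d hd d' hd' hne
      rw [Finset.disjoint_left]
      intro e he he'
      obtain ⟨l, h1, h2, h3⟩ := DISJ_br nb R c d e hd he
      obtain ⟨l', h1', h2', h3'⟩ := DISJ_br nb R c d' e hd' he'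
      have := hU _ _ h2 h2' (by simp; omega) (by simp; omega) rfl (h3.trans h3'.symm)
      simp only [List.cons.injEq, true_and] at this
      exact hne this.1
    · intro d hd he
      obtain ⟨l, h1, h2, h3⟩ := DISJ_br nb R c d c hd he
      have := hU (c :: d :: l) [c] h2 trivial (by simp; omega) (by simp; omega) rfl
        (h3.trans rfl)
      simp at this
  · intro u c w l hn hM
    obtain ⟨huc, huw, hn'⟩ := hn
    rw [Finset.disjoint_left]
    intro e he he'
    obtain ⟨m, h1, h2, h3⟩ := DISJ_sl nb R l c w e hn' he'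
    simp only [Site, Finset.mem_union, Finset.mem_singleton, Finset.mem_biUnion, ch2,
      Finset.mem_filter] at he
    rcases he with rfl | ⟨d, ⟨hd, hdu, hdw⟩, he⟩
    · have := hU (e :: w :: m) [e] h2 trivial (by simp; omega) (by simp; omega) rfl
        (h3.trans rfl)
      simp at this
    · obtain ⟨l1, h4, h5, h6⟩ := DISJ_br nb R c d e hd he
      have := hU _ _ h5 h2 (by simp; omega) (by simp; omega) rfl (h6.trans h3.symm)
      simp only [List.cons.injEq, true_and] at this
      exact hdw this.1

end Pool.Agent.H958R2.GK
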