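import Mathlib

set_option autoImplicit false

/-!
# Project GK: every 4-regular graph of large girth is 3-colourable

A random process with `T` rounds produces an independent set `I` of a graph in which every vertex has
four neighbours.  All vertices are alive at the start.  In round `t` an alive vertex with `k` alive
neighbours fires when its coin of round `t` is below `P t k`.  A firing vertex none of whose
neighbours fires joins `I`.  After the round all firing vertices and all neighbours of the vertices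
that join stop being alive.
-/

open Finset

namespace Pool.Agent.H958R2.GK

/-! ## Neighbourhood systems and non-backtracking walks -/

/-- a symmetric loopless neighbourhood system with four neighbours everywhere -/
structure Nb4 {V : Type} (nb : V → Finset V) : Prop where
  symm : ∀ v w, w ∈ nb v → v ∈ nb w
  irr : ∀ v, v ∉ nb v
  card : ∀ v, (nb v).card = 4

/-- the list of vertices is a non-backtracking walk -/
def NBW {V : Type} (nb : V → Finset V) : List V → Prop
  | [] => True
  | [_] => True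
  | [a, b] => b ∈ nb a
  | a :: b :: c :: l => b ∈ nb a ∧ a ≠ c ∧ NBW nb (b :: c :: l)

/-- a non-backtracking walk with at most `M` vertices is determined by its two ends -/
def Uniq {V : Type} (nb : V → Finset V) (M : ℕ) : Prop :=
  ∀ l l' : List V, NBW nb l → NBW nb l' → l.length ≤ M → l'.length ≤ M →
    l.head? = l'.head? → l.getLast? = l'.getLast? → l = l'

open Classical in
/-- neighbours of `c` other than `v` -/
noncomputable def ch {V : Type} (nb : V → Finset V) (v c : V) : Finset V :=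
  (nb c).filter (fun d => d ≠ v)

open Classical in
/-- neighbours of `c` other than `u` and `w` -/
noncomputable def ch2 {V : Type} (nb : V → Finset V) (u c w : V) : Finset V :=
  (nb c).filter (fun d => d ≠ u ∧ d ≠ w)

open Classical in
/-- number of elements of `D` with the property `R` -/
noncomputable def cn {V : Type} (D : Finset V) (R : V → Prop) : ℕ := (D.filter R).card

open Classical in
/-- vertices reached by non-backtracking walks that start `v, c` and make at most `k` more steps -/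
noncomputable def Br {V : Type} (nb : V → Finset V) : ℕ → V → V → Finset V
  | 0 => fun _ c => {c}
  | k + 1 => fun v c => {c} ∪ (ch nb v c).biUnion (fun d => Br nb k c d)

open Classical in
/-- vertices at distance at most `k` from `v` -/
noncomputable def Bl {V : Type} (nb : V → Finset V) : ℕ → V → Finset V
  | 0 => fun v => {v}
  | k + 1 => fun v => {v} ∪ (nb v).biUnion (fun d => Bl nb k d)

/-! ## Probabilities of events for uniform independent labels -/

/-- probability of an event when the labels are uniform and independent -/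
noncomputable def Pr {ι C : Type} (E : (ι → C) → Prop) : ℝ :=
  (Nat.card {ω : ι → C // E ω} : ℝ) / (Nat.card (ι → C) : ℝ)

/-- the event depends only on the labels with index in `S` -/
def Dep {ι C : Type} (E : (ι → C) → Prop) (S : Set ι) : Prop :=
  ∀ ω ω' : ι → C, (∀ i ∈ S, ω i = ω' i) → (E ω ↔ E ω')

/-! ## The process -/

/-- labels: one number below `N` for each vertex and each of the `T` rounds -/
abbrev Lab (V : Type) (T N : ℕ) : Type := V × Fin T → Fin N

/-- `v` fires in round `t` if it is alive and has `k` alive neighbours -/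
def coin {V : Type} {T N : ℕ} (P : ℕ → ℕ → ℕ) (ω : Lab V T N) (v : V) (t k : ℕ) : Prop :=
  ∃ h : t < T, (ω (v, ⟨t, h⟩)).val < P t k

section Proc

variable {V : Type} {T N : ℕ} (nb : V → Finset V) (P : ℕ → ℕ → ℕ) (ω : Lab V T N)

/-- messages: `R v c` means that `c` is alive in the process in which `v` always is alive and never
fires.  `FI`: `c` fires in round `t`. -/
def FI (t : ℕ) (R : V → V → Prop) (v c : V) : Prop :=
  R v c ∧ coin P ω c t (1 + cn (ch nb v c) (R c))

/-- message: `c` joins in round `t` -/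
def JO (t : ℕ) (R : V → V → Prop) (v c : V) : Prop :=
  FI nb P ω t R v c ∧ ∀ d ∈ ch nb v c, ¬ FI nb P ω t R c d

/-- message: `c` is alive after round `t` -/
def NX (t : ℕ) (R : V → V → Prop) (v c : V) : Prop :=
  R v c ∧ ¬ FI nb P ω t R v c ∧ ∀ d ∈ ch nb v c, ¬ JO nb P ω t R c d

/-- message: `c` is alive at time `t` (before round `t`) -/
def al : ℕ → V → V → Prop
  | 0 => fun _ _ => True
  | t + 1 => NX nb P ω t (al t)

/-- message: `c` fires in round `t` -/
def fi (t : ℕ) (v c : V) : Prop := FI nb P ω t (al nb P ω t) v c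

/-- message: `c` joins in round `t` -/
def jo (t : ℕ) (v c : V) : Prop := JO nb P ω t (al nb P ω t) v c

/-- the true process: `v` fires in round `t`, where `S` is the set of alive vertices -/
def fr (t : ℕ) (S : V → Prop) (v : V) : Prop := S v ∧ coin P ω v t (cn (nb v) S)

/-- the true process: `v` joins in round `t` -/
def jn (t : ℕ) (S : V → Prop) (v : V) : Prop :=
  fr nb P ω t S v ∧ ∀ d ∈ nb v, ¬ fr nb P ω t S d

/-- the true process: the alive vertices at time `t` -/
def lv : ℕ → V → Prop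
  | 0 => fun _ => True
  | t + 1 => fun v => lv t v ∧ ¬ fr nb P ω t (lv t) v ∧ ∀ d ∈ nb v, ¬ jn nb P ω t (lv t) d

/-- the independent set -/
def inI (v : V) : Prop := ∃ t, jn nb P ω t (lv nb P ω t) v

end Proc

/-! ## Exit times along a path -/

/-- number of alive neighbours on the path at time `s`, when their exit times are `y` and `z` -/
def mm (y z s : ℕ) : ℕ := (if s ≤ y then 1 else 0) + (if s ≤ z then 1 else 0)

/-- The site `c` with the further neighbours `D` leaves in round `x` (never if `x = T`), without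
joining, when its two neighbours on the path leave in the rounds `y` and `z`. -/
def Wt {V : Type} {T N : ℕ} (nb : V → Finset V) (P : ℕ → ℕ → ℕ) (c : V) (D : Finset V)
    (x y z : ℕ) (ω : Lab V T N) : Prop :=
  (∀ s < x, ¬ coin P ω c s (mm y z s + cn D (al nb P ω s c)) ∧ ∀ d ∈ D, ¬ jo nb P ω s c d) ∧
  (x < T →
    ((¬ coin P ω c x (mm y z x + cn D (al nb P ω x c)) ∧ ∃ d ∈ D, jo nb P ω x c d) ∨
     (coin P ω c x (mm y z x + cn D (al nb P ω x c)) ∧
        (y = x ∨ z = x ∨ ∃ d ∈ D, fi nb P ω x c d))))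

/-- the sites of the list have exit times `y, x, …` in a consistent way -/
def EvL {V : Type} {T N : ℕ} (nb : V → Finset V) (P : ℕ → ℕ → ℕ) (ω : Lab V T N) :
    List V → ℕ → ℕ → Prop
  | [] => fun _ _ => True
  | [_] => fun _ _ => True
  | [_, _] => fun _ _ => True
  | u :: c :: w :: l => fun y x =>
      ∃ z ≤ T, Wt nb P c (ch2 nb u c w) x y z ω ∧ EvL nb P ω (c :: w :: l) x z

/-! ## Certificates -/

/-- the numbers of a certificate: `p t k` is the firing probability, `u t j` bounds the probability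
that a vertex with three children lives until `t` in spite of the children outside a set of `j`
children, `a` (alive), `b` (alive, not firing), `f` (firing), `J` (joining), `n` (alive, not joining),
`x` (leaving in round `t` without joining) bound the probabilities of the messages -/
structure Sq where
  p : ℕ → ℕ → ℝ
  u : ℕ → ℕ → ℝ
  a : ℕ → ℝ
  b : ℕ → ℝ
  f : ℕ → ℝ
  J : ℕ → ℝ
  n : ℕ → ℝ
  x : ℕ → ℝ

/-- the inequalities for the messages -/
structure MsgCert (T : ℕ) (S : Sq) : Prop where
  p0 : ∀ t k, 0 ≤ S.p t k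
  p1 : ∀ t k, S.p t k ≤ 1
  u0 : ∀ t j, 0 ≤ S.u t j
  a0 : ∀ t, 0 ≤ S.a t
  b0 : ∀ t, 0 ≤ S.b t
  f0 : ∀ t, 0 ≤ S.f t
  J0 : ∀ t, 0 ≤ S.J t
  n0 : ∀ t, 0 ≤ S.n t
  x0 : ∀ t, 0 ≤ S.x t
  u_init : 1 ≤ S.u 0 3
  u_step : ∀ t < T, ∀ j ≤ 3, ∑ i ∈ range (4 - j), ((3 - j).choose i : ℝ) * S.u t (j + i) *
    (1 - S.p t (1 + (j + i))) * (S.x t) ^ i ≤ S.u (t + 1) j
  a_init : 1 ≤ S.a 0
  f_ge : ∀ t < T, ∑ j ∈ range 4, (Nat.choose 3 j : ℝ) * S.u t j * S.p t (1 + j) * (S.a t) ^ j
    ≤ S.f t
  b_ge : ∀ t < T, ∑ j ∈ range 4, (Nat.choose 3 j : ℝ) * S.u t j * (1 - S.p t (1 + j)) *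
    (S.a t) ^ j ≤ S.b t
  J_ge : ∀ t < T, ∑ j ∈ range 4, (Nat.choose 3 j : ℝ) * S.u t j * S.p t (1 + j) * (S.b t) ^ j
    ≤ S.J t
  n_ge : ∀ t < T, S.b t + ∑ j ∈ range 4, (Nat.choose 3 j : ℝ) * S.u t j * S.p t (1 + j) *
    ((S.f t + S.b t) ^ j - (S.b t) ^ j) ≤ S.n t
  x_ge : ∀ t < T, ∑ j ∈ range 4, (Nat.choose 3 j : ℝ) * S.u t j * S.p t (1 + j) *
      ((S.f t + S.b t) ^ j - (S.b t) ^ j) +
    ∑ j ∈ range 4, (Nat.choose 3 j : ℝ) * S.u t j * (1 - S.p t (1 + j)) *
      ((S.J t + S.n t) ^ j - (S.n t) ^ j) ≤ S.x t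
  a_step : ∀ t < T, ∑ j ∈ range 4, (Nat.choose 3 j : ℝ) * S.u t j * (1 - S.p t (1 + j)) *
    (S.n t) ^ j ≤ S.a (t + 1)

/-! ## Weights along a path -/

section Weights

variable (S : Sq)

/-- one round for a site with two children, `k` of whose neighbours on the path are alive -/
noncomputable def stp (s k : ℕ) (v : ℕ → ℝ) (j : ℕ) : ℝ :=
  ∑ i ∈ range (3 - j), ((2 - j).choose i : ℝ) * v (j + i) * (1 - S.p s (k + (j + i))) * (S.x s) ^ i

/-- the vector of a site with two children at time `s` -/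
noncomputable def vec (m : ℕ → ℕ) : ℕ → ℕ → ℝ
  | 0 => fun j => if j = 2 then 1 else 0
  | s + 1 => stp S s (m s) (vec m s)

/-- coefficient of the weight for leaving in round `t` -/
noncomputable def exc (t k : ℕ) (sim : Bool) (j : ℕ) : ℝ :=
  (Nat.choose 2 j : ℝ) * ((1 - S.p t (k + j)) * ((S.J t + S.n t) ^ j - (S.n t) ^ j) +
    S.p t (k + j) * (if sim then (S.a t) ^ j else (S.f t + S.b t) ^ j - (S.b t) ^ j))

/-- weight for leaving in round `t` -/
noncomputable def exw (t k : ℕ) (sim : Bool) (v : ℕ → ℝ) : ℝ := ∑ j ∈ range 3, v j * exc S t k sim j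

/-- weight for never leaving -/
noncomputable def enw (T : ℕ) (v : ℕ → ℝ) : ℝ := ∑ j ∈ range 3, v j * ((Nat.choose 2 j : ℝ) * (S.a T) ^ j)

/-- bound for the probability of `Wt` -/
noncomputable def wt (T x y z : ℕ) : ℝ :=
  if x < T then exw S x (mm y z x) (decide (y = x ∨ z = x)) (vec S (mm y z) x)
  else enw S T (vec S (mm y z) T)

/-- bound for the probability of `EvL` -/
noncomputable def Q (T : ℕ) : ℕ → ℕ → ℕ → ℝ
  | 0 => fun _ _ => 1
  | n + 1 => fun x y => ∑ z ∈ range (T + 1), wt S T x y z * Q T n z x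

end Weights

/-- certificate for the growth of `Q` -/
structure PathCert (T : ℕ) (S : Sq) (lam del : ℝ) (q q' c : ℕ → ℝ) (g r y be : ℕ → ℕ → ℝ) :
    Prop where
  lam0 : 0 < lam
  del0 : 0 < del
  q0 : ∀ s, 0 < q s
  q'0 : ∀ s, 0 < q' s
  c0 : ∀ s, 0 ≤ c s
  g0 : ∀ s j, 0 ≤ g s j
  r0 : ∀ s j, 0 ≤ r s j
  y0 : ∀ s j, 0 ≤ y s j
  be0 : ∀ s j, 0 ≤ be s j
  g_init : 1 ≤ g 0 2
  g_step : ∀ s < T, ∀ j ≤ 2, stp S s 2 (g s) j ≤ g (s + 1) j
  r_step : ∀ s < T, ∀ j ≤ 2, stp S s 1 (r s) j + q s * stp S s 2 (g s) j ≤ r (s + 1) j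
  q_ge : ∀ s < T, exw S s 1 false (r s) + q' s * exw S s 2 true (g s) +
    c s * exw S s 2 false (g s) ≤ lam * q s
  q'_ge : ∀ s < T, exw S s 1 true (r s) + q' s * exw S s 2 true (g s) +
    c s * exw S s 2 true (g s) ≤ lam * q' s
  q'_T : enw S T (r T) + q' T * enw S T (g T) ≤ lam * q' T
  y_T : ∀ j ≤ 2, (Nat.choose 2 j : ℝ) * (S.a T) ^ j ≤ y T j
  be_T : ∀ j ≤ 2, q' T * ((Nat.choose 2 j : ℝ) * (S.a T) ^ j) ≤ be T j
  y_step : ∀ t < T, ∀ j ≤ 2, exc S t 0 false j + ∑ i ∈ range (j + 1), y (t + 1) i *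
    (((2 - i).choose (j - i) : ℝ) * (1 - S.p t (0 + j)) * (S.x t) ^ (j - i)) ≤ y t j
  be_step : ∀ t < T, ∀ j ≤ 2, q' t * exc S t 1 true j + c t * exc S t 1 false j +
    ∑ i ∈ range (j + 1), (be (t + 1) i + q t * y (t + 1) i) *
    (((2 - i).choose (j - i) : ℝ) * (1 - S.p t (1 + j)) * (S.x t) ^ (j - i)) ≤ be t j
  c_ge : ∀ s < T, ∑ j ∈ range 3, (g (s + 1) j * be (s + 1) j + r (s + 1) j * y (s + 1) j) +
    lam * del * T ≤ lam * c s

/-! ## Local events -/

open Classical in
/-- The site `c` with the children `D` lives until `t` if the children in `J` live until `t`; the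
children outside `J` are dead at time `t`.  This event does not look at the children in `J`. -/
def Ue {V : Type} {T N : ℕ} (nb : V → Finset V) (P : ℕ → ℕ → ℕ) (c : V) (D : Finset V)
    (m : ℕ → ℕ) (t : ℕ) (J : Finset V) (ω : Lab V T N) : Prop :=
  (∀ s < t, ¬ coin P ω c s (m s + (J.card + cn (D \ J) (al nb P ω s c))) ∧
    ∀ d ∈ D \ J, ¬ jo nb P ω s c d) ∧
  ∀ d ∈ D \ J, ¬ al nb P ω t c d

/-- message: `c` leaves in round `t` without joining -/
def sil {V : Type} {T N : ℕ} (nb : V → Finset V) (P : ℕ → ℕ → ℕ) (ω : Lab V T N) (t : ℕ)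
    (v c : V) : Prop :=
  al nb P ω t v c ∧ ¬ al nb P ω (t + 1) v c ∧ ¬ jo nb P ω t v c

/-- the branches at `c` are disjoint and avoid `c` -/
structure Loc {V : Type} (nb : V → Finset V) (T R : ℕ) (c : V) (D : Finset V) : Prop where
  dis : ∀ d ∈ D, ∀ d' ∈ D, d ≠ d' → Disjoint (Br nb R c d) (Br nb R c d')
  notc : ∀ d ∈ D, c ∉ Br nb R c d
  hR : 3 * T + 3 ≤ R

/-- the labels of the vertices in `A` -/
def lab {V : Type} {T : ℕ} (A : Finset V) : Set (V × Fin T) := {i | i.1 ∈ A}

open Classical in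
/-- the vertices on which the behaviour of the site `c` between `u` and `w` depends -/
noncomputable def Site {V : Type} (nb : V → Finset V) (R : ℕ) (u c w : V) : Finset V :=
  {c} ∪ (ch2 nb u c w).biUnion (fun d => Br nb R c d)

open Classical in
/-- the vertices on which `EvL` depends -/
noncomputable def SL {V : Type} (nb : V → Finset V) (R : ℕ) : List V → Finset V
  | [] => ∅
  | [_] => ∅
  | [_, _] => ∅
  | u :: c :: w :: l => Site nb R u c w ∪ SL nb R (c :: w :: l)

open Classical in
/-- the vertices near the list `l` -/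
noncomputable def NL {V : Type} (nb : V → Finset V) (R : ℕ) (l : List V) : Finset V :=
  l.toFinset.biUnion (fun v => Bl nb R v)

end Pool.Agent.H958R2.GK
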