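import Pool.Agent.H958R2.GK.Stubs

set_option autoImplicit false

/-!
# FIN: assembly
-/

open Finset

namespace Pool.Agent.H958R2.GK

/-- choice of the length of the walks -/
theorem fin_choice (K lam : ℝ) (hl : 0 < lam) (hl3 : lam < 1 / 3) (hK : 0 ≤ K) :
    ∃ L : ℕ, 2 ≤ L ∧ K * (((L : ℝ) + 1) ^ 2 * (lam ^ (L - 1) * 3 ^ L)) ≤ 1 := by
  have hr : |3 * lam| < 1 := by
    rw [abs_of_pos (by linarith)]; linarith
  have ht := tendsto_pow_const_mul_const_pow_of_abs_lt_one 2 hr
  have ht2 : Filter.Tendsto (fun n : ℕ => (K / lam * 4) * ((n : ℝ) ^ 2 * (3 * lam) ^ n))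
      Filter.atTop (nhds 0) := by
    have := ht.const_mul (K / lam * 4)
    rwa [mul_zero] at this
  have hev := (ht2.eventually (ge_mem_nhds (show (0 : ℝ) < 1 by norm_num))).and
    (Filter.eventually_ge_atTop 2)
  obtain ⟨L, hL1, hL2⟩ := hev.exists
  refine ⟨L, hL2, le_trans ?_ hL1⟩
  have hLr : (2 : ℝ) ≤ L := by exact_mod_cast hL2
  have e1 : lam ^ (L - 1) * 3 ^ L = (3 * lam) ^ L / lam := by
    rw [mul_pow, eq_div_iff hl.ne']
    have : lam ^ L = lam ^ (L - 1) * lam := by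
      rw [← pow_succ]; congr 1; omega
    rw [this]; ring
  rw [e1]
  have h2 : ((L : ℝ) + 1) ^ 2 ≤ 4 * (L : ℝ) ^ 2 := by nlinarith
  have h3 : 0 ≤ (3 * lam) ^ L / lam := by positivity
  calc K * (((L : ℝ) + 1) ^ 2 * ((3 * lam) ^ L / lam))
      ≤ K * ((4 * (L : ℝ) ^ 2) * ((3 * lam) ^ L / lam)) := by
        exact mul_le_mul_of_nonneg_left (mul_le_mul_of_nonneg_right h2 h3) hK
    _ = (K / lam * 4) * ((L : ℝ) ^ 2 * (3 * lam) ^ L) := by
        field_simp

theorem fin_proof (hLLL : St_LLL) (hG : St_GIRTH) (hD : St_DEG) (hC : St_COL) (hI : St_IND)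
    (hP : St_PD) (hS : St_SUPPI) (hPr : St_PROB) (hPath : St_PATHPR) (hA : St_ALG)
    (hN : St_NUM) : St_FIN := by
  obtain ⟨T, N, P, S, lam, del, q, q', c, g, r, y, be, hN0, hPN, hSp, hM, hPC, hlam⟩ := hN
  obtain ⟨C, hC0, hQ⟩ := hA T S lam del q q' c g r y be hM hPC
  have hl0 := hPC.lam0
  obtain ⟨L, hL2, hL⟩ := fin_choice
    (4 * ((T + 1 : ℝ) ^ 2 * C) * (5 ^ (3 * T + 3) * (5 ^ (3 * T + 3) * 16))) lam hl0 hlam
    (by positivity)
  refine ⟨2 * (L + 1 + 3 * T + 12) + 1, ?_⟩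
  intro V _ G h4 hg
  classical
  set nb : V → Finset V := fun v => (G.neighborSet v).toFinset with hnb_def
  have hnb : ∀ v w, w ∈ nb v ↔ G.Adj v w := by
    intro v w
    simp [hnb_def]
  have hNb4 : Nb4 nb := by
    refine ⟨?_, ?_, ?_⟩
    · intro v w h
      rw [hnb] at h ⊢
      exact h.symm
    · intro v h
      rw [hnb] at h
      exact G.irrefl h
    · intro v
      have := h4 v
      rw [Set.ncard_eq_toFinset_card'] at this
      exact this
  have hU : Uniq nb (L + 1 + 3 * T + 12) := hG V G nb hnb _ hg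
  have : Nonempty (Fin N) := ⟨⟨0, hN0⟩⟩
  obtain ⟨hPr01, hPrmono, hPror, hPrun, hPrind, hPrind2⟩ := hPr (V × Fin T) (Fin N)
  -- the probability of a bad walk
  have hbad : ∀ l : List V, NBW nb l → l.length = L + 1 →
      Pr (fun ω : Lab V T N => ∀ v ∈ l, ¬ inI nb P ω v) ≤ (T + 1 : ℝ) ^ 2 * C * lam ^ (L - 1) := by
    intro l hl hlen
    have h1 : Pr (fun ω : Lab V T N => ∀ v ∈ l, ¬ inI nb P ω v) ≤
        Pr (fun ω : Lab V T N => ∃ k ∈ (range (T + 1) ×ˢ range (T + 1) : Finset (ℕ × ℕ)),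
          EvL nb P ω l k.1 k.2) := by
      apply hPrmono
      intro ω hω
      obtain ⟨y, hy, x, hx, h⟩ := hP V nb hNb4 T N P ω l hl hω
      exact ⟨(y, x), by simp only [Finset.mem_product, Finset.mem_range]; omega, h⟩
    refine h1.trans ((hPrun (ℕ × ℕ) _ _).trans ?_)
    have h2 : ∀ k ∈ (range (T + 1) ×ˢ range (T + 1) : Finset (ℕ × ℕ)),
        Pr (fun ω : Lab V T N => EvL nb P ω l k.1 k.2) ≤ C * lam ^ (L - 1) := by
      intro k hk
      simp only [Finset.mem_product, Finset.mem_range] at hk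
      refine (hPath V nb hNb4 T N P S hN0 hPN hSp hM l hl (by rw [hlen]; exact hU) k.1 (by omega)
        k.2 (by omega)).trans ?_
      rw [hlen, show L + 1 - 2 = L - 1 by omega]
      exact hQ _ _ (by omega) _ (by omega)
    refine (Finset.sum_le_sum h2).trans ?_
    rw [Finset.sum_const, Finset.card_product, Finset.card_range, nsmul_eq_mul]
    push_cast
    apply le_of_eq; ring
  -- the local lemma
  obtain ⟨ω, hω⟩ := hLLL (V × Fin T) (Fin N) (List.Vector V (L + 1))
    (univ.filter (fun l => NBW nb l.val))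
    (fun l ω => ∀ v ∈ l.val, ¬ inI nb P ω v)
    (fun l => NL nb (3 * T + 3) l.val ×ˢ univ)
    (by
      intro l _ ω ω' h
      apply forall_congr'
      intro v
      apply imp_congr_right
      intro hv
      rw [not_iff_not]
      refine hS V nb T N P v ω ω' ?_
      intro i hi
      apply h
      rw [Finset.mem_coe, Finset.mem_product]
      refine ⟨?_, Finset.mem_univ _⟩
      unfold NL
      rw [Finset.mem_biUnion]
      exact ⟨v, List.mem_toFinset.2 hv, hi⟩)
    ((T + 1 : ℝ) ^ 2 * C * lam ^ (L - 1))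
    ((L + 1) * 5 ^ (3 * T + 3) * (5 ^ (3 * T + 3) * ((L + 1) * 16 * 3 ^ L)))
    (by positivity)
    (by
      intro l hl
      rw [Finset.mem_filter] at hl
      exact hbad l.val hl.2 l.2)
    (by
      intro l hl
      refine le_trans (Finset.card_le_card ?_) (hD V nb hNb4 L (3 * T + 3) l)
      intro l' hl'
      simp only [Finset.mem_filter, Finset.mem_univ, true_and] at hl' ⊢
      refine ⟨hl'.1, fun hdis => hl'.2 ?_⟩
      rw [Finset.disjoint_product]
      exact Or.inl hdis)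
    (by
      push_cast
      refine le_trans (le_of_eq ?_) hL
      ring)
    (by
      have h5 : 0 < 5 ^ (3 * T + 3) := by positivity
      have h3 : 0 < 3 ^ L := by positivity
      have : 0 < (L + 1) * 5 ^ (3 * T + 3) * (5 ^ (3 * T + 3) * ((L + 1) * 16 * 3 ^ L)) := by
        positivity
      omega)
  refine hC V G nb hnb {v | inI nb P ω v} L ?_ ?_
  · intro v hv w hw hadj
    exact hI V nb hNb4 T N P ω v w hv hw ((hnb v w).2 hadj)
  · intro l hl hlen
    have := hω ⟨l, hlen⟩ (Finset.mem_filter.2 ⟨Finset.mem_univ _, hl⟩)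
    simp only [not_forall, not_not] at this
    obtain ⟨v, hv, hvI⟩ := this
    exact ⟨v, hv, hvI⟩

end Pool.Agent.H958R2.GK
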