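import Pool.Agent.H958R2.GK.Struct

set_option autoImplicit false

open Finset

namespace Pool.Agent.H958R2.GK

theorem core_main : St_CORE := by
  have hmsg : St_MSG := msg_proof prob_proof coin_proof suppm_proof disj_proof
    (site_proof prob_proof coin_proof suppm_proof) (gl_proof prob_proof suppm_proof) dd_proof
  have hwpr : St_WPR := wpr_proof prob_proof coin_proof suppm_proof disj_proof
    (site_proof prob_proof coin_proof suppm_proof) (gl_proof prob_proof suppm_proof) dd_proof hmsg
  exact struct_core lll_proof girth_proof (deg_proof count_proof) ind_proof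
    (pd_proof cons_proof) suppi_proof prob_proof
    (pathpr_proof prob_proof suppm_proof disj_proof hwpr) alg_proof num_proof

theorem core4 : ∃ g L : ℕ, L + 2 ≤ g ∧ ∀ (V : Type) [Fintype V] (G : SimpleGraph V),
    (∀ v, (G.neighborSet v).ncard ≤ 4) → (g : ℕ∞) ≤ G.egirth →
    ∃ I : Set V, (∀ v ∈ I, ∀ w ∈ I, ¬ G.Adj v w) ∧
      ∀ (a b : V) (p : G.Walk a b), p.IsPath → p.length = L → ∃ v ∈ p.support, v ∈ I := by
  classical
  obtain ⟨g, L, hgL, h⟩ := core_main
  refine ⟨g, L, hgL, ?_⟩
  intro V _ G hd hG
  have hr : 1 ≤ g + 1 := by omega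
  have : Finite (Pool.Agent.H195.GK.Wd (Pool.Agent.H195.GK.Gen G 4) (g + 1)) := inferInstance
  have : Finite (Pool.Agent.H195.GK.VV G 4 (g + 1)) := inferInstance
  have : Fintype (Pool.Agent.H195.GK.VV G 4 (g + 1)) := Fintype.ofFinite _
  obtain ⟨I, hI1, hI2⟩ := h (Pool.Agent.H195.GK.VV G 4 (g + 1)) (Pool.Agent.H195.GK.RG G 4 (g + 1) hr)
    (Pool.Agent.H195.GK.RG_nbr hr hd) (Pool.Agent.H195.GK.RG_girth hr g hG (by omega))
  let f : G →g Pool.Agent.H195.GK.RG G 4 (g + 1) hr := ⟨fun v => (v, 1), fun h => Or.inl ⟨h, rfl⟩⟩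
  have hf : Function.Injective f := by
    intro v w hvw
    exact congrArg Prod.fst hvw
  refine ⟨{v | f v ∈ I}, ?_, ?_⟩
  · intro v hv w hw hadj
    exact hI1 _ hv _ hw (f.map_adj hadj)
  · intro a b p hp hlen
    obtain ⟨x, hx, hxI⟩ := hI2 _ _ (p.map f) (hp.map hf)
      (by rw [SimpleGraph.Walk.length_map, hlen])
    rw [SimpleGraph.Walk.support_map, List.mem_map] at hx
    obtain ⟨v, hv, rfl⟩ := hx
    exact ⟨v, hv, hxI⟩

theorem ball_card {V : Type} [Fintype V] (G : SimpleGraph V)
    (hd : ∀ v, (G.neighborSet v).ncard ≤ 4) (k : ℕ) : ∀ v : V,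
    {w : V | ∃ p : G.Walk v w, p.length ≤ k}.ncard ≤ 5 ^ k := by
  classical
  induction k with
  | zero =>
    intro v
    have : {w : V | ∃ p : G.Walk v w, p.length ≤ 0} ⊆ {v} := by
      rintro w ⟨p, hp⟩
      cases p with
      | nil => rfl
      | cons h q => simp at hp
    refine (Set.ncard_le_ncard this (Set.toFinite _)).trans ?_
    simp
  | succ k ih =>
    intro v
    have hsub : {w : V | ∃ p : G.Walk v w, p.length ≤ k + 1} ⊆
        ((insert v (G.neighborSet v).toFinset).biUnion
          (fun d => ({w : V | ∃ p : G.Walk d w, p.length ≤ k}).toFinset) : Finset V) := by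
      rintro w ⟨p, hp⟩
      rw [Finset.mem_coe, Finset.mem_biUnion]
      cases p with
      | nil => exact ⟨v, by simp, by simp; exact ⟨.nil, by simp⟩⟩
      | @cons _ d _ h q =>
        refine ⟨d, ?_, ?_⟩
        · rw [Finset.mem_insert]; right; simpa using h
        · rw [Set.mem_toFinset]
          refine ⟨q, ?_⟩
          rw [SimpleGraph.Walk.length_cons] at hp
          omega
    refine (Set.ncard_le_ncard hsub (Set.toFinite _)).trans ?_
    rw [Set.ncard_coe_finset]
    refine (Finset.card_biUnion_le_card_mul _ _ (5 ^ k) ?_).trans ?_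
    · intro d _
      have := ih d
      rwa [Set.ncard_eq_toFinset_card'] at this
    · have h1 := Finset.card_insert_le v (G.neighborSet v).toFinset
      have h2 := hd v
      rw [Set.ncard_eq_toFinset_card'] at h2
      calc _ ≤ 5 * 5 ^ k := Nat.mul_le_mul_right _ (by omega)
        _ = 5 ^ (k + 1) := by ring

/-- **Structure theorem.** There are `g` and `K` such that the vertex set of every finite graph of
maximum degree at most `4` and girth at least `g` splits into an independent set and a set that
induces a forest all of whose components have at most `K` vertices.  In particular its chromatic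
number is at most `3`. -/
theorem forest4 : ∃ g K : ℕ, ∀ (V : Type) [Fintype V] (G : SimpleGraph V),
    (∀ v, (G.neighborSet v).ncard ≤ 4) → (g : ℕ∞) ≤ G.egirth →
    (∃ I : Set V, (∀ v ∈ I, ∀ w ∈ I, ¬ G.Adj v w) ∧ (G.induce (Iᶜ : Set V)).IsAcyclic ∧
      ∀ c : (G.induce (Iᶜ : Set V)).ConnectedComponent, c.supp.ncard ≤ K) ∧
    G.chromaticNumber ≤ 3 := by
  classical
  obtain ⟨g, L, hgL, h⟩ := core4
  refine ⟨g, 5 ^ L, ?_⟩
  intro V _ G hd hG
  obtain ⟨I, hI1, hI2⟩ := h V G hd hG
  let ι : G.induce (Iᶜ : Set V) →g G := ⟨fun v => v.1, fun h => h⟩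
  have hι : Function.Injective ι := Subtype.val_injective
  -- no long path outside of `I`
  have hpath : ∀ (a b : (Iᶜ : Set V)) (p : (G.induce (Iᶜ : Set V)).Walk a b), p.IsPath →
      p.length < L := by
    intro a b p hp
    by_contra hcon
    push Not at hcon
    obtain ⟨x, hx, hxI⟩ := hI2 _ _ ((p.take L).map ι)
      ((hp.take L).map hι)
      (by rw [SimpleGraph.Walk.length_map, SimpleGraph.Walk.take_length]; omega)
    rw [SimpleGraph.Walk.support_map, List.mem_map] at hx
    obtain ⟨v, hv, rfl⟩ := hx
    exact v.2 hxI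
  have hac : (G.induce (Iᶜ : Set V)).IsAcyclic := by
    intro v c hc
    have hc2 : (c.map ι).IsCycle := hc.map hι
    have h1 := (SimpleGraph.le_egirth.mp hG) _ _ hc2
    rw [SimpleGraph.Walk.length_map] at h1
    have h1 : g ≤ c.length := by exact_mod_cast h1
    cases c with
    | nil => exact absurd hc (by simp)
    | cons hadj q =>
      rw [SimpleGraph.Walk.cons_isCycle_iff] at hc
      have := hpath _ _ q hc.1
      rw [SimpleGraph.Walk.length_cons] at h1
      omega
  refine ⟨⟨I, hI1, hac, ?_⟩, ?_⟩
  · intro c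
    induction c using SimpleGraph.ConnectedComponent.ind with
    | h v =>
      have hsub : (fun w : (Iᶜ : Set V) => w.1) ''
          ((G.induce (Iᶜ : Set V)).connectedComponentMk v).supp ⊆
          {w : V | ∃ p : G.Walk v.1 w, p.length ≤ L} := by
        rintro _ ⟨w, hw, rfl⟩
        rw [SimpleGraph.ConnectedComponent.mem_supp_iff, SimpleGraph.ConnectedComponent.eq] at hw
        obtain ⟨p, hp⟩ := hw.symm.exists_isPath
        have := hpath _ _ p hp
        exact ⟨p.map ι, by rw [SimpleGraph.Walk.length_map]; omega⟩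
      have h1 := Set.ncard_le_ncard hsub (Set.toFinite _)
      rw [Set.ncard_image_of_injective _ Subtype.val_injective] at h1
      exact h1.trans (ball_card G hd L v.1)
  · obtain ⟨C⟩ : (G.induce (Iᶜ : Set V)).Colorable 2 := hac.isBipartite
    have : G.Colorable 3 := by
      refine ⟨SimpleGraph.Coloring.mk (fun v => if h : v ∈ I then (2 : Fin 3) else
        (C ⟨v, h⟩).castSucc) ?_⟩
      intro v w hvw
      by_cases hv : v ∈ I
      · have hw : w ∉ I := fun hw => hI1 v hv w hw hvw
        simp only [hv, hw, dif_pos, dif_neg, not_false_eq_true]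
        intro h
        have h2 := congrArg Fin.val h
        have h3 := (C ⟨w, hw⟩).isLt
        simp at h2
        omega
      · by_cases hw : w ∈ I
        · simp only [hv, hw, dif_pos, dif_neg, not_false_eq_true]
          intro h
          have h2 := congrArg Fin.val h
          have h3 := (C ⟨v, hv⟩).isLt
          simp at h2
          omega
        · simp only [hv, hw, dif_neg, not_false_eq_true]
          intro h
          have h2 : C ⟨v, hv⟩ = C ⟨w, hw⟩ := Fin.castSucc_injective 2 h
          exact C.valid (show (G.induce (Iᶜ : Set V)).Adj ⟨v, hv⟩ ⟨w, hw⟩ from hvw) h2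
    exact_mod_cast this.chromaticNumber_le

end Pool.Agent.H958R2.GK
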