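import Pool.Agent.H958R2.GK.Stubs

set_option autoImplicit false

/-! TASK GIRTH of project GK (helper958); proof by helper439. -/

open Finset

namespace Pool.Agent.H958R2.GK

/-- the edges of a list of vertices -/
def girthEs {V : Type} : List V → List (Sym2 V)
  | [] => []
  | [_] => []
  | a :: b :: l => s(a, b) :: girthEs (b :: l)

theorem girthEs_length {V : Type} : ∀ l : List V, (girthEs l).length = l.length - 1
  | [] => rfl
  | [_] => rfl
  | a :: b :: l => by
    rw [girthEs, List.length_cons, girthEs_length (b :: l)]
    simp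

theorem girth_chain {V : Type} {nb : V → Finset V} {G : SimpleGraph V}
    (h : ∀ v w, w ∈ nb v ↔ G.Adj v w) (S : Set (Sym2 V)) :
    ∀ l : List V, NBW nb l → (∀ e ∈ girthEs l, e ∈ S) →
      l.IsChain (SimpleGraph.fromEdgeSet S).Adj
  | [], _, _ => List.IsChain.nil
  | [_], _, _ => List.IsChain.singleton _
  | [a, b], hl, hS => by
    have hab : G.Adj a b := (h a b).1 hl
    refine List.IsChain.cons_cons ?_ (List.IsChain.singleton _)
    rw [SimpleGraph.fromEdgeSet_adj]
    exact ⟨hS _ (by simp [girthEs]), hab.ne⟩
  | a :: b :: c :: l, hl, hS => by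
    have hab : G.Adj a b := (h a b).1 hl.1
    refine List.IsChain.cons_cons ?_ (girth_chain h S (b :: c :: l) hl.2.2 (fun e he => hS e ?_))
    · rw [SimpleGraph.fromEdgeSet_adj]
      exact ⟨hS _ (by simp [girthEs]), hab.ne⟩
    · rw [girthEs]
      exact List.mem_cons_of_mem _ he

theorem girth_es_chain {V : Type} {nb : V → Finset V} :
    ∀ l : List V, NBW nb l → (girthEs l).IsChain (· ≠ ·)
  | [], _ => List.IsChain.nil
  | [_], _ => List.IsChain.nil
  | [a, b], _ => List.IsChain.singleton _
  | a :: b :: c :: l, hl => by
    have ih := girth_es_chain (b :: c :: l) hl.2.2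
    rw [girthEs, girthEs]
    rw [girthEs] at ih
    refine List.IsChain.cons_cons ?_ ih
    intro he
    rw [Sym2.eq_iff] at he
    rcases he with ⟨h1, h2⟩ | ⟨h1, _⟩
    · exact hl.2.1 (h1.trans h2)
    · exact hl.2.1 h1

theorem girth_edges {V : Type} {H : SimpleGraph V} :
    ∀ (l : List V) (hne : l ≠ []) (hc : l.IsChain H.Adj),
      (SimpleGraph.Walk.ofSupport l hne hc).edges = girthEs l
  | [], hne, _ => absurd rfl hne
  | [a], _, _ => rfl
  | a :: b :: l, hne, hc =>
    congrArg (List.cons s(a, b)) (girth_edges (b :: l) (List.cons_ne_nil _ _) hc.of_cons)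

theorem girth_proof : St_GIRTH := by
  classical
  intro V _ G nb h M hM l l' hl hl' hlen hlen' hhead hlast
  rcases eq_or_ne l [] with rfl | hne
  · cases l' with
    | nil => rfl
    | cons a l' => simp at hhead
  have hne' : l' ≠ [] := by
    rintro rfl
    cases l with
    | nil => exact hne rfl
    | cons a l => simp at hhead
  set S : Set (Sym2 V) := {e | e ∈ girthEs l ++ girthEs l'} with hS
  set H := SimpleGraph.fromEdgeSet S with hH
  have hc := girth_chain h S l hl (fun e he => List.mem_append_left _ he)
  have hc' := girth_chain h S l' hl' (fun e he => List.mem_append_right _ he)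
  -- the edges are edges of `G`
  have hmem : ∀ l : List V, NBW nb l → ∀ e ∈ girthEs l, e ∈ G.edgeSet := by
    intro l
    induction l using girthEs.induct with
    | case1 => intro _ e he; simp [girthEs] at he
    | case2 a => intro _ e he; simp [girthEs] at he
    | case3 a b l ih =>
      intro hl e he
      rw [girthEs, List.mem_cons] at he
      cases l with
      | nil =>
        rcases he with rfl | he
        · exact (h a b).1 hl
        · simp [girthEs] at he
      | cons c l =>
        rcases he with rfl | he
        · exact (h a b).1 hl.1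
        · exact ih hl.2.2 e he
  have hle : H ≤ G := by
    intro a b hab
    rw [hH, SimpleGraph.fromEdgeSet_adj] at hab
    rcases List.mem_append.1 hab.1 with h1 | h1
    · exact hmem l hl _ h1
    · exact hmem l' hl' _ h1
  have hacyc : H.IsAcyclic := by
    intro a w hw
    have h1 := SimpleGraph.egirth_le_length ((SimpleGraph.Walk.isCycle_mapLe hle).2 hw)
    have h2 := hM.trans h1
    rw [Nat.cast_le, SimpleGraph.Walk.length_mapLe] at h2
    have h3 : w.edges ⊆ girthEs l ++ girthEs l' := by
      intro e he
      have h4 := w.edges_subset_edgeSet he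
      rw [hH, SimpleGraph.edgeSet_fromEdgeSet] at h4
      exact h4.1
    have h5 := (hw.edges_nodup).length_le_of_subset h3
    rw [SimpleGraph.Walk.length_edges, List.length_append, girthEs_length, girthEs_length] at h5
    omega
  set p := SimpleGraph.Walk.ofSupport l hne hc with hp
  set p' := SimpleGraph.Walk.ofSupport l' hne' hc' with hp'
  have hpp : p.IsPath := by
    rw [hacyc.isPath_iff_isChain, hp, girth_edges]
    exact girth_es_chain l hl
  have hpp' : p'.IsPath := by
    rw [hacyc.isPath_iff_isChain, hp', girth_edges]
    exact girth_es_chain l' hl'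
  have e1 : l'.head hne' = l.head hne := by
    rw [List.head?_eq_some_head hne, List.head?_eq_some_head hne'] at hhead
    exact (Option.some.inj hhead).symm
  have e2 : l'.getLast hne' = l.getLast hne := by
    rw [List.getLast?_eq_some_getLast hne, List.getLast?_eq_some_getLast hne'] at hlast
    exact (Option.some.inj hlast).symm
  have h6 : (p'.copy e1 e2).IsPath := (SimpleGraph.Walk.isPath_copy _ _ _).2 hpp'
  have h7 := (hacyc.subsingleton_path _ _).elim ⟨p, hpp⟩ ⟨p'.copy e1 e2, h6⟩
  have h8 : p = p'.copy e1 e2 := congrArg Subtype.val h7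
  have h9 := congrArg SimpleGraph.Walk.support h8
  rw [SimpleGraph.Walk.support_copy, hp, hp', SimpleGraph.Walk.support_ofSupport,
    SimpleGraph.Walk.support_ofSupport] at h9
  exact h9

end Pool.Agent.H958R2.GK
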