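import Pool.Agent.H958R2.GK.DD

set_option autoImplicit false

/-!
# Task GL: sums over the set of living children
-/

open Finset

namespace Pool.Agent.H958R2.GK

/-! ## Supports -/

theorem gl_dep_mono {ι C : Type} {E : (ι → C) → Prop} {S S' : Set ι} (h : Dep E S)
    (hS : S ⊆ S') : Dep E S' := fun ω ω' hw => h ω ω' (fun i hi => hw i (hS hi))

theorem gl_dep_and {ι C : Type} {E F : (ι → C) → Prop} {S : Set ι} (hE : Dep E S)
    (hF : Dep F S) : Dep (fun ω => E ω ∧ F ω) S := fun ω ω' hw =>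
  and_congr (hE ω ω' hw) (hF ω ω' hw)

theorem gl_dep_not {ι C : Type} {E : (ι → C) → Prop} {S : Set ι} (hE : Dep E S) :
    Dep (fun ω => ¬ E ω) S := fun ω ω' hw => not_congr (hE ω ω' hw)

theorem gl_dep_all {ι C κ : Type} {A : Finset κ} {E : κ → (ι → C) → Prop} {S : Set ι}
    (hE : ∀ k ∈ A, Dep (E k) S) : Dep (fun ω => ∀ k ∈ A, E k ω) S := fun ω ω' hw => by
  constructor
  · intro h k hk
    exact (hE k hk ω ω' hw).1 (h k hk)
  · intro h k hk
    exact (hE k hk ω ω' hw).2 (h k hk)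

theorem gl_coin_congr {V : Type} {T N : ℕ} (P : ℕ → ℕ → ℕ) (ω ω' : Lab V T N) (v : V) (t k : ℕ)
    (h : ∀ i : V × Fin T, i.1 = v → i.2.val = t → ω i = ω' i) :
    coin P ω v t k ↔ coin P ω' v t k := by
  unfold coin
  constructor
  · rintro ⟨ht, h1⟩
    refine ⟨ht, ?_⟩
    rw [← h (v, ⟨t, ht⟩) rfl rfl]
    exact h1
  · rintro ⟨ht, h1⟩
    refine ⟨ht, ?_⟩
    rw [h (v, ⟨t, ht⟩) rfl rfl]
    exact h1

theorem gl_cn_congr {V : Type} (D : Finset V) (R1 R2 : V → Prop) (h : ∀ d ∈ D, (R1 d ↔ R2 d)) :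
    cn D R1 = cn D R2 := by
  classical
  unfold cn
  congr 1
  ext d
  simp only [mem_filter]
  constructor
  · rintro ⟨h1, h2⟩
    exact ⟨h1, (h d h1).1 h2⟩
  · rintro ⟨h1, h2⟩
    exact ⟨h1, (h d h1).2 h2⟩

open Classical in
/-- the labels on which `Ue` depends. -/
def glU {V : Type} {T : ℕ} (nb : V → Finset V) (R : ℕ) (c : V) (D : Finset V) (t : ℕ)
    (J : Finset V) : Set (V × Fin T) :=
  {i | (i.1 = c ∧ i.2.val < t) ∨ ∃ d ∈ D \ J, i.1 ∈ Br nb R c d}

open Classical in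
/-- the labels on which the coin of round `t` and the branches of `A` depend. -/
def glA {V : Type} {T : ℕ} (nb : V → Finset V) (R : ℕ) (c : V) (t : ℕ)
    (A : Finset V) : Set (V × Fin T) :=
  {i | (i.1 = c ∧ i.2.val = t) ∨ ∃ d ∈ A, i.1 ∈ Br nb R c d}

theorem gl_dep_Ue (h3 : St_SUPPM) {V : Type} [Fintype V] (nb : V → Finset V) {T N : ℕ}
    (P : ℕ → ℕ → ℕ) {R : ℕ} {c : V} {D : Finset V} (hL : Loc nb T R c D) (m : ℕ → ℕ) {t : ℕ}
    (ht : t ≤ T) (J : Finset V) :
    Dep (fun ω : Lab V T N => Ue nb P c D m t J ω) (glU nb R c D t J) := by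
  classical
  intro ω ω' hw
  have hR := hL.hR
  have hal : ∀ s ≤ t, ∀ d ∈ D \ J, (al nb P ω s c d ↔ al nb P ω' s c d) := by
    intro s hs d hd
    refine (h3 V nb T N P R s c d).1 (by omega) ω ω' (fun i hi => hw i (Or.inr ⟨d, ?_, hi⟩))
    exact hd
  have hjo : ∀ s < t, ∀ d ∈ D \ J, (jo nb P ω s c d ↔ jo nb P ω' s c d) := by
    intro s hs d hd
    refine (h3 V nb T N P R s c d).2.2 (by omega) ω ω' (fun i hi => hw i (Or.inr ⟨d, ?_, hi⟩))
    exact hd
  have hcn : ∀ s ≤ t, cn (D \ J) (al nb P ω s c) = cn (D \ J) (al nb P ω' s c) := by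
    intro s hs
    exact gl_cn_congr _ _ _ (hal s hs)
  have hcoin : ∀ s < t, ∀ k, (coin P ω c s k ↔ coin P ω' c s k) := by
    intro s hs k
    apply gl_coin_congr
    intro i h1 h2
    exact hw i (Or.inl ⟨h1, by omega⟩)
  simp only [Ue]
  constructor
  · rintro ⟨h1, h2⟩
    refine ⟨fun s hs => ⟨?_, ?_⟩, ?_⟩
    · have := (h1 s hs).1
      rw [hcoin s hs, hcn s hs.le] at this
      exact this
    · intro d hd h
      exact (h1 s hs).2 d hd ((hjo s hs d hd).2 h)
    · intro d hd h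
      exact h2 d hd ((hal t le_rfl d hd).2 h)
  · rintro ⟨h1, h2⟩
    refine ⟨fun s hs => ⟨?_, ?_⟩, ?_⟩
    · have := (h1 s hs).1
      rw [← hcoin s hs, ← hcn s hs.le] at this
      exact this
    · intro d hd h
      exact (h1 s hs).2 d hd ((hjo s hs d hd).1 h)
    · intro d hd h
      exact h2 d hd ((hal t le_rfl d hd).1 h)

theorem gl_disj {V : Type} (nb : V → Finset V) {T : ℕ} {R : ℕ} {c : V} {D : Finset V}
    (hL : Loc nb T R c D) (t : ℕ) (J A : Finset V) (hJ : J ⊆ D) (hA : A ⊆ J) :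
    Disjoint (glU (T := T) nb R c D t J) (glA (T := T) nb R c t A) := by
  classical
  rw [Set.disjoint_left]
  rintro i (⟨h1, h2⟩ | ⟨d, hd, h2⟩) (⟨h3, h4⟩ | ⟨d', hd', h4⟩)
  · omega
  · rw [h1] at h4
    exact hL.notc d' (hJ (hA hd')) h4
  · rw [h3] at h2
    have hdD : d ∈ D := (mem_sdiff.1 hd).1
    exact hL.notc d hdD h2
  · have hdD : d ∈ D := (mem_sdiff.1 hd).1
    have hne : d ≠ d' := by
      rintro rfl
      exact (mem_sdiff.1 hd).2 (hA hd')
    exact Finset.disjoint_left.1 (hL.dis d hdD d' (hJ (hA hd')) hne) h2 h4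

/-- independence of the past of `c`, the coin of `c` and the living children. -/
theorem gl_indep (h1 : St_PROB) (h3 : St_SUPPM) {V : Type} [Fintype V] (nb : V → Finset V)
    {T N : ℕ} (P : ℕ → ℕ → ℕ) (hN : 0 < N) {R : ℕ} {c : V} {D : Finset V}
    (hL : Loc nb T R c D) (m : ℕ → ℕ) {t : ℕ} (ht : t ≤ T) (J A : Finset V) (hJ : J ⊆ D)
    (hA : A ⊆ J) (K : Lab V T N → Prop) (hK : Dep K {i | i.1 = c ∧ i.2.val = t})
    (Z : V → Lab V T N → Prop) (hZ : ∀ d ∈ A, Dep (Z d) (lab (Br nb R c d))) :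
    Pr (fun ω : Lab V T N => Ue nb P c D m t J ω ∧ (K ω ∧ ∀ d ∈ A, Z d ω)) =
      Pr (fun ω : Lab V T N => Ue nb P c D m t J ω) * (Pr K * ∏ d ∈ A, Pr (Z d)) := by
  classical
  have : Nonempty (Fin N) := ⟨⟨0, hN⟩⟩
  obtain ⟨-, -, -, -, hind, hindp⟩ := h1 (V × Fin T) (Fin N)
  have e1 : Dep K (glA (T := T) nb R c t A) := gl_dep_mono hK (fun i hi => Or.inl hi)
  have e2 : Dep (fun ω : Lab V T N => ∀ d ∈ A, Z d ω) (glA (T := T) nb R c t A) :=
    gl_dep_all (fun d hd => gl_dep_mono (hZ d hd) (fun i hi => Or.inr ⟨d, hd, hi⟩))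
  rw [hind _ _ _ _ (gl_dep_Ue h3 nb P hL m ht J) (gl_dep_and e1 e2)
    (gl_disj nb hL t J A hJ hA)]
  congr 1
  have e3 : Dep (fun ω : Lab V T N => ∀ d ∈ A, Z d ω)
      {i : V × Fin T | ∃ d ∈ A, i.1 ∈ Br nb R c d} :=
    gl_dep_all (fun d hd => gl_dep_mono (hZ d hd) (fun i hi => ⟨d, hd, hi⟩))
  rw [hind K _ _ _ hK e3 ?_]
  · congr 1
    refine hindp V A Z (fun d => lab (Br nb R c d)) hZ ?_
    intro d hd d' hd' hne
    rw [Set.disjoint_left]
    intro i hi hi'
    exact Finset.disjoint_left.1 (hL.dis d (hJ (hA hd)) d' (hJ (hA hd')) hne) hi hi'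
  · rw [Set.disjoint_left]
    rintro i ⟨h4, h5⟩ ⟨d, hd, h6⟩
    rw [h4] at h6
    exact hL.notc d (hJ (hA hd)) h6

theorem gl_le (h1 : St_PROB) (h3 : St_SUPPM) {V : Type} [Fintype V] (nb : V → Finset V)
    {T N : ℕ} (P : ℕ → ℕ → ℕ) (hN : 0 < N) {R : ℕ} {c : V} {D : Finset V}
    (hL : Loc nb T R c D) (m : ℕ → ℕ) {t : ℕ} (ht : t ≤ T) (J A : Finset V) (hJ : J ⊆ D)
    (hA : A ⊆ J) (K : Lab V T N → Prop) (hK : Dep K {i | i.1 = c ∧ i.2.val = t})
    (Z : V → Lab V T N → Prop) (hZ : ∀ d ∈ A, Dep (Z d) (lab (Br nb R c d)))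
    (u k : ℝ) (z : V → ℝ) (hu : Pr (fun ω : Lab V T N => Ue nb P c D m t J ω) ≤ u)
    (hk : Pr K ≤ k) (hz : ∀ d ∈ A, Pr (Z d) ≤ z d) :
    Pr (fun ω : Lab V T N => Ue nb P c D m t J ω ∧ (K ω ∧ ∀ d ∈ A, Z d ω)) ≤
      u * (k * ∏ d ∈ A, z d) := by
  classical
  have : Nonempty (Fin N) := ⟨⟨0, hN⟩⟩
  obtain ⟨h01, -, -, -, -, -⟩ := h1 (V × Fin T) (Fin N)
  rw [gl_indep h1 h3 nb P hN hL m ht J A hJ hA K hK Z hZ]
  have hu0 : 0 ≤ u := (h01 _).1.trans hu
  have hk0 : 0 ≤ k := (h01 _).1.trans hk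
  have hp : ∏ d ∈ A, Pr (Z d) ≤ ∏ d ∈ A, z d :=
    Finset.prod_le_prod (fun d _ => (h01 _).1) hz
  have hp0 : 0 ≤ ∏ d ∈ A, Pr (Z d) := Finset.prod_nonneg (fun d _ => (h01 _).1)
  have h5 : Pr K * ∏ d ∈ A, Pr (Z d) ≤ k * ∏ d ∈ A, z d := mul_le_mul hk hp hp0 hk0
  exact mul_le_mul hu h5 (mul_nonneg (h01 _).1 hp0) hu0

open Classical in
theorem gl_proof (h1 : St_PROB) (h3 : St_SUPPM) : St_GL := by
  intro V _ nb T N P hN R c D hL m t v ht hv hU K κ hκ hKd hK X Y α β hα hβ hXd hYd hX hY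
  have : Nonempty (Fin N) := ⟨⟨0, hN⟩⟩
  obtain ⟨h01, hmono, -, hunion, -, -⟩ := h1 (V × Fin T) (Fin N)
  refine ⟨?_, ?_⟩
  · have e1 : Pr (fun ω : Lab V T N => ∃ J ⊆ D, Ue nb P c D m t J ω ∧ K J.card ω ∧
        ∀ d ∈ J, Y d ω) ≤ Pr (fun ω : Lab V T N => ∃ J ∈ D.powerset, Ue nb P c D m t J ω ∧
        (K J.card ω ∧ ∀ d ∈ J, Y d ω)) := by
      apply hmono
      rintro ω ⟨J, hJ, h⟩
      exact ⟨J, mem_powerset.2 hJ, h⟩
    refine e1.trans ((hunion (Finset V) D.powerset (fun J ω => Ue nb P c D m t J ω ∧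
        (K J.card ω ∧ ∀ d ∈ J, Y d ω))).trans ?_)
    have e2 : ∀ J ∈ D.powerset, Pr (fun ω : Lab V T N => Ue nb P c D m t J ω ∧
        (K J.card ω ∧ ∀ d ∈ J, Y d ω)) ≤ v J.card * (κ J.card * β ^ J.card) := by
      intro J hJ
      have hJ' := mem_powerset.1 hJ
      have := gl_le h1 h3 nb P hN hL m ht J J hJ' (Finset.Subset.refl _) (K J.card)
        (hKd J.card) Y (fun d hd => hYd d (hJ' hd)) (v J.card) (κ J.card) (fun _ => β)
        (hU J hJ') (hK _) (fun d hd => hY d (hJ' hd))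
      rwa [prod_const] at this
    refine (sum_le_sum e2).trans ?_
    rw [sum_powerset_apply_card (fun j => v j * (κ j * β ^ j))]
    apply le_of_eq
    apply sum_congr rfl
    intro j _
    rw [nsmul_eq_mul]
    ring
  · have e1 : Pr (fun ω : Lab V T N => ∃ J ⊆ D, Ue nb P c D m t J ω ∧ K J.card ω ∧
        ∃ B ⊆ J, B.Nonempty ∧ (∀ d ∈ B, X d ω) ∧ ∀ d ∈ J \ B, Y d ω) ≤
        Pr (fun ω : Lab V T N => ∃ J ∈ D.powerset, ∃ B ∈ J.powerset.filter (fun B => B.Nonempty),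
          Ue nb P c D m t J ω ∧ (K J.card ω ∧ ∀ d ∈ J, ((d ∈ B → X d ω) ∧ (d ∉ B → Y d ω)))) := by
      apply hmono
      rintro ω ⟨J, hJ, hu, hk, B, hB, hne, hx, hy⟩
      refine ⟨J, mem_powerset.2 hJ, B, mem_filter.2 ⟨mem_powerset.2 hB, hne⟩, hu, hk, ?_⟩
      intro d hd
      exact ⟨fun hdB => hx d hdB, fun hdB => hy d (mem_sdiff.2 ⟨hd, hdB⟩)⟩
    refine e1.trans ?_
    clear e1
    have e1b := hunion (Finset V) D.powerset (fun J (ω : Lab V T N) =>
      ∃ B ∈ J.powerset.filter (fun B => B.Nonempty),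
          Ue nb P c D m t J ω ∧ (K J.card ω ∧ ∀ d ∈ J, ((d ∈ B → X d ω) ∧ (d ∉ B → Y d ω))))
    refine e1b.trans ?_
    clear e1b
    have e2 : ∀ J ∈ D.powerset, Pr (fun ω : Lab V T N =>
        ∃ B ∈ J.powerset.filter (fun B => B.Nonempty), Ue nb P c D m t J ω ∧
          (K J.card ω ∧ ∀ d ∈ J, ((d ∈ B → X d ω) ∧ (d ∉ B → Y d ω)))) ≤
        v J.card * (κ J.card * ((α + β) ^ J.card - β ^ J.card)) := by
      intro J hJ
      have hJ' := mem_powerset.1 hJ
      refine (hunion (Finset V) (J.powerset.filter (fun B => B.Nonempty)) (fun B ω =>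
        Ue nb P c D m t J ω ∧ (K J.card ω ∧
          ∀ d ∈ J, ((d ∈ B → X d ω) ∧ (d ∉ B → Y d ω))))).trans ?_
      have e3 : ∀ B ∈ J.powerset.filter (fun B => B.Nonempty), Pr (fun ω : Lab V T N =>
          Ue nb P c D m t J ω ∧ (K J.card ω ∧ ∀ d ∈ J, ((d ∈ B → X d ω) ∧ (d ∉ B → Y d ω)))) ≤
          v J.card * (κ J.card * (α ^ B.card * β ^ (J.card - B.card))) := by
        intro B hB
        have hBJ : B ⊆ J := mem_powerset.1 (mem_filter.1 hB).1
        have hZd : ∀ d ∈ J, Dep (fun ω : Lab V T N => (d ∈ B → X d ω) ∧ (d ∉ B → Y d ω))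
            (lab (Br nb R c d)) := by
          intro d hd
          by_cases hdB : d ∈ B
          · intro ω ω' hw
            have := hXd d (hJ' hd) ω ω' hw
            simp only [hdB, not_true_eq_false, true_implies, false_implies, and_true]
            exact this
          · intro ω ω' hw
            have := hYd d (hJ' hd) ω ω' hw
            simp only [hdB, not_false_eq_true, true_implies, false_implies, true_and]
            exact this
        have hZl : ∀ d ∈ J, Pr (fun ω : Lab V T N => (d ∈ B → X d ω) ∧ (d ∉ B → Y d ω)) ≤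
            (if d ∈ B then α else β) := by
          intro d hd
          by_cases hdB : d ∈ B
          · rw [if_pos hdB]
            exact (hmono _ _ (fun ω h => h.1 hdB)).trans (hX d (hJ' hd))
          · rw [if_neg hdB]
            exact (hmono _ _ (fun ω h => h.2 hdB)).trans (hY d (hJ' hd))
        have := gl_le h1 h3 nb P hN hL m ht J J hJ' (Finset.Subset.refl _) (K J.card)
          (hKd J.card) (fun d ω => (d ∈ B → X d ω) ∧ (d ∉ B → Y d ω)) hZd (v J.card) (κ J.card)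
          (fun d => if d ∈ B then α else β) (hU J hJ') (hK _) hZl
        have e4 : ∏ d ∈ J, (if d ∈ B then α else β) = α ^ B.card * β ^ (J.card - B.card) := by
          rw [prod_ite, prod_const, prod_const]
          have e5 : J.filter (fun d => d ∈ B) = B := by
            ext d
            simp only [mem_filter]
            exact ⟨fun h => h.2, fun h => ⟨hBJ h, h⟩⟩
          have e6 : J.filter (fun d => ¬ d ∈ B) = J \ B := by
            ext d
            simp only [mem_filter, mem_sdiff]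
          rw [e5, e6, card_sdiff_of_subset hBJ]
        rw [e4] at this
        exact this
      refine (sum_le_sum e3).trans (le_of_eq ?_)
      rw [← mul_sum, ← mul_sum]
      congr 2
      have e7 := sum_pow_mul_eq_add_pow α β J
      have e8 : J.powerset = insert ∅ (J.powerset.filter (fun B => B.Nonempty)) := by
        ext B
        simp only [mem_insert, mem_filter, mem_powerset]
        constructor
        · intro h
          rcases B.eq_empty_or_nonempty with h' | h'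
          · exact Or.inl h'
          · exact Or.inr ⟨h, h'⟩
        · rintro (h | h)
          · rw [h]
            exact empty_subset _
          · exact h.1
      rw [e8, sum_insert (by simp)] at e7
      rw [← e7]
      simp
    refine (sum_le_sum e2).trans ?_
    rw [sum_powerset_apply_card (fun j => v j * (κ j * ((α + β) ^ j - β ^ j)))]
    apply le_of_eq
    apply sum_congr rfl
    intro j _
    rw [nsmul_eq_mul]
    ring

end Pool.Agent.H958R2.GK
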