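import Pool.Agent.H958R2.GK.Stubs

set_option autoImplicit false

open Finset

namespace Pool.Agent.H958R2.GK

theorem ind_lv_mono {V : Type} {T N : ℕ} (nb : V → Finset V) (P : ℕ → ℕ → ℕ) (ω : Lab V T N)
    (v : V) {s t : ℕ} (hst : s ≤ t) (h : lv nb P ω t v) : lv nb P ω s v := by
  induction t with
  | zero =>
    obtain rfl : s = 0 := by omega
    exact h
  | succ t ih =>
    rcases Nat.lt_or_ge s (t + 1) with hlt | hge
    · exact ih (by omega) h.1
    · obtain rfl : s = t + 1 := by omega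
      exact h

theorem ind_aux {V : Type} {T N : ℕ} (nb : V → Finset V) (P : ℕ → ℕ → ℕ) (ω : Lab V T N)
    {v w : V} {s t : ℕ} (hst : s < t) (hvw : v ∈ nb w) (hs : jn nb P ω s (lv nb P ω s) v)
    (ht : jn nb P ω t (lv nb P ω t) w) : False := by
  have h1 : lv nb P ω t w := ht.1.1
  have h2 : lv nb P ω (s + 1) w := ind_lv_mono nb P ω w hst h1
  exact h2.2.2 v hvw hs

theorem ind_proof : St_IND := by
  intro V _ nb hnb T N P ω v w ⟨s, hs⟩ ⟨t, ht⟩ hw
  have hv : v ∈ nb w := hnb.symm v w hw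
  rcases lt_trichotomy s t with h | h | h
  · exact ind_aux nb P ω h hv hs ht
  · subst h
    exact hs.2 w hw ht.1
  · exact ind_aux nb P ω h hw ht hs

end Pool.Agent.H958R2.GK
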