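import Pool.Agent.H958R2.GK.Stubs
import Pool.Agent.Helper805.CHS.Colour

set_option autoImplicit false

/-! # The symmetric local lemma -/

open Finset

namespace Pool.Agent.H958R2.GK

theorem lll_proof : St_LLL := by
  intro ι C J _ _ _ I B S hdep p d hp0 hp hd h4 hd1
  classical
  have e1 : ∀ i ∈ I, (Pool.Agent.Helper805.CHS.LLL.cnt (B i) : ℝ) ≤
      p * Fintype.card (ι → C) := by
    intro j hj
    have h1 := hp j hj
    unfold Pr at h1
    have h2 : (0 : ℝ) < (Nat.card (ι → C) : ℝ) := by
      rw [Nat.card_eq_fintype_card]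
      exact_mod_cast Fintype.card_pos
    rw [div_le_iff₀ h2, Nat.card_eq_fintype_card, Nat.card_eq_fintype_card] at h1
    refine le_trans (le_of_eq ?_) h1
    unfold Pool.Agent.Helper805.CHS.LLL.cnt Pool.Agent.Helper805.CHS.LLL.ev
    rw [Fintype.card_subtype]
  refine Pool.Agent.Helper805.CHS.LLL.lll I B S
    (fun j hj ω ω' h => (hdep j hj ω ω' h).1) p d hp0 e1 (fun j hj => ?_) h4 hd1
    Fintype.card_pos
  have h1 := hd j hj
  convert h1

end Pool.Agent.H958R2.GK
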