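import Pool.Agent.H958R2.GK.Stubs

set_option autoImplicit false

/-! MSG: probabilities of the messages (helper55). -/

open Finset

namespace Pool.Agent.H958R2.GK

namespace Msg

theorem dep_not {ι C : Type} {E : (ι → C) → Prop} {S : Set ι} (h : Dep E S) :
    Dep (fun ω => ¬ E ω) S := fun ω ω' hω => not_congr (h ω ω' hω)

theorem dep_and {ι C : Type} {E F : (ι → C) → Prop} {S : Set ι} (h : Dep E S) (h' : Dep F S) :
    Dep (fun ω => E ω ∧ F ω) S := fun ω ω' hω => and_congr (h ω ω' hω) (h' ω ω' hω)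

theorem ch_sub {V : Type} {nb : V → Finset V} {v c d : V} (h : d ∈ ch nb v c) : d ∈ nb c := by
  classical
  exact (Finset.mem_filter.1 h).1

theorem ch_card {V : Type} {nb : V → Finset V} (hnb : Nb4 nb) {v c : V} (hv : v ∈ nb c) :
    (ch nb v c).card = 3 := by
  classical
  have h : ch nb v c = (nb c).erase v := by
    ext d
    simp only [ch, Finset.mem_filter, Finset.mem_erase]
    exact and_comm
  rw [h, Finset.card_erase_of_mem hv, hnb.card]

theorem loc (h4 : St_DISJ) {V : Type} [Fintype V] {nb : V → Finset V} (hnb : Nb4 nb) {T : ℕ}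
    (hu : Uniq nb (3 * T + 6)) (v c : V) : Loc nb T (3 * T + 3) c (ch nb v c) where
  dis d hd d' hd' hne :=
    ((h4 V nb hnb _ (3 * T + 3) hu).1 (by omega) c).1 d (ch_sub hd) d' (ch_sub hd') hne
  notc d hd := ((h4 V nb hnb _ (3 * T + 3) hu).1 (by omega) c).2 d (ch_sub hd)
  hR := le_rfl

/-- probability of a coin being `b` -/
noncomputable def kap (S : Sq) (t : ℕ) (b : Bool) (j : ℕ) : ℝ :=
  if b = true then S.p t (1 + j) else 1 - S.p t (1 + j)

section
variable (h1 : St_PROB) (h2 : St_COIN) (h4 : St_DISJ) (h6 : St_GL) (h7 : St_DD)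
  {V : Type} [Fintype V] {nb : V → Finset V} (hnb : Nb4 nb) {T N : ℕ} {P : ℕ → ℕ → ℕ}
  (hN : 0 < N) (hP : ∀ t k, P t k ≤ N) {S : Sq} (hS : ∀ t k, S.p t k = (P t k : ℝ) / N)
  (hM : MsgCert T S) (hq : Uniq nb (3 * T + 6)) {t : ℕ} (ht : t < T) {c v : V} (hv : v ∈ nb c)
  (hU : ∀ J ⊆ ch nb v c, Pr (fun ω : Lab V T N => Ue nb P c (ch nb v c) (fun _ => 1) t J ω) ≤
    S.u t J.card)
include h1 h2 h4 h6 h7 hnb hN hP hS hM hq ht hv hU

open Classical in
theorem core (b : Bool) (X Y : V → Lab V T N → Prop) (α β : ℝ) (hα : 0 ≤ α) (hβ : 0 ≤ β)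
    (hXd : ∀ d ∈ ch nb v c, Dep (X d) (lab (Br nb (3 * T + 3) c d)))
    (hYd : ∀ d ∈ ch nb v c, Dep (Y d) (lab (Br nb (3 * T + 3) c d)))
    (hXp : ∀ d ∈ ch nb v c, Pr (X d) ≤ α) (hYp : ∀ d ∈ ch nb v c, Pr (Y d) ≤ β) :
    Pr (fun ω : Lab V T N => al nb P ω t v c ∧
        (coin P ω c t (1 + cn (ch nb v c) (al nb P ω t c)) ↔ b = true) ∧
        ∀ d ∈ ch nb v c, al nb P ω t c d → Y d ω) ≤
      ∑ j ∈ range 4, (Nat.choose 3 j : ℝ) * S.u t j * kap S t b j * β ^ j ∧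
    Pr (fun ω : Lab V T N => al nb P ω t v c ∧
        (coin P ω c t (1 + cn (ch nb v c) (al nb P ω t c)) ↔ b = true) ∧
        (∃ d ∈ ch nb v c, al nb P ω t c d ∧ X d ω) ∧
        ∀ d ∈ ch nb v c, al nb P ω t c d → X d ω ∨ Y d ω) ≤
      ∑ j ∈ range 4, (Nat.choose 3 j : ℝ) * S.u t j * kap S t b j * ((α + β) ^ j - β ^ j) := by
  have : Nonempty (Fin N) := ⟨⟨0, hN⟩⟩
  obtain ⟨-, hmono, -⟩ := h1 (V × Fin T) (Fin N)
  have hκ0 : ∀ j, 0 ≤ kap S t b j := by
    intro j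
    unfold kap
    split_ifs
    · exact hM.p0 _ _
    · linarith [hM.p1 t (1 + j)]
  have hKd : ∀ j, Dep (fun ω : Lab V T N => (coin P ω c t (1 + j) ↔ b = true))
      {i | i.1 = c ∧ i.2.val = t} := by
    intro j ω ω' hω
    have := (h2 V T N P hN hP c t (1 + j)).1 ω ω' hω
    exact iff_congr this Iff.rfl
  have hKp : ∀ j, Pr (fun ω : Lab V T N => (coin P ω c t (1 + j) ↔ b = true)) ≤ kap S t b j := by
    intro j
    have h := (h2 V T N P hN hP c t (1 + j)).2 ht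
    unfold kap
    rw [hS]
    cases b with
    | true =>
      refine (hmono _ _ ?_).trans h.1.le
      intro ω hω
      exact hω.2 rfl
    | false =>
      refine (hmono _ _ ?_).trans h.2.le
      intro ω hω hc
      exact Bool.false_ne_true (hω.1 hc)
  obtain ⟨G1, G2⟩ := h6 V nb T N P hN (3 * T + 3) c (ch nb v c) (loc h4 hnb hq v c) (fun _ => 1) t
    (S.u t) ht.le (hM.u0 t) hU (fun j ω => (coin P ω c t (1 + j) ↔ b = true)) (kap S t b) hκ0 hKd hKp
    X Y α β hα hβ hXd hYd hXp hYp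
  rw [ch_card hnb hv] at G1 G2
  have hue : ∀ ω : Lab V T N, al nb P ω t v c →
      Ue nb P c (ch nb v c) (fun _ => 1) t ((ch nb v c).filter (fun d => al nb P ω t c d)) ω := by
    intro ω hal
    have e := (h7 V nb T N P c (ch nb v c) (fun _ => 1) 0 ω (by intro s hs; omega)).2 v t
    exact (h7 V nb T N P c (ch nb v c) (fun _ => 1) t ω (e.1 hal)).1
  constructor
  · refine (hmono _ _ ?_).trans G1
    rintro ω ⟨hal, hc, hY⟩
    refine ⟨(ch nb v c).filter (fun d => al nb P ω t c d), Finset.filter_subset _ _, hue ω hal, hc,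
      ?_⟩
    intro d hd
    rw [Finset.mem_filter] at hd
    exact hY d hd.1 hd.2
  · refine (hmono _ _ ?_).trans G2
    rintro ω ⟨hal, hc, ⟨d₀, hd₀, hal₀, hX₀⟩, hXY⟩
    refine ⟨(ch nb v c).filter (fun d => al nb P ω t c d), Finset.filter_subset _ _, hue ω hal, hc,
      ((ch nb v c).filter (fun d => al nb P ω t c d)).filter (fun d => X d ω),
      Finset.filter_subset _ _, ⟨d₀, ?_⟩, ?_, ?_⟩
    · rw [Finset.mem_filter, Finset.mem_filter]
      exact ⟨⟨hd₀, hal₀⟩, hX₀⟩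
    · intro d hd
      exact (Finset.mem_filter.1 hd).2
    · intro d hd
      obtain ⟨hd1, hd2⟩ := Finset.mem_sdiff.1 hd
      have hd3 := Finset.mem_filter.1 hd1
      rcases hXY d hd3.1 hd3.2 with h | h
      · exact absurd (Finset.mem_filter.2 ⟨hd1, h⟩) hd2
      · exact h

end

/-- the bounds at time `t` -/
structure Bds {V : Type} (nb : V → Finset V) (T N : ℕ) (P : ℕ → ℕ → ℕ) (S : Sq) (t : ℕ)
    (v c : V) : Prop where
  f : Pr (fun ω : Lab V T N => fi nb P ω t v c) ≤ S.f t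
  b : Pr (fun ω : Lab V T N => al nb P ω t v c ∧ ¬ fi nb P ω t v c) ≤ S.b t
  J : Pr (fun ω : Lab V T N => jo nb P ω t v c) ≤ S.J t
  n : Pr (fun ω : Lab V T N => al nb P ω t v c ∧ ¬ jo nb P ω t v c) ≤ S.n t
  x : Pr (fun ω : Lab V T N => sil nb P ω t v c) ≤ S.x t
  a : Pr (fun ω : Lab V T N => al nb P ω (t + 1) v c) ≤ S.a (t + 1)

section
variable (h1 : St_PROB) (h2 : St_COIN) (h3 : St_SUPPM) (h4 : St_DISJ) (h6 : St_GL) (h7 : St_DD)
  {V : Type} [Fintype V] {nb : V → Finset V} (hnb : Nb4 nb) {T N : ℕ} {P : ℕ → ℕ → ℕ}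
  (hN : 0 < N) (hP : ∀ t k, P t k ≤ N) {S : Sq} (hS : ∀ t k, S.p t k = (P t k : ℝ) / N)
  (hM : MsgCert T S) (hq : Uniq nb (3 * T + 6)) {t : ℕ} (ht : t < T)
  (hU : ∀ c : V, ∀ v ∈ nb c, ∀ J ⊆ ch nb v c,
    Pr (fun ω : Lab V T N => Ue nb P c (ch nb v c) (fun _ => 1) t J ω) ≤ S.u t J.card)
  (ha : ∀ c : V, ∀ v ∈ nb c, Pr (fun ω : Lab V T N => al nb P ω t v c) ≤ S.a t)
include h1 h2 h3 h4 h6 h7 hnb hN hP hS hM hq ht hU ha

theorem step : ∀ c : V, ∀ v ∈ nb c, Bds nb T N P S t v c := by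
  have : Nonempty (Fin N) := ⟨⟨0, hN⟩⟩
  obtain ⟨-, hmono, hor, -⟩ := h1 (V × Fin T) (Fin N)
  have cb : ∀ {c v : V}, v ∈ nb c → ∀ {d : V}, d ∈ ch nb v c → c ∈ nb d := fun {c v} _ {d} hd =>
    hnb.symm c d (ch_sub hd)
  have dal : ∀ c d : V, Dep (fun ω : Lab V T N => al nb P ω t c d)
      (lab (Br nb (3 * T + 3) c d)) := fun c d => (h3 V nb T N P _ t c d).1 (by omega)
  have dfi : ∀ c d : V, Dep (fun ω : Lab V T N => fi nb P ω t c d)
      (lab (Br nb (3 * T + 3) c d)) := fun c d => (h3 V nb T N P _ t c d).2.1 (by omega)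
  have djo : ∀ c d : V, Dep (fun ω : Lab V T N => jo nb P ω t c d)
      (lab (Br nb (3 * T + 3) c d)) := fun c d => (h3 V nb T N P _ t c d).2.2 (by omega)
  -- firing
  have hf : ∀ c : V, ∀ v ∈ nb c, Pr (fun ω : Lab V T N => fi nb P ω t v c) ≤ S.f t := by
    intro c v hv
    have hc := (core h1 h2 h4 h6 h7 hnb hN hP hS hM hq ht hv (hU c v hv) true
      (fun d ω => al nb P ω t c d) (fun d ω => al nb P ω t c d) (S.a t) (S.a t) (hM.a0 t) (hM.a0 t)
      (fun d _ => dal c d) (fun d _ => dal c d) (fun d hd => ha d c (cb hv hd))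
      (fun d hd => ha d c (cb hv hd))).1
    refine (hmono _ _ ?_).trans (hc.trans ?_)
    · rintro ω ⟨h, h'⟩
      exact ⟨h, iff_of_true h' rfl, fun d _ h => h⟩
    · simpa [kap] using hM.f_ge t ht
  -- alive and not firing
  have hb : ∀ c : V, ∀ v ∈ nb c,
      Pr (fun ω : Lab V T N => al nb P ω t v c ∧ ¬ fi nb P ω t v c) ≤ S.b t := by
    intro c v hv
    have hc := (core h1 h2 h4 h6 h7 hnb hN hP hS hM hq ht hv (hU c v hv) false
      (fun d ω => al nb P ω t c d) (fun d ω => al nb P ω t c d) (S.a t) (S.a t) (hM.a0 t) (hM.a0 t)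
      (fun d _ => dal c d) (fun d _ => dal c d) (fun d hd => ha d c (cb hv hd))
      (fun d hd => ha d c (cb hv hd))).1
    refine (hmono _ _ ?_).trans (hc.trans ?_)
    · rintro ω ⟨h, h'⟩
      exact ⟨h, iff_of_false (fun hcn => h' ⟨h, hcn⟩) Bool.false_ne_true, fun d _ h => h⟩
    · simpa [kap] using hM.b_ge t ht
  have dn : ∀ c d : V, Dep (fun ω : Lab V T N => al nb P ω t c d ∧ ¬ fi nb P ω t c d)
      (lab (Br nb (3 * T + 3) c d)) := fun c d => dep_and (dal c d) (dep_not (dfi c d))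
  have dm : ∀ c d : V, Dep (fun ω : Lab V T N => al nb P ω t c d ∧ ¬ jo nb P ω t c d)
      (lab (Br nb (3 * T + 3) c d)) := fun c d => dep_and (dal c d) (dep_not (djo c d))
  -- joining
  have hJ : ∀ c : V, ∀ v ∈ nb c, Pr (fun ω : Lab V T N => jo nb P ω t v c) ≤ S.J t := by
    intro c v hv
    have hc := (core h1 h2 h4 h6 h7 hnb hN hP hS hM hq ht hv (hU c v hv) true
      (fun d ω => al nb P ω t c d ∧ ¬ fi nb P ω t c d)
      (fun d ω => al nb P ω t c d ∧ ¬ fi nb P ω t c d) (S.b t) (S.b t) (hM.b0 t) (hM.b0 t)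
      (fun d _ => dn c d) (fun d _ => dn c d) (fun d hd => hb d c (cb hv hd))
      (fun d hd => hb d c (cb hv hd))).1
    refine (hmono _ _ ?_).trans (hc.trans ?_)
    · rintro ω ⟨⟨h, h'⟩, hno⟩
      exact ⟨h, iff_of_true h' rfl, fun d hd hal => ⟨hal, hno d hd⟩⟩
    · simpa [kap] using hM.J_ge t ht
  -- firing, and some child fires
  have hE2 : ∀ c : V, ∀ v ∈ nb c,
      Pr (fun ω : Lab V T N => fi nb P ω t v c ∧ ∃ d ∈ ch nb v c, fi nb P ω t c d) ≤
      ∑ j ∈ range 4, (Nat.choose 3 j : ℝ) * S.u t j * S.p t (1 + j) *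
        ((S.f t + S.b t) ^ j - (S.b t) ^ j) := by
    intro c v hv
    have hc := (core h1 h2 h4 h6 h7 hnb hN hP hS hM hq ht hv (hU c v hv) true
      (fun d ω => fi nb P ω t c d)
      (fun d ω => al nb P ω t c d ∧ ¬ fi nb P ω t c d) (S.f t) (S.b t) (hM.f0 t) (hM.b0 t)
      (fun d _ => dfi c d) (fun d _ => dn c d) (fun d hd => hf d c (cb hv hd))
      (fun d hd => hb d c (cb hv hd))).2
    refine (hmono _ _ ?_).trans (hc.trans ?_)
    · rintro ω ⟨⟨h, h'⟩, d₀, hd₀, hfi₀⟩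
      refine ⟨h, iff_of_true h' rfl, ⟨d₀, hd₀, hfi₀.1, hfi₀⟩, fun d hd hal => ?_⟩
      by_cases hfd : fi nb P ω t c d
      · exact Or.inl hfd
      · exact Or.inr ⟨hal, hfd⟩
    · simp [kap]
  -- alive and not joining
  have hn : ∀ c : V, ∀ v ∈ nb c,
      Pr (fun ω : Lab V T N => al nb P ω t v c ∧ ¬ jo nb P ω t v c) ≤ S.n t := by
    intro c v hv
    have e1 := hb c v hv
    have e2 := hE2 c v hv
    have e3 := hM.n_ge t ht
    refine ((hmono _ _ ?_).trans (hor (fun ω : Lab V T N => al nb P ω t v c ∧ ¬ fi nb P ω t v c)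
      (fun ω : Lab V T N => fi nb P ω t v c ∧ ∃ d ∈ ch nb v c, fi nb P ω t c d))).trans
        (by linarith)
    rintro ω ⟨h, h'⟩
    by_cases hfi : fi nb P ω t v c
    · right
      refine ⟨hfi, ?_⟩
      by_contra hcon
      push Not at hcon
      exact h' ⟨hfi, fun d hd => hcon d hd⟩
    · exact Or.inl ⟨h, hfi⟩
  -- not firing, and some child joins
  have hE3 : ∀ c : V, ∀ v ∈ nb c,
      Pr (fun ω : Lab V T N => (al nb P ω t v c ∧ ¬ fi nb P ω t v c) ∧
        ∃ d ∈ ch nb v c, jo nb P ω t c d) ≤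
      ∑ j ∈ range 4, (Nat.choose 3 j : ℝ) * S.u t j * (1 - S.p t (1 + j)) *
        ((S.J t + S.n t) ^ j - (S.n t) ^ j) := by
    intro c v hv
    have hc := (core h1 h2 h4 h6 h7 hnb hN hP hS hM hq ht hv (hU c v hv) false
      (fun d ω => jo nb P ω t c d)
      (fun d ω => al nb P ω t c d ∧ ¬ jo nb P ω t c d) (S.J t) (S.n t) (hM.J0 t) (hM.n0 t)
      (fun d _ => djo c d) (fun d _ => dm c d) (fun d hd => hJ d c (cb hv hd))
      (fun d hd => hn d c (cb hv hd))).2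
    refine (hmono _ _ ?_).trans (hc.trans ?_)
    · rintro ω ⟨⟨h, h'⟩, d₀, hd₀, hjo₀⟩
      refine ⟨h, iff_of_false (fun hcn => h' ⟨h, hcn⟩) Bool.false_ne_true,
        ⟨d₀, hd₀, hjo₀.1.1, hjo₀⟩, fun d hd hal => ?_⟩
      by_cases hfd : jo nb P ω t c d
      · exact Or.inl hfd
      · exact Or.inr ⟨hal, hfd⟩
    · simp [kap]
  -- leaving
  have hx : ∀ c : V, ∀ v ∈ nb c, Pr (fun ω : Lab V T N => sil nb P ω t v c) ≤ S.x t := by
    intro c v hv
    have e1 := hE3 c v hv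
    have e2 := hE2 c v hv
    have e3 := hM.x_ge t ht
    refine ((hmono _ _ ?_).trans (hor
      (fun ω : Lab V T N => fi nb P ω t v c ∧ ∃ d ∈ ch nb v c, fi nb P ω t c d)
      (fun ω : Lab V T N => (al nb P ω t v c ∧ ¬ fi nb P ω t v c) ∧
        ∃ d ∈ ch nb v c, jo nb P ω t c d))).trans (by linarith)
    rintro ω ⟨h, h', hj⟩
    by_cases hfi : fi nb P ω t v c
    · left
      refine ⟨hfi, ?_⟩
      by_contra hcon
      push Not at hcon
      exact hj ⟨hfi, fun d hd => hcon d hd⟩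
    · right
      refine ⟨⟨h, hfi⟩, ?_⟩
      by_contra hcon
      push Not at hcon
      exact h' ⟨h, hfi, fun d hd => hcon d hd⟩
  -- alive after the round
  have ha' : ∀ c : V, ∀ v ∈ nb c,
      Pr (fun ω : Lab V T N => al nb P ω (t + 1) v c) ≤ S.a (t + 1) := by
    intro c v hv
    have hc := (core h1 h2 h4 h6 h7 hnb hN hP hS hM hq ht hv (hU c v hv) false
      (fun d ω => al nb P ω t c d ∧ ¬ jo nb P ω t c d)
      (fun d ω => al nb P ω t c d ∧ ¬ jo nb P ω t c d) (S.n t) (S.n t) (hM.n0 t) (hM.n0 t)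
      (fun d _ => dm c d) (fun d _ => dm c d) (fun d hd => hn d c (cb hv hd))
      (fun d hd => hn d c (cb hv hd))).1
    refine (hmono _ _ ?_).trans (hc.trans ?_)
    · rintro ω ⟨h, h', hj⟩
      exact ⟨h, iff_of_false (fun hcn => h' ⟨h, hcn⟩) Bool.false_ne_true,
        fun d hd hal => ⟨hal, hj d hd⟩⟩
    · simpa [kap] using hM.a_step t ht
  exact fun c v hv => ⟨hf c v hv, hb c v hv, hJ c v hv, hn c v hv, hx c v hv, ha' c v hv⟩

end

end Msg

theorem msg_proof (h1 : St_PROB) (h2 : St_COIN) (h3 : St_SUPPM) (h4 : St_DISJ) (h5 : St_SITE)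
    (h6 : St_GL) (h7 : St_DD) : St_MSG := by
  intro V _ nb hnb T N P S hN hP hS hM hq
  have : Nonempty (Fin N) := ⟨⟨0, hN⟩⟩
  have key : ∀ t ≤ T, (∀ c : V, ∀ v ∈ nb c, Pr (fun ω : Lab V T N => al nb P ω t v c) ≤ S.a t) ∧
      ∀ s < t, ∀ c : V, ∀ v ∈ nb c, Msg.Bds nb T N P S s v c := by
    intro t
    induction t with
    | zero =>
      intro _
      refine ⟨fun c v _ => ?_, fun s hs => absurd hs (by omega)⟩
      exact ((h1 (V × Fin T) (Fin N)).1 _).2.trans hM.a_init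
    | succ t ih =>
      intro ht
      obtain ⟨ha, hB⟩ := ih (by omega)
      have hU : ∀ c : V, ∀ v ∈ nb c, ∀ J ⊆ ch nb v c,
          Pr (fun ω : Lab V T N => Ue nb P c (ch nb v c) (fun _ => 1) t J ω) ≤ S.u t J.card := by
        intro c v hv
        refine h5 V nb T N P hN hP (3 * T + 3) c (ch nb v c) (Msg.loc h4 hnb hq v c) (fun _ => 1)
          S.x S.u t (by omega) hM.u0 hM.x0 ?_ ?_ ?_ t le_rfl
        · rw [Msg.ch_card hnb hv]
          exact hM.u_init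
        · rw [Msg.ch_card hnb hv]
          intro s hs j hj
          have := hM.u_step s (by omega) j hj
          simp only [hS] at this
          exact this
        · intro s hs d hd
          exact (hB s hs d c (hnb.symm c d (Msg.ch_sub hd))).x
      have hstep := Msg.step h1 h2 h3 h4 h6 h7 hnb hN hP hS hM hq (t := t) (by omega) hU ha
      refine ⟨fun c v hv => (hstep c v hv).a, fun s hs c v hv => ?_⟩
      rcases Nat.lt_succ_iff_lt_or_eq.1 hs with h | h
      · exact hB s h c v hv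
      · rw [h]
        exact hstep c v hv
  intro t ht c v hv
  refine ⟨(key t ht).1 c v hv, fun htT => ?_⟩
  have h := (key (t + 1) (by omega)).2 t (by omega) c v hv
  exact ⟨h.f, h.b, h.J, h.n, h.x⟩

end Pool.Agent.H958R2.GK
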