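import Pool.Agent.H958R2.GK.NumMsg

set_option autoImplicit false
set_option exponentiation.threshold 100000

/-!
# Project GK, task NUM: the certificate
-/

open Finset

namespace Pool.Agent.H958R2.GK.Num

theorem chc_spec {s : St} {d : Rd} {k : Bk} (h : chc s d k = true) :
    10000 * (mu s.g0 k.b0 + mu s.r0 k.y0 + (mu s.g1 k.b1 + mu s.r1 k.y1) +
      (mu s.g2 k.b2 + mu s.r2 k.y2) + Nat.shiftLeft 1 978) ≤ 3307 * d.c := by
  simp only [chc] at h
  exact Nat.le_of_ble_eq_true h

theorem chT_spec {s : St} {q : ℕ} (h : chT s q = true) :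
    1 ≤ q ∧ 10000 * (s.r0 + 2 * mu s.r1 s.a + mu s.r2 (mu s.a s.a) +
    mu q (s.g0 + 2 * mu s.g1 s.a + mu s.g2 (mu s.a s.a))) ≤ 3307 * q := by
  simp only [chT, Bool.and_eq_true] at h
  exact ⟨Nat.le_of_ble_eq_true h.1, Nat.le_of_ble_eq_true h.2⟩

theorem bst_eq (d : Rd) (k : Bk) : bst d k =
    ⟨0, 2 * d.f,
     mu d.n2 d.kk + mu d.p2 d.hh + mu d.n2 (mu k.y0 d.x2 + mu k.y1 d.x + k.y2),
     d.q',
     mu d.q' d.e1t + mu d.c d.e1f + mu d.n2 (2 * mu (k.b0 + mu d.q k.y0) d.x +
       (k.b1 + mu d.q k.y1)),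
     mu d.q' d.kk + mu d.c d.kk + (mu (k.b0 + mu d.q k.y0) d.x2 + mu (k.b1 + mu d.q k.y1) d.x +
       (k.b2 + mu d.q k.y2))⟩ := by
  simp only [bst, frc_eq]

theorem bk0_eq (s : St) (q : ℕ) : bk0 s q =
    ⟨Nat.shiftLeft 1 1000, 2 * s.a, mu s.a s.a, Nat.succ q, mu q (2 * s.a), mu q (mu s.a s.a)⟩ := by
  simp only [bk0, frc_eq]

theorem rd_q (ρ : Row) (s : St) : (rd ρ s).q = Nat.shiftLeft ρ.q 940 := by
  simp only [rd, frc_eq]

theorem rd_q' (ρ : Row) (s : St) : (rd ρ s).q' = Nat.shiftLeft ρ.q' 940 := by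
  simp only [rd, frc_eq]

theorem rr_pos {a : ℕ} (h : 0 < a) : 0 < rr a := by
  unfold rr; positivity

theorem dd_q_pos (t : ℕ) : 0 < rr (dd t).q := by
  rw [dd, rd_q, rr_shift _ 940 (by norm_num)]
  have := row_q t
  positivity

theorem dd_q'_pos (t : ℕ) : 0 < rr (dd t).q' := by
  rw [dd, rd_q', rr_shift _ 940 (by norm_num)]
  have := row_q' t
  positivity

/-- components -/
def gg (s : St) : ℕ → ℕ
  | 0 => s.g0
  | 1 => s.g1
  | 2 => s.g2
  | _ => 0

def rrr (s : St) : ℕ → ℕ
  | 0 => s.r0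
  | 1 => s.r1
  | 2 => s.r2
  | _ => 0

def yy (k : Bk) : ℕ → ℕ
  | 0 => k.y0
  | 1 => k.y1
  | 2 => k.y2
  | _ => 0

def bb (k : Bk) : ℕ → ℕ
  | 0 => k.b0
  | 1 => k.b1
  | 2 => k.b2
  | _ => 0

/-- the weights `q'` -/
noncomputable def q2 (s : ℕ) : ℝ := if s < 640 then rr (dd s).q' else rr qT

theorem exc_k0_0 (t : ℕ) : exc SS t 0 false 0 = 0 := by simp [exc]

theorem exc_k0_1 (t : ℕ) : exc SS t 0 false 1 = 2 * rr (dd t).f := by
  simp only [exc, p1, Nat.reduceAdd, zero_add, Nat.choose]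
  simp [SS]

theorem exc_k0_2 (t : ℕ) : exc SS t 0 false 2 = (1 - pr (row t).P2) *
    ((rr (dd t).J + rr (dd t).n) ^ 2 - rr (dd t).n ^ 2) + pr (row t).P2 *
    ((rr (dd t).f + rr (dd t).b) ^ 2 - rr (dd t).b ^ 2) := by
  simp only [exc, p2, Nat.reduceAdd, zero_add, Nat.choose]
  simp [SS]

theorem exc_k1_0f (t : ℕ) : exc SS t 1 false 0 = 0 := by simp [exc]

theorem exc_k1_0t (t : ℕ) : exc SS t 1 true 0 = 1 := by
  simp only [exc, p1, Nat.reduceAdd, add_zero, Nat.choose]
  simp

theorem exc_k1_1f (t : ℕ) : exc SS t 1 false 1 =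
    2 * ((1 - pr (row t).P2) * rr (dd t).J + pr (row t).P2 * rr (dd t).f) := by
  simp only [exc, p2, Nat.reduceAdd, zero_add, Nat.choose]
  simp [SS]

theorem exc_k1_1t (t : ℕ) : exc SS t 1 true 1 =
    2 * ((1 - pr (row t).P2) * rr (dd t).J + pr (row t).P2 * rr (st t).a) := by
  simp only [exc, p2, Nat.reduceAdd, zero_add, Nat.choose]
  simp [SS]

theorem exc_k1_2 (t : ℕ) (b : Bool) : exc SS t 1 b 2 =
    (rr (dd t).J + rr (dd t).n) ^ 2 - rr (dd t).n ^ 2 := by
  simp only [exc, p3, Nat.reduceAdd, zero_add, Nat.choose]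
  simp [SS]

theorem exc_k2_0f (t : ℕ) : exc SS t 2 false 0 = 0 := by simp [exc]

theorem exc_k2_0t (t : ℕ) : exc SS t 2 true 0 = pr (row t).P2 := by
  simp only [exc, p2, Nat.reduceAdd, add_zero, Nat.choose]
  simp

theorem exc_k2_1 (t : ℕ) (b : Bool) : exc SS t 2 b 1 = 2 * rr (dd t).J := by
  simp only [exc, p3, Nat.reduceAdd, zero_add, Nat.choose]
  simp [SS]

theorem exc_k2_2f (t : ℕ) : exc SS t 2 false 2 = (1 - pr (row t).P4) *
    ((rr (dd t).J + rr (dd t).n) ^ 2 - rr (dd t).n ^ 2) + pr (row t).P4 *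
    ((rr (dd t).f + rr (dd t).b) ^ 2 - rr (dd t).b ^ 2) := by
  simp only [exc, p4, Nat.reduceAdd, zero_add, Nat.choose]
  simp [SS]

theorem exc_k2_2t (t : ℕ) : exc SS t 2 true 2 = (1 - pr (row t).P4) *
    ((rr (dd t).J + rr (dd t).n) ^ 2 - rr (dd t).n ^ 2) + pr (row t).P4 * rr (st t).a ^ 2 := by
  simp only [exc, p4, Nat.reduceAdd, zero_add, Nat.choose]
  simp [SS]

theorem stp2_0 (t : ℕ) (v : ℕ → ℝ) : stp SS t 2 v 0 = v 0 * (1 - pr (row t).P2) +
    2 * (v 1 * rr (dd t).x) + v 2 * (1 - pr (row t).P4) * rr (dd t).x ^ 2 := by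
  simp only [stp, Finset.sum_range_succ, Finset.sum_range_zero, p2, p3, p4, Nat.reduceAdd,
    Nat.reduceSub, Nat.choose, zero_add, add_zero]
  simp only [SS]
  push_cast
  ring

theorem stp2_1 (t : ℕ) (v : ℕ → ℝ) : stp SS t 2 v 1 = v 1 +
    v 2 * (1 - pr (row t).P4) * rr (dd t).x := by
  simp only [stp, Finset.sum_range_succ, Finset.sum_range_zero, p2, p3, p4, Nat.reduceAdd,
    Nat.reduceSub, Nat.choose, zero_add, add_zero]
  simp only [SS]
  push_cast
  ring

theorem stp2_2 (t : ℕ) (v : ℕ → ℝ) : stp SS t 2 v 2 = v 2 * (1 - pr (row t).P4) := by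
  simp only [stp, Finset.sum_range_succ, Finset.sum_range_zero, p2, p3, p4, Nat.reduceAdd,
    Nat.reduceSub, Nat.choose, zero_add, add_zero]
  push_cast
  ring

theorem stp1_0 (t : ℕ) (v : ℕ → ℝ) : stp SS t 1 v 0 =
    2 * (v 1 * (1 - pr (row t).P2) * rr (dd t).x) + v 2 * rr (dd t).x ^ 2 := by
  simp only [stp, Finset.sum_range_succ, Finset.sum_range_zero, p1, p2, p3, p4, Nat.reduceAdd,
    Nat.reduceSub, Nat.choose, zero_add, add_zero]
  simp only [SS]
  push_cast
  ring

theorem stp1_1 (t : ℕ) (v : ℕ → ℝ) : stp SS t 1 v 1 =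
    v 1 * (1 - pr (row t).P2) + v 2 * rr (dd t).x := by
  simp only [stp, Finset.sum_range_succ, Finset.sum_range_zero, p1, p2, p3, p4, Nat.reduceAdd,
    Nat.reduceSub, Nat.choose, zero_add, add_zero]
  simp only [SS]
  push_cast
  ring

theorem stp1_2 (t : ℕ) (v : ℕ → ℝ) : stp SS t 1 v 2 = v 2 := by
  simp only [stp, Finset.sum_range_succ, Finset.sum_range_zero, p1, p2, p3, p4, Nat.reduceAdd,
    Nat.reduceSub, Nat.choose, zero_add, add_zero]
  push_cast
  ring

theorem rr_le_of {a b : ℕ} (h : 10000 * a ≤ 3307 * b) : rr a ≤ 3307 / 10000 * rr b := by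
  have h1 := rr_mono h
  rw [rr_mul, rr_mul] at h1
  push_cast at h1
  linarith

theorem g_up (t : ℕ) : ∀ j ≤ 2, stp SS t 2 (fun j => rr (gg (st t) j)) j ≤ rr (gg (st (t + 1)) j) ∧
    0 ≤ stp SS t 2 (fun j => rr (gg (st t) j)) j := by
  intro j hj
  have h2 : Up (rr (st t).g2 * (1 - pr (row t).P4)) (mu (st t).g2 (dd t).n4) :=
    (Up.self _).mul (n4_up t)
  have hx : Up (rr (dd t).x) (dd t).x := Up.self _
  interval_cases j
  · have := ((Up.self (st t).g0).mul (n2_up t)).add (((Up.self (st t).g1).mul hx).two) |>.add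
      (h2.mul (x2_up t))
    have e : (st (t + 1)).g0 = mu (st t).g0 (dd t).n2 + 2 * mu (st t).g1 (dd t).x +
      mu (mu (st t).g2 (dd t).n4) (dd t).x2 := by rw [st_succ, nxt_eq]
    rw [stp2_0]
    show _ ≤ rr (st (t + 1)).g0 ∧ _
    rw [e]
    exact ⟨this.2, this.1⟩
  · have := (Up.self (st t).g1).add (h2.mul hx)
    have e : (st (t + 1)).g1 = (st t).g1 + mu (mu (st t).g2 (dd t).n4) (dd t).x := by
      rw [st_succ, nxt_eq]
    rw [stp2_1]
    show _ ≤ rr (st (t + 1)).g1 ∧ _
    rw [e]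
    exact ⟨this.2, this.1⟩
  · have e : (st (t + 1)).g2 = mu (st t).g2 (dd t).n4 := by rw [st_succ, nxt_eq]
    rw [stp2_2]
    show _ ≤ rr (st (t + 1)).g2 ∧ _
    rw [e]
    exact ⟨h2.2, h2.1⟩

theorem r_up (t : ℕ) : ∀ j ≤ 2, stp SS t 1 (fun j => rr (rrr (st t) j)) j +
    rr (dd t).q * stp SS t 2 (fun j => rr (gg (st t) j)) j ≤ rr (rrr (st (t + 1)) j) := by
  intro j hj
  have hg := g_up t j hj
  have hx : Up (rr (dd t).x) (dd t).x := Up.self _
  have h1 : Up (rr (st t).r1 * (1 - pr (row t).P2)) (mu (st t).r1 (dd t).n2) :=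
    (Up.self _).mul (n2_up t)
  have hG : Up (rr (dd t).q * stp SS t 2 (fun j => rr (gg (st t) j)) j)
      (mu (dd t).q (gg (st (t + 1)) j)) := (Up.self _).mul ⟨hg.2, hg.1⟩
  interval_cases j
  · have := ((h1.mul hx).two.add ((Up.self (st t).r2).mul (x2_up t))).add hG
    have e : (st (t + 1)).r0 = 2 * mu (mu (st t).r1 (dd t).n2) (dd t).x + mu (st t).r2 (dd t).x2 +
      mu (dd t).q (gg (st (t + 1)) 0) := by
      show _ = _ + mu (dd t).q (st (t + 1)).g0
      rw [st_succ, nxt_eq]
    rw [stp1_0]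
    show _ ≤ rr (st (t + 1)).r0
    rw [e]
    exact this.2
  · have := (h1.add ((Up.self (st t).r2).mul hx)).add hG
    have e : (st (t + 1)).r1 = mu (st t).r1 (dd t).n2 + mu (st t).r2 (dd t).x +
      mu (dd t).q (gg (st (t + 1)) 1) := by
      show _ = _ + mu (dd t).q (st (t + 1)).g1
      rw [st_succ, nxt_eq]
    rw [stp1_1]
    show _ ≤ rr (st (t + 1)).r1
    rw [e]
    exact this.2
  · have := (Up.self (st t).r2).add hG
    have e : (st (t + 1)).r2 = (st t).r2 + mu (dd t).q (gg (st (t + 1)) 2) := by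
      show _ = _ + mu (dd t).q (st (t + 1)).g2
      rw [st_succ, nxt_eq]
    rw [stp1_2]
    show _ ≤ rr (st (t + 1)).r2
    rw [e]
    exact this.2

theorem bk_succ (t : ℕ) (ht : t < 640) : bk (640 - t) = bst (dd t) (bk (639 - t)) := by
  have e : 640 - t = (639 - t) + 1 := by omega
  rw [e]
  have e2 : 639 - (639 - t) = t := by omega
  show bst (dd (639 - (639 - t))) (bk (639 - t)) = _
  rw [e2]

theorem pathCert : PathCert 640 SS (3307 / 10000) (1 / 2 ^ 22 / 640) (fun s => rr (dd s).q) q2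
    (fun s => rr (dd s).c) (fun s j => rr (gg (st s) j)) (fun s j => rr (rrr (st s) j))
    (fun s j => rr (yy (bk (640 - s)) j)) (fun s j => rr (bb (bk (640 - s)) j)) where
  lam0 := by norm_num
  del0 := by norm_num
  q0 := dd_q_pos
  q'0 := fun s => by
    unfold q2
    split_ifs
    · exact dd_q'_pos s
    · exact rr_pos (chT_spec all_chk.2.1).1
  c0 := fun s => rr_nonneg _
  g0 := fun s j => rr_nonneg _
  r0 := fun s j => rr_nonneg _
  y0 := fun s j => rr_nonneg _
  be0 := fun s j => rr_nonneg _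
  g_init := by
    show 1 ≤ rr (Nat.shiftLeft 1 1000)
    rw [rr_one]
  g_step := fun s _ j hj => (g_up s j hj).1
  r_step := fun s _ j hj => r_up s j hj
  q_ge := fun s hs => by
    have hc := (chk_spec (all_chk.1 s hs)).2.2.2.2.1
    have hJ : Up (2 * rr (dd s).J) (2 * (dd s).J) := (Up.self _).two
    have nk := (n4_up s).mul (kk_up s)
    have et := (((Up.self (st s).g0).mul (p2_up s)).add ((Up.self (st s).g1).mul hJ)).add
      ((Up.self (st s).g2).mul (nk.add ((p4_up s).mul (a2_up s))))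
    have ef := ((Up.self (st s).g1).mul hJ).add
      ((Up.self (st s).g2).mul (nk.add ((p4_up s).mul (hh_up s))))
    have := ((((Up.self (st s).r1).mul (e1f_up s)).add ((Up.self (st s).r2).mul (kk_up s))).add
      ((Up.self (dd s).q').mul et)).add ((Up.self (dd s).c).mul ef)
    refine le_trans (le_of_eq ?_) (this.2.trans (rr_le_of hc))
    simp only [exw, Finset.sum_range_succ, Finset.sum_range_zero, exc_k1_0f, exc_k1_1f, exc_k1_2,
      exc_k2_0t, exc_k2_1, exc_k2_2t, exc_k2_0f, exc_k2_2f, q2, if_pos hs]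
    simp only [gg, rrr]
    ring
  q'_ge := fun s hs => by
    have hc := (chk_spec (all_chk.1 s hs)).2.2.2.2.2
    have hJ : Up (2 * rr (dd s).J) (2 * (dd s).J) := (Up.self _).two
    have nk := (n4_up s).mul (kk_up s)
    have et := (((Up.self (st s).g0).mul (p2_up s)).add ((Up.self (st s).g1).mul hJ)).add
      ((Up.self (st s).g2).mul (nk.add ((p4_up s).mul (a2_up s))))
    have := (((((Up.self (st s).r0)).add ((Up.self (st s).r1).mul (e1t_up s))).add
      ((Up.self (st s).r2).mul (kk_up s))).add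
      ((Up.self (dd s).q').mul et)).add ((Up.self (dd s).c).mul et)
    have e : q2 s = rr (dd s).q' := by rw [q2, if_pos hs]
    rw [e]
    refine le_trans (le_of_eq ?_) (this.2.trans (rr_le_of hc))
    simp only [exw, Finset.sum_range_succ, Finset.sum_range_zero, exc_k1_0t, exc_k1_1t, exc_k1_2,
      exc_k2_0t, exc_k2_1, exc_k2_2t]
    simp only [gg, rrr]
    ring
  q'_T := by
    have hc := (chT_spec all_chk.2.1).2
    have e : q2 640 = rr qT := by rw [q2, if_neg (lt_irrefl _)]
    rw [e]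
    have ha : Up (rr (st 640).a) (st 640).a := Up.self _
    have ha2 := ha.mul ha
    have := (((Up.self (st 640).r0).add (((Up.self (st 640).r1).mul ha).two)).add
      ((Up.self (st 640).r2).mul ha2)).add ((Up.self qT).mul
      ((((Up.self (st 640).g0).add (((Up.self (st 640).g1).mul ha).two)).add
      ((Up.self (st 640).g2).mul ha2))))
    refine le_trans (le_of_eq ?_) (this.2.trans (rr_le_of hc))
    simp only [enw, Finset.sum_range_succ, Finset.sum_range_zero, Nat.choose]
    simp only [gg, rrr, SS]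
    push_cast
    ring
  y_T := fun j hj => by
    have ha : Up (rr (st 640).a) (st 640).a := Up.self _
    have hbk : bk 0 = _ := bk0_eq (st 640) qT
    interval_cases j
    · have e : (bk 0).y0 = Nat.shiftLeft 1 1000 := by rw [hbk]
      show _ ≤ rr (bk 0).y0
      rw [e, rr_one]; simp
    · have e : (bk 0).y1 = 2 * (st 640).a := by rw [hbk]
      show _ ≤ rr (bk 0).y1
      rw [e]
      refine le_trans (le_of_eq ?_) ha.two.2
      simp [SS]
    · have e : (bk 0).y2 = mu (st 640).a (st 640).a := by rw [hbk]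
      show _ ≤ rr (bk 0).y2
      rw [e]
      refine le_trans (le_of_eq ?_) (ha.mul ha).2
      simp only [SS, Nat.choose]
      push_cast
      ring
  be_T := fun j hj => by
    have e : q2 640 = rr qT := by rw [q2, if_neg (lt_irrefl _)]
    rw [e]
    have ha : Up (rr (st 640).a) (st 640).a := Up.self _
    have hbk : bk 0 = _ := bk0_eq (st 640) qT
    interval_cases j
    · have e : (bk 0).b0 = Nat.succ qT := by rw [hbk]
      show _ ≤ rr (bk 0).b0
      rw [e]
      refine le_trans (le_of_eq ?_) (rr_mono (Nat.le_succ qT))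
      simp
    · have e : (bk 0).b1 = mu qT (2 * (st 640).a) := by rw [hbk]
      show _ ≤ rr (bk 0).b1
      rw [e]
      refine le_trans (le_of_eq ?_) ((Up.self qT).mul ha.two).2
      simp [SS]
    · have e : (bk 0).b2 = mu qT (mu (st 640).a (st 640).a) := by rw [hbk]
      show _ ≤ rr (bk 0).b2
      rw [e]
      refine le_trans (le_of_eq ?_) ((Up.self qT).mul (ha.mul ha)).2
      simp only [SS, Nat.choose]
      push_cast
      ring
  y_step := fun t ht j hj => by
    have hk : bk (640 - t) = _ := (bk_succ t ht).trans (bst_eq _ _)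
    have hk' : 640 - (t + 1) = 639 - t := by omega
    rw [hk']
    have hx : Up (rr (dd t).x) (dd t).x := Up.self _
    interval_cases j
    · have e : (bk (640 - t)).y0 = 0 := by rw [hk]
      show _ ≤ rr (bk (640 - t)).y0
      rw [e, exc_k0_0]
      simp only [Finset.sum_range_succ, Finset.sum_range_zero, zero_add, p0]
      simp [rr]
    · have e : (bk (640 - t)).y1 = 2 * (dd t).f := by rw [hk]
      show _ ≤ rr (bk (640 - t)).y1
      rw [e, exc_k0_1]
      refine le_trans (le_of_eq ?_) (Up.self (dd t).f).two.2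
      simp only [Finset.sum_range_succ, Finset.sum_range_zero, zero_add, p1]
      ring
    · have e : (bk (640 - t)).y2 = mu (dd t).n2 (dd t).kk + mu (dd t).p2 (dd t).hh +
        mu (dd t).n2 (mu (bk (639 - t)).y0 (dd t).x2 + mu (bk (639 - t)).y1 (dd t).x +
          (bk (639 - t)).y2) := by rw [hk]
      have := (((n2_up t).mul (kk_up t)).add ((p2_up t).mul (hh_up t))).add ((n2_up t).mul
        ((((Up.self (bk (639 - t)).y0).mul (x2_up t)).add
        ((Up.self (bk (639 - t)).y1).mul hx)).add (Up.self (bk (639 - t)).y2)))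
      show _ ≤ rr (bk (640 - t)).y2
      rw [e, exc_k0_2]
      refine le_trans (le_of_eq ?_) this.2
      simp only [Finset.sum_range_succ, Finset.sum_range_zero, zero_add, p2, Nat.reduceSub,
        Nat.reduceAdd, Nat.choose]
      simp only [yy, SS]
      push_cast
      ring
  be_step := fun t ht j hj => by
    have hk : bk (640 - t) = _ := (bk_succ t ht).trans (bst_eq _ _)
    have hk' : 640 - (t + 1) = 639 - t := by omega
    rw [hk']
    have hx : Up (rr (dd t).x) (dd t).x := Up.self _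
    have e2 : q2 t = rr (dd t).q' := by rw [q2, if_pos ht]
    rw [e2]
    have z0 := (Up.self (bk (639 - t)).b0).add ((Up.self (dd t).q).mul
      (Up.self (bk (639 - t)).y0))
    have z1 := (Up.self (bk (639 - t)).b1).add ((Up.self (dd t).q).mul
      (Up.self (bk (639 - t)).y1))
    have z2 := (Up.self (bk (639 - t)).b2).add ((Up.self (dd t).q).mul
      (Up.self (bk (639 - t)).y2))
    interval_cases j
    · have e : (bk (640 - t)).b0 = (dd t).q' := by rw [hk]
      show _ ≤ rr (bk (640 - t)).b0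
      rw [e, exc_k1_0t, exc_k1_0f]
      simp only [Finset.sum_range_succ, Finset.sum_range_zero, zero_add, add_zero, p1]
      simp
    · have e : (bk (640 - t)).b1 = mu (dd t).q' (dd t).e1t + mu (dd t).c (dd t).e1f +
        mu (dd t).n2 (2 * mu ((bk (639 - t)).b0 + mu (dd t).q (bk (639 - t)).y0) (dd t).x +
          ((bk (639 - t)).b1 + mu (dd t).q (bk (639 - t)).y1)) := by rw [hk]
      have := (((Up.self (dd t).q').mul (e1t_up t)).add ((Up.self (dd t).c).mul (e1f_up t))).add
        ((n2_up t).mul ((z0.mul hx).two.add z1))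
      show _ ≤ rr (bk (640 - t)).b1
      rw [e, exc_k1_1t, exc_k1_1f]
      refine le_trans (le_of_eq ?_) this.2
      simp only [Finset.sum_range_succ, Finset.sum_range_zero, zero_add, p2, Nat.reduceSub,
        Nat.reduceAdd, Nat.choose]
      simp only [yy, bb, SS]
      push_cast
      ring
    · have e : (bk (640 - t)).b2 = mu (dd t).q' (dd t).kk + mu (dd t).c (dd t).kk +
        (mu ((bk (639 - t)).b0 + mu (dd t).q (bk (639 - t)).y0) (dd t).x2 +
          mu ((bk (639 - t)).b1 + mu (dd t).q (bk (639 - t)).y1) (dd t).x +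
          ((bk (639 - t)).b2 + mu (dd t).q (bk (639 - t)).y2)) := by rw [hk]
      have := (((Up.self (dd t).q').mul (kk_up t)).add ((Up.self (dd t).c).mul (kk_up t))).add
        (((z0.mul (x2_up t)).add (z1.mul hx)).add z2)
      show _ ≤ rr (bk (640 - t)).b2
      rw [e, exc_k1_2, exc_k1_2]
      refine le_trans (le_of_eq ?_) this.2
      simp only [Finset.sum_range_succ, Finset.sum_range_zero, zero_add, p3, Nat.reduceSub,
        Nat.reduceAdd, Nat.choose]
      simp only [yy, bb, SS]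
      push_cast
      ring
  c_ge := fun s hs => by
    have hc := chc_spec (all_chk.2.2 s hs)
    have hk' : 640 - (s + 1) = 639 - s := by omega
    simp only [hk']
    have hd : rr (Nat.shiftLeft 1 978) = 1 / 2 ^ 22 := by
      rw [rr_shift 1 978 (by norm_num)]; norm_num
    have := (((((Up.self (st (s + 1)).g0).mul (Up.self (bk (639 - s)).b0)).add
      ((Up.self (st (s + 1)).r0).mul (Up.self (bk (639 - s)).y0))).add
      (((Up.self (st (s + 1)).g1).mul (Up.self (bk (639 - s)).b1)).add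
      ((Up.self (st (s + 1)).r1).mul (Up.self (bk (639 - s)).y1)))).add
      (((Up.self (st (s + 1)).g2).mul (Up.self (bk (639 - s)).b2)).add
      ((Up.self (st (s + 1)).r2).mul (Up.self (bk (639 - s)).y2)))).add
      (Up.self (Nat.shiftLeft 1 978))
    refine le_trans ?_ (this.2.trans (rr_le_of hc))
    rw [hd]
    simp only [Finset.sum_range_succ, Finset.sum_range_zero]
    simp only [yy, bb, gg, rrr]
    push_cast
    have h9 : (3307 / 10000 : ℝ) * (1 / 2 ^ 22 / 640) * 640 ≤ 1 / 2 ^ 22 := by norm_num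
    linarith

end Pool.Agent.H958R2.GK.Num

namespace Pool.Agent.H958R2.GK

theorem num_proof : St_NUM :=
  ⟨640, 1073741824, Num.P, Num.SS, 3307 / 10000, 1 / 2 ^ 22 / 640, _, _, _, _, _, _, _,
    by norm_num, Num.P_le, fun _ _ => rfl, Num.msgCert, Num.pathCert, by norm_num⟩

end Pool.Agent.H958R2.GK
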