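import Pool.Agent.H958R2.GK.Stubs

set_option autoImplicit false

open Finset

namespace Pool.Agent.H958R2.GK

section PATHPRaux

variable {V : Type} {T N : ℕ} {nb : V → Finset V} {P : ℕ → ℕ → ℕ}

theorem pathpr_coin {ω ω' : Lab V T N} {v : V} (h : ∀ t : Fin T, ω (v, t) = ω' (v, t)) (t k : ℕ) :
    coin P ω v t k ↔ coin P ω' v t k := by
  unfold coin
  refine exists_congr (fun ht => ?_)
  rw [h]

theorem pathpr_cn {D : Finset V} {A B : V → Prop} (h : ∀ d ∈ D, A d ↔ B d) : cn D A = cn D B := by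
  classical
  unfold cn
  congr 1
  exact Finset.filter_congr h

theorem pathpr_wt {ω ω' : Lab V T N} {c : V} {D : Finset V} {x y z : ℕ} (hx : x ≤ T)
    (hc : ∀ t : Fin T, ω (c, t) = ω' (c, t))
    (hal : ∀ s ≤ T, ∀ d ∈ D, (al nb P ω s c d ↔ al nb P ω' s c d))
    (hfi : ∀ s ≤ T, ∀ d ∈ D, (fi nb P ω s c d ↔ fi nb P ω' s c d))
    (hjo : ∀ s < T, ∀ d ∈ D, (jo nb P ω s c d ↔ jo nb P ω' s c d)) :
    Wt nb P c D x y z ω ↔ Wt nb P c D x y z ω' := by
  have hcoin : ∀ s ≤ T, (coin P ω c s (mm y z s + cn D (al nb P ω s c)) ↔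
      coin P ω' c s (mm y z s + cn D (al nb P ω' s c))) := by
    intro s hs
    rw [pathpr_cn (hal s hs)]
    exact pathpr_coin hc _ _
  unfold Wt
  refine and_congr ?_ ?_
  · refine forall_congr' (fun s => imp_congr_right (fun hs => ?_))
    have hsT : s < T := lt_of_lt_of_le hs hx
    refine and_congr (not_congr (hcoin s hsT.le)) ?_
    exact forall_congr' (fun d => imp_congr_right (fun hd => not_congr (hjo s hsT d hd)))
  · refine imp_congr_right (fun hxT => ?_)
    refine or_congr (and_congr (not_congr (hcoin x hx)) ?_) (and_congr (hcoin x hx) ?_)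
    · exact exists_congr (fun d => and_congr_right (fun hd => hjo x hxT d hd))
    · refine or_congr Iff.rfl (or_congr Iff.rfl ?_)
      exact exists_congr (fun d => and_congr_right (fun hd => hfi x hx d hd))

theorem pathpr_wt_dep [Fintype V] (h3 : St_SUPPM) {u c w : V} {x y z : ℕ} (hx : x ≤ T) :
    Dep (fun ω : Lab V T N => Wt nb P c (ch2 nb u c w) x y z ω)
      (lab (Site nb (3 * T + 3) u c w)) := by
  classical
  intro ω ω' h
  have hsub : ∀ d ∈ ch2 nb u c w, ∀ i ∈ (lab (Br nb (3 * T + 3) c d) : Set (V × Fin T)),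
      ω i = ω' i := by
    intro d hd i hi
    refine h i ?_
    unfold lab Site at *
    rw [Set.mem_setOf_eq] at *
    exact Finset.mem_union_right _ (Finset.mem_biUnion.mpr ⟨d, hd, hi⟩)
  refine pathpr_wt hx ?_ ?_ ?_ ?_
  · intro t
    refine h _ ?_
    unfold lab Site
    rw [Set.mem_setOf_eq]
    exact Finset.mem_union_left _ (Finset.mem_singleton_self c)
  · intro s hs d hd
    exact (h3 V nb T N P (3 * T + 3) s c d).1 (by omega) ω ω' (hsub d hd)
  · intro s hs d hd
    exact (h3 V nb T N P (3 * T + 3) s c d).2.1 (by omega) ω ω' (hsub d hd)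
  · intro s hs d hd
    exact (h3 V nb T N P (3 * T + 3) s c d).2.2 (by omega) ω ω' (hsub d hd)

theorem pathpr_evl_dep [Fintype V] (h3 : St_SUPPM) (l : List V) : ∀ (y x : ℕ), x ≤ T →
    Dep (fun ω : Lab V T N => EvL nb P ω l y x) (lab (SL nb (3 * T + 3) l)) := by
  classical
  induction l with
  | nil => intro y x _ ω ω' _; exact Iff.rfl
  | cons u l1 ih =>
    match l1, ih with
    | [], _ => intro y x _ ω ω' _; exact Iff.rfl
    | [_], _ => intro y x _ ω ω' _; exact Iff.rfl
    | c :: w :: l, ih =>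
      intro y x hx ω ω' h
      show (∃ z ≤ T, Wt nb P c (ch2 nb u c w) x y z ω ∧ EvL nb P ω (c :: w :: l) x z) ↔
        (∃ z ≤ T, Wt nb P c (ch2 nb u c w) x y z ω' ∧ EvL nb P ω' (c :: w :: l) x z)
      refine exists_congr (fun z => and_congr_right (fun hz => and_congr ?_ ?_))
      · refine pathpr_wt_dep h3 hx ω ω' (fun i hi => h i ?_)
        have hi' : i.1 ∈ Site nb (3 * T + 3) u c w := hi
        show i.1 ∈ Site nb (3 * T + 3) u c w ∪ SL nb (3 * T + 3) (c :: w :: l)
        exact Finset.mem_union_left _ hi'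
      · refine ih x z hz ω ω' (fun i hi => h i ?_)
        have hi' : i.1 ∈ SL nb (3 * T + 3) (c :: w :: l) := hi
        show i.1 ∈ Site nb (3 * T + 3) u c w ∪ SL nb (3 * T + 3) (c :: w :: l)
        exact Finset.mem_union_right _ hi'

theorem pathpr_uniq {M M' : ℕ} (h : M' ≤ M) (hU : Uniq nb M) : Uniq nb M' :=
  fun l l' h1 h2 h3 h4 => hU l l' h1 h2 (h3.trans h) (h4.trans h)

theorem pathpr_nbw1 {a b : V} {l : List V} (h : NBW nb (a :: b :: l)) : b ∈ nb a := by
  cases l with
  | nil => exact h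
  | cons c l => exact h.1

end PATHPRaux

theorem pathpr_proof (h1 : St_PROB) (h3 : St_SUPPM) (h4 : St_DISJ) (h8 : St_WPR) : St_PATHPR := by
  classical
  intro V _ nb hnb T N P S hN hP hp hM l
  have hNe : Nonempty (Fin N) := ⟨⟨0, hN⟩⟩
  obtain ⟨hp1, hp2, _, hp4, hp5, _⟩ := h1 (V × Fin T) (Fin N)
  induction l with
  | nil =>
    intro _ _ y _ x _
    exact (hp1 _).2
  | cons u l1 ih =>
    match l1, ih with
    | [], _ =>
      intro _ _ y _ x _
      exact (hp1 _).2
    | [_], _ =>
      intro _ _ y _ x _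
      exact (hp1 _).2
    | c :: w :: l, ih =>
      intro hW hU y hy x hx
      obtain ⟨hcu, huw, hW'⟩ : c ∈ nb u ∧ u ≠ w ∧ NBW nb (c :: w :: l) := hW
      have hWall : NBW nb (u :: c :: w :: l) := ⟨hcu, huw, hW'⟩
      have hlen1 : (u :: c :: w :: l).length = l.length + 3 := rfl
      have hlen2 : (c :: w :: l).length = l.length + 2 := rfl
      rw [hlen1] at hU
      have hIH := ih hW' (pathpr_uniq (by rw [hlen2]; omega) hU)
      have hdis : Disjoint (Site nb (3 * T + 3) u c w) (SL nb (3 * T + 3) (c :: w :: l)) :=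
        (h4 V nb hnb (l.length + 3 + 3 * T + 12) (3 * T + 3) hU).2 u c w l hWall (by omega)
      have hdis' : Disjoint (lab (T := T) (Site nb (3 * T + 3) u c w))
          (lab (SL nb (3 * T + 3) (c :: w :: l))) := by
        rw [Set.disjoint_left]
        intro i hi hi'
        exact (Finset.disjoint_left.mp hdis) hi hi'
      have hQ : Q S T ((u :: c :: w :: l).length - 2) x y =
          ∑ z ∈ range (T + 1), wt S T x y z * Q S T l.length z x := rfl
      rw [hQ]
      have hE : (fun ω : Lab V T N => EvL nb P ω (u :: c :: w :: l) y x) =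
          fun ω : Lab V T N => ∃ z ∈ range (T + 1),
            Wt nb P c (ch2 nb u c w) x y z ω ∧ EvL nb P ω (c :: w :: l) x z := by
        funext ω
        show (∃ z ≤ T, Wt nb P c (ch2 nb u c w) x y z ω ∧ EvL nb P ω (c :: w :: l) x z) = _
        apply propext
        refine exists_congr (fun z => and_congr ?_ Iff.rfl)
        rw [Finset.mem_range]
        omega
      rw [hE]
      refine (hp4 ℕ (range (T + 1)) _).trans ?_
      refine Finset.sum_le_sum (fun z hz => ?_)
      have hzT : z ≤ T := by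
        rw [Finset.mem_range] at hz
        omega
      have hprod := hp5 (fun ω : Lab V T N => Wt nb P c (ch2 nb u c w) x y z ω)
        (fun ω : Lab V T N => EvL nb P ω (c :: w :: l) x z) _ _
        (pathpr_wt_dep h3 hx) (pathpr_evl_dep h3 (c :: w :: l) x z hzT) hdis'
      rw [hprod]
      have hw1 := h8 V nb hnb T N P S hN hP hp hM (pathpr_uniq (by omega) hU) c u
        (hnb.symm _ _ hcu) w (pathpr_nbw1 hW') huw x hx y hy z hzT
      have hw2 := hIH x hx z hzT
      have hA := (hp1 (fun ω : Lab V T N => Wt nb P c (ch2 nb u c w) x y z ω)).1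
      have hB := (hp1 (fun ω : Lab V T N => EvL nb P ω (c :: w :: l) x z)).1
      exact mul_le_mul hw1 hw2 hB (hA.trans hw1)

end Pool.Agent.H958R2.GK
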