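import Pool.Agent.H958R2.GK.Stubs

set_option autoImplicit false

/-!
# PD: exit times of a walk which avoids the independent set
-/

open Finset

namespace Pool.Agent.H958R2.GK

section

variable {V : Type} {T N : ℕ} {nb : V → Finset V} {P : ℕ → ℕ → ℕ} {ω : Lab V T N}

theorem pd_anti {s s' : ℕ} (h : s ≤ s') {v : V} (hv : lv nb P ω s' v) : lv nb P ω s v := by
  induction s' with
  | zero =>
    obtain rfl : s = 0 := by omega
    exact hv
  | succ s' ih =>
    rcases Nat.lt_or_ge s (s' + 1) with h' | h'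
    · exact ih (by omega) hv.1
    · obtain rfl : s = s' + 1 := by omega
      exact hv

variable (nb P ω) in
open Classical in
/-- exit time -/
noncomputable def pdex (v : V) : ℕ := Nat.findGreatest (fun s => lv nb P ω s v) T

theorem pdex_le (v : V) : pdex nb P ω v ≤ T := by
  classical
  unfold pdex
  exact Nat.findGreatest_le _

open Classical in
theorem pd_lv {s : ℕ} (hs : s ≤ T) (v : V) : lv nb P ω s v ↔ s ≤ pdex nb P ω v := by
  constructor
  · intro h
    exact Nat.le_findGreatest hs h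
  · intro h
    have h1 : lv nb P ω (pdex nb P ω v) v :=
      Nat.findGreatest_spec (P := fun s => lv nb P ω s v) (m := 0) (Nat.zero_le _) trivial
    exact pd_anti h h1

theorem pd_mem {u c w d : V} : d ∈ ch2 nb u c w ↔ d ∈ nb c ∧ d ≠ u ∧ d ≠ w := by
  unfold ch2
  simp

open Classical in
theorem pd_cn [Fintype V] (h : St_CONS) (hnb : Nb4 nb) {u c w : V} (hu : u ∈ nb c) (hw : w ∈ nb c)
    (huw : u ≠ w) {s : ℕ} (hs : s ≤ T) (hc : lv nb P ω s c) :
    cn (nb c) (lv nb P ω s) = mm (pdex nb P ω u) (pdex nb P ω w) s +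
      cn (ch2 nb u c w) (al nb P ω s c) := by
  have h1 : (nb c).filter (lv nb P ω s) = (({u, w} : Finset V).filter (lv nb P ω s)) ∪
      ((ch2 nb u c w).filter (al nb P ω s c)) := by
    ext e
    simp only [mem_filter, mem_union, mem_insert, mem_singleton, pd_mem]
    constructor
    · rintro ⟨h1, h2⟩
      by_cases heu : e = u
      · exact Or.inl ⟨Or.inl heu, h2⟩
      · by_cases hew : e = w
        · exact Or.inl ⟨Or.inr hew, h2⟩
        · exact Or.inr ⟨⟨h1, heu, hew⟩, (h V nb hnb T N P ω s c hc e h1).1.1 h2⟩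
    · rintro (⟨(rfl | rfl), h2⟩ | ⟨⟨h1, h2, h3⟩, h4⟩)
      · exact ⟨hu, h2⟩
      · exact ⟨hw, h2⟩
      · exact ⟨h1, (h V nb hnb T N P ω s c hc e h1).1.2 h4⟩
  have h2 : Disjoint (({u, w} : Finset V).filter (lv nb P ω s))
      ((ch2 nb u c w).filter (al nb P ω s c)) := by
    rw [Finset.disjoint_left]
    intro e he he'
    simp only [mem_filter, mem_insert, mem_singleton, pd_mem] at he he'
    rcases he.1 with rfl | rfl
    · exact he'.1.2.1 rfl
    · exact he'.1.2.2 rfl
  unfold cn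
  rw [h1, card_union_of_disjoint h2]
  congr 1
  unfold mm
  have b1 := pd_lv (nb := nb) (P := P) (ω := ω) hs u
  have b2 := pd_lv (nb := nb) (P := P) (ω := ω) hs w
  rw [filter_insert, filter_singleton]
  by_cases a1 : lv nb P ω s u
  · have c1 := b1.1 a1
    by_cases a2 : lv nb P ω s w
    · have c2 := b2.1 a2
      simp [a1, a2, c1, c2, huw]
    · have c2 : ¬ (s ≤ pdex nb P ω w) := fun h' => a2 (b2.2 h')
      simp [a1, a2, c1, c2]
  · have c1 : ¬ (s ≤ pdex nb P ω u) := fun h' => a1 (b1.2 h')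
    by_cases a2 : lv nb P ω s w
    · have c2 := b2.1 a2
      simp [a1, a2, c1, c2]
    · have c2 : ¬ (s ≤ pdex nb P ω w) := fun h' => a2 (b2.2 h')
      simp [a1, a2, c1, c2]

theorem pd_Wt [Fintype V] (h : St_CONS) (hnb : Nb4 nb) {u c w : V} (hu : u ∈ nb c) (hw : w ∈ nb c)
    (huw : u ≠ w) (hui : ¬ inI nb P ω u) (hci : ¬ inI nb P ω c) (hwi : ¬ inI nb P ω w) :
    Wt nb P c (ch2 nb u c w) (pdex nb P ω c) (pdex nb P ω u) (pdex nb P ω w) ω := by
  have hxT := pdex_le (nb := nb) (P := P) (ω := ω) c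
  refine ⟨fun s hs => ?_, fun hx => ?_⟩
  · obtain ⟨h1, h2, h3⟩ : lv nb P ω (s + 1) c := (pd_lv (by omega) c).2 (by omega)
    have hsT : s ≤ T := by omega
    have h4 := pd_cn h hnb hu hw huw hsT h1
    refine ⟨fun hcoin => h2 ⟨h1, ?_⟩, fun d hd hj => ?_⟩
    · rw [h4]; exact hcoin
    · have hd' := pd_mem.1 hd
      exact h3 d hd'.1 (((h V nb hnb T N P ω s c h1 d hd'.1).2.2 h2).2 hj)
  · have hc1 : lv nb P ω (pdex nb P ω c) c := (pd_lv hxT c).2 le_rfl
    have hc2 : ¬ lv nb P ω (pdex nb P ω c + 1) c := fun h' => by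
      have := (pd_lv (T := T) (by omega) c).1 h'
      omega
    have h4 := pd_cn h hnb hu hw huw hxT hc1
    have leave : ∀ e, fr nb P ω (pdex nb P ω c) (lv nb P ω (pdex nb P ω c)) e →
        pdex nb P ω e = pdex nb P ω c := by
      intro e he
      have e1 := (pd_lv hxT e).1 he.1
      have e2 : ¬ lv nb P ω (pdex nb P ω c + 1) e := fun h' => h'.2.1 he
      have e3 : ¬ (pdex nb P ω c + 1 ≤ pdex nb P ω e) := fun h' =>
        e2 ((pd_lv (T := T) (by omega) e).2 h')
      omega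
    by_cases hf : fr nb P ω (pdex nb P ω c) (lv nb P ω (pdex nb P ω c)) c
    · right
      refine ⟨by rw [← h4]; exact hf.2, ?_⟩
      have hj : ¬ jn nb P ω (pdex nb P ω c) (lv nb P ω (pdex nb P ω c)) c := fun h' =>
        hci ⟨_, h'⟩
      have : ∃ e ∈ nb c, fr nb P ω (pdex nb P ω c) (lv nb P ω (pdex nb P ω c)) e := by
        by_contra hcon
        push Not at hcon
        exact hj ⟨hf, hcon⟩
      obtain ⟨e, he, hfe⟩ := this
      by_cases heu : e = u
      · subst heu
        exact Or.inl (leave e hfe)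
      · by_cases hew : e = w
        · subst hew
          exact Or.inr (Or.inl (leave e hfe))
        · exact Or.inr (Or.inr ⟨e, pd_mem.2 ⟨he, heu, hew⟩,
            (h V nb hnb T N P ω _ c hc1 e he).2.1.1 hfe⟩)
    · left
      refine ⟨fun hcoin => hf ⟨hc1, by rw [h4]; exact hcoin⟩, ?_⟩
      have : ∃ e ∈ nb c, jn nb P ω (pdex nb P ω c) (lv nb P ω (pdex nb P ω c)) e := by
        by_contra hcon
        push Not at hcon
        exact hc2 ⟨hc1, hf, hcon⟩
      obtain ⟨e, he, hje⟩ := this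
      have heu : e ≠ u := fun h' => hui ⟨_, h' ▸ hje⟩
      have hew : e ≠ w := fun h' => hwi ⟨_, h' ▸ hje⟩
      exact ⟨e, pd_mem.2 ⟨he, heu, hew⟩, ((h V nb hnb T N P ω _ c hc1 e he).2.2 hf).1 hje⟩

theorem pd_EvL [Fintype V] (h : St_CONS) (hnb : Nb4 nb) (l : List V) : ∀ u c : V,
    NBW nb (u :: c :: l) → (∀ v ∈ u :: c :: l, ¬ inI nb P ω v) →
    EvL nb P ω (u :: c :: l) (pdex nb P ω u) (pdex nb P ω c) := by
  induction l with
  | nil => exact fun u c _ _ => trivial
  | cons w l ih =>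
    intro u c hl hI
    obtain ⟨h1, h2, h3⟩ := hl
    have hw : w ∈ nb c := by
      cases l with
      | nil => exact h3
      | cons a l => exact h3.1
    refine ⟨pdex nb P ω w, pdex_le w, ?_, ih c w h3 fun v hv => hI v (List.mem_cons_of_mem _ hv)⟩
    exact pd_Wt h hnb (hnb.symm u c h1) hw h2 (hI u (by simp)) (hI c (by simp)) (hI w (by simp))

end

theorem pd_proof (h : St_CONS) : St_PD := by
  intro V _ nb hnb T N P ω l hl hI
  match l, hl, hI with
  | [], _, _ => exact ⟨0, Nat.zero_le _, 0, Nat.zero_le _, trivial⟩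
  | [_], _, _ => exact ⟨0, Nat.zero_le _, 0, Nat.zero_le _, trivial⟩
  | u :: c :: l, hl, hI =>
    exact ⟨_, pdex_le u, _, pdex_le c, pd_EvL h hnb l u c hl hI⟩

end Pool.Agent.H958R2.GK
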