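import Pool.Agent.H958R2.GK.GL

set_option autoImplicit false

/-!
# Task SITE: probability that a site lives in spite of the children outside `J`
-/

open Finset

namespace Pool.Agent.H958R2.GK

/-- the event that `d` leaves in round `t` silently depends on the branch of `d`. -/
theorem site_dep_sil (h3 : St_SUPPM) {V : Type} [Fintype V] (nb : V → Finset V) {T N : ℕ}
    (P : ℕ → ℕ → ℕ) {R : ℕ} (hR : 3 * T + 3 ≤ R) {t : ℕ} (ht : t < T) (c d : V) :
    Dep (fun ω : Lab V T N => sil nb P ω t c d) (lab (Br nb R c d)) := by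
  intro ω ω' hw
  have e1 := (h3 V nb T N P R t c d).1 (by omega) ω ω' hw
  have e2 := (h3 V nb T N P R (t + 1) c d).1 (by omega) ω ω' hw
  have e3 := (h3 V nb T N P R t c d).2.2 (by omega) ω ω' hw
  simp only at e1 e2 e3
  simp only [sil]
  rw [e1, e2, e3]

open Classical in
/-- one step: the children that live until `t` leave silently in round `t`. -/
theorem site_step {V : Type} {T N : ℕ} (nb : V → Finset V) (P : ℕ → ℕ → ℕ) (c : V)
    (D : Finset V) (m : ℕ → ℕ) (t : ℕ) (J : Finset V) (ω : Lab V T N)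
    (h : Ue nb P c D m (t + 1) J ω) :
    ∃ B ∈ (D \ J).powerset, Ue nb P c D m t (J ∪ B) ω ∧
      (¬ coin P ω c t (m t + (J.card + B.card)) ∧ ∀ d ∈ B, sil nb P ω t c d) := by
  obtain ⟨h1, h2⟩ := h
  refine ⟨(D \ J).filter (fun d => al nb P ω t c d), mem_powerset.2 (filter_subset _ _), ?_⟩
  set B := (D \ J).filter (fun d => al nb P ω t c d) with hB
  have hBs : B ⊆ D \ J := filter_subset _ _
  have hBal : ∀ d ∈ B, al nb P ω t c d := fun d hd => (mem_filter.1 hd).2
  have hdisj : Disjoint J B := by
    rw [Finset.disjoint_left]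
    intro a ha hb
    exact (mem_sdiff.1 (hBs hb)).2 ha
  have hcard : (J ∪ B).card = J.card + B.card := card_union_of_disjoint hdisj
  have hsd : (D \ J) \ B = D \ (J ∪ B) := by
    ext d
    simp only [mem_sdiff, mem_union, not_or]
    tauto
  have hsplit : ∀ s ≤ t, J.card + cn (D \ J) (al nb P ω s c) =
      (J ∪ B).card + cn (D \ (J ∪ B)) (al nb P ω s c) := by
    intro s hs
    rw [dd_cn_split (D \ J) B (al nb P ω s c) hBs
      (fun d hd => dd_al_mono nb P ω hs c d (hBal d hd)), hcard, hsd]
    omega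
  have hdead : ∀ d ∈ D \ (J ∪ B), ¬ al nb P ω t c d := by
    intro d hd hal
    obtain ⟨h3, h4⟩ := mem_sdiff.1 hd
    rw [mem_union, not_or] at h4
    exact h4.2 (mem_filter.2 ⟨mem_sdiff.2 ⟨h3, h4.1⟩, hal⟩)
  refine ⟨⟨?_, hdead⟩, ?_, ?_⟩
  · intro s hs
    obtain ⟨h3, h4⟩ := h1 s (by omega)
    refine ⟨?_, ?_⟩
    · rw [← hsplit s hs.le]
      exact h3
    · intro d hd
      apply h4 d
      rw [← hsd] at hd
      exact (mem_sdiff.1 hd).1
  · obtain ⟨h3, -⟩ := h1 t (Nat.lt_succ_self t)
    rw [hsplit t le_rfl, hcard] at h3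
    have h5 : cn (D \ (J ∪ B)) (al nb P ω t c) = 0 := by
      unfold cn
      rw [card_eq_zero, filter_eq_empty_iff]
      intro d hd
      exact hdead d hd
    rw [h5, add_zero] at h3
    exact h3
  · intro d hd
    refine ⟨hBal d hd, h2 d (hBs hd), ?_⟩
    exact (h1 t (Nat.lt_succ_self t)).2 d (hBs hd)

theorem site_proof (h1 : St_PROB) (h2 : St_COIN) (h3 : St_SUPPM) : St_SITE := by
  intro V _ nb T N P hN hP R c D hL m xs v T' hT' hv hxs hv0 hrec hsil t
  classical
  have : Nonempty (Fin N) := ⟨⟨0, hN⟩⟩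
  obtain ⟨h01, hmono, -, hunion, -, -⟩ := h1 (V × Fin T) (Fin N)
  induction t with
  | zero =>
    intro _ J hJ
    by_cases hJD : J = D
    · subst hJD
      exact (h01 _).2.trans hv0
    · have hex : ∃ d ∈ D, d ∉ J := by
        by_contra hcon
        push Not at hcon
        exact hJD (Finset.Subset.antisymm hJ hcon)
      obtain ⟨d, hd, hdJ⟩ := hex
      have e1 : Pr (fun ω : Lab V T N => Ue nb P c D m 0 J ω) ≤
          Pr (fun ω : Lab V T N => ∃ k ∈ (∅ : Finset ℕ), False) := by
        apply hmono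
        intro ω hω
        exact absurd trivial (hω.2 d (mem_sdiff.2 ⟨hd, hdJ⟩))
      refine e1.trans ?_
      have e2 := hunion ℕ ∅ (fun _ _ => False)
      refine e2.trans ?_
      rw [sum_empty]
      exact hv _ _
  | succ t ih =>
    intro ht J hJ
    have htT : t < T := by omega
    have ih' := ih (by omega)
    have e1 : Pr (fun ω : Lab V T N => Ue nb P c D m (t + 1) J ω) ≤
        Pr (fun ω : Lab V T N => ∃ B ∈ (D \ J).powerset, Ue nb P c D m t (J ∪ B) ω ∧
          (¬ coin P ω c t (m t + (J.card + B.card)) ∧ ∀ d ∈ B, sil nb P ω t c d)) := by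
      apply hmono
      intro ω hω
      exact site_step nb P c D m t J ω hω
    refine e1.trans ?_
    clear e1
    have e2 := hunion (Finset V) (D \ J).powerset (fun B (ω : Lab V T N) =>
      Ue nb P c D m t (J ∪ B) ω ∧
          (¬ coin P ω c t (m t + (J.card + B.card)) ∧ ∀ d ∈ B, sil nb P ω t c d))
    refine e2.trans ?_
    clear e2
    have e3 : ∀ B ∈ (D \ J).powerset, Pr (fun ω : Lab V T N => Ue nb P c D m t (J ∪ B) ω ∧
          (¬ coin P ω c t (m t + (J.card + B.card)) ∧ ∀ d ∈ B, sil nb P ω t c d)) ≤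
        v t (J.card + B.card) * ((1 - (P t (m t + (J.card + B.card)) : ℝ) / N) *
          (xs t) ^ B.card) := by
      intro B hB
      have hB' := mem_powerset.1 hB
      have hJB : J ∪ B ⊆ D := union_subset hJ (fun d hd => (mem_sdiff.1 (hB' hd)).1)
      have hdisj : Disjoint J B := by
        rw [Finset.disjoint_left]
        intro a ha hb
        exact (mem_sdiff.1 (hB' hb)).2 ha
      have hcard : (J ∪ B).card = J.card + B.card := card_union_of_disjoint hdisj
      have hc := h2 V T N P hN hP c t (m t + (J.card + B.card))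
      have := gl_le h1 h3 nb P hN hL m htT.le (J ∪ B) B hJB subset_union_right
        (fun ω => ¬ coin P ω c t (m t + (J.card + B.card))) (gl_dep_not hc.1)
        (fun d ω => sil nb P ω t c d) (fun d _ => site_dep_sil h3 nb P hL.hR htT c d)
        (v t (J.card + B.card)) (1 - (P t (m t + (J.card + B.card)) : ℝ) / N)
        (fun _ => xs t) (by rw [← hcard]; exact ih' (J ∪ B) hJB) (hc.2 htT).2.le
        (fun d hd => hsil t (by omega) d (hJB (mem_union_right _ hd)))
      rwa [prod_const] at this
    refine (sum_le_sum e3).trans ?_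
    rw [sum_powerset_apply_card (fun i => v t (J.card + i) *
      ((1 - (P t (m t + (J.card + i)) : ℝ) / N) * (xs t) ^ i))]
    have hJc : J.card ≤ D.card := card_le_card hJ
    have hsd : (D \ J).card = D.card - J.card := card_sdiff_of_subset hJ
    rw [hsd, show D.card - J.card + 1 = D.card + 1 - J.card by omega]
    refine le_trans (le_of_eq ?_) (hrec t (by omega) J.card hJc)
    apply sum_congr rfl
    intro i _
    rw [nsmul_eq_mul]
    ring

end Pool.Agent.H958R2.GK
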