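import Pool.Agent.H958R2.GK.Stubs

set_option autoImplicit false

open Finset

namespace Pool.Agent.H958R2.GK

theorem SUPPI_self {V : Type} (nb : V → Finset V) (k : ℕ) (v : V) : v ∈ Bl nb k v := by
  classical
  cases k with
  | zero => simp [Bl]
  | succ k => simp [Bl]

theorem SUPPI_step {V : Type} (nb : V → Finset V) (k : ℕ) (v d : V) (hd : d ∈ nb v) :
    Bl nb k d ⊆ Bl nb (k + 1) v := by
  classical
  intro e he
  simp only [Bl, Finset.mem_union, Finset.mem_singleton, Finset.mem_biUnion]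
  exact Or.inr ⟨d, hd, he⟩

theorem SUPPI_cn {V : Type} (D : Finset V) (R R' : V → Prop) (h : ∀ d ∈ D, (R d ↔ R' d)) :
    cn D R = cn D R' := by
  classical
  unfold cn
  congr 1
  exact Finset.filter_congr h

/-- The labels agree on the ball. -/
def SUPPI_ag {V : Type} {T N : ℕ} (nb : V → Finset V) (ω ω' : Lab V T N) (k : ℕ) (v : V) : Prop :=
  ∀ u ∈ Bl nb k v, ∀ s, ω (u, s) = ω' (u, s)

theorem SUPPI_ag_nb {V : Type} {T N : ℕ} {nb : V → Finset V} {ω ω' : Lab V T N} {k : ℕ} {v d : V}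
    (h : SUPPI_ag nb ω ω' (k + 1) v) (hd : d ∈ nb v) : SUPPI_ag nb ω ω' k d :=
  fun u hu s => h u (SUPPI_step nb k v d hd hu) s

theorem SUPPI_coin {V : Type} {T N : ℕ} {P : ℕ → ℕ → ℕ} {nb : V → Finset V} {ω ω' : Lab V T N}
    {k : ℕ} {v : V} (h : SUPPI_ag nb ω ω' k v) (t j : ℕ) :
    coin P ω v t j ↔ coin P ω' v t j := by
  unfold coin
  constructor
  · rintro ⟨ht, hc⟩
    exact ⟨ht, by rw [← h v (SUPPI_self nb k v) ⟨t, ht⟩]; exact hc⟩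
  · rintro ⟨ht, hc⟩
    exact ⟨ht, by rw [h v (SUPPI_self nb k v) ⟨t, ht⟩]; exact hc⟩

theorem SUPPI_fr {V : Type} {T N : ℕ} {P : ℕ → ℕ → ℕ} {nb : V → Finset V} {ω ω' : Lab V T N}
    {t : ℕ} (hl : ∀ k, 3 * t ≤ k → ∀ v, SUPPI_ag nb ω ω' k v →
      (lv nb P ω t v ↔ lv nb P ω' t v)) :
    ∀ k, 3 * t + 1 ≤ k → ∀ v, SUPPI_ag nb ω ω' k v →
      (fr nb P ω t (lv nb P ω t) v ↔ fr nb P ω' t (lv nb P ω' t) v) := by
  intro k hk v h
  obtain ⟨k, rfl⟩ : ∃ k', k = k' + 1 := ⟨k - 1, by omega⟩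
  unfold fr
  rw [hl (k + 1) (by omega) v h, SUPPI_cn (nb v) (lv nb P ω t) (lv nb P ω' t)
    (fun d hd => hl k (by omega) d (SUPPI_ag_nb h hd)), SUPPI_coin h]

theorem SUPPI_jn {V : Type} {T N : ℕ} {P : ℕ → ℕ → ℕ} {nb : V → Finset V} {ω ω' : Lab V T N}
    {t : ℕ} (hl : ∀ k, 3 * t ≤ k → ∀ v, SUPPI_ag nb ω ω' k v →
      (lv nb P ω t v ↔ lv nb P ω' t v)) :
    ∀ k, 3 * t + 2 ≤ k → ∀ v, SUPPI_ag nb ω ω' k v →
      (jn nb P ω t (lv nb P ω t) v ↔ jn nb P ω' t (lv nb P ω' t) v) := by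
  intro k hk v h
  obtain ⟨k, rfl⟩ : ∃ k', k = k' + 1 := ⟨k - 1, by omega⟩
  unfold jn
  rw [SUPPI_fr hl (k + 1) (by omega) v h]
  refine and_congr_right fun _ => ?_
  refine forall₂_congr fun d hd => ?_
  rw [SUPPI_fr hl k (by omega) d (SUPPI_ag_nb h hd)]

theorem SUPPI_lv {V : Type} {T N : ℕ} (P : ℕ → ℕ → ℕ) (nb : V → Finset V) (ω ω' : Lab V T N) :
    ∀ t k, 3 * t ≤ k → ∀ v, SUPPI_ag nb ω ω' k v → (lv nb P ω t v ↔ lv nb P ω' t v) := by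
  intro t
  induction t with
  | zero => intro k _ v _; exact Iff.rfl
  | succ t ih =>
    intro k hk v h
    obtain ⟨k, rfl⟩ : ∃ k', k = k' + 1 := ⟨k - 1, by omega⟩
    show (lv nb P ω t v ∧ ¬ fr nb P ω t (lv nb P ω t) v ∧ ∀ d ∈ nb v,
        ¬ jn nb P ω t (lv nb P ω t) d) ↔
      (lv nb P ω' t v ∧ ¬ fr nb P ω' t (lv nb P ω' t) v ∧ ∀ d ∈ nb v,
        ¬ jn nb P ω' t (lv nb P ω' t) d)
    rw [ih (k + 1) (by omega) v h, SUPPI_fr ih (k + 1) (by omega) v h]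
    refine and_congr_right fun _ => and_congr_right fun _ => ?_
    refine forall₂_congr fun d hd => ?_
    rw [SUPPI_jn ih k (by omega) d (SUPPI_ag_nb h hd)]

theorem suppi_proof : St_SUPPI := by
  intro V _ nb T N P v ω ω' h
  have hag : SUPPI_ag nb ω ω' (3 * T + 3) v := fun u hu s => h (u, s) hu
  have key : ∀ t, t < T → (jn nb P ω t (lv nb P ω t) v ↔ jn nb P ω' t (lv nb P ω' t) v) :=
    fun t ht => SUPPI_jn (SUPPI_lv P nb ω ω' t) (3 * T + 3) (by omega) v hag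
  constructor
  · rintro ⟨t, ht⟩
    have hT : t < T := by
      obtain ⟨hT, -⟩ := ht.1.2
      exact hT
    exact ⟨t, (key t hT).mp ht⟩
  · rintro ⟨t, ht⟩
    have hT : t < T := by
      obtain ⟨hT, -⟩ := ht.1.2
      exact hT
    exact ⟨t, (key t hT).mpr ht⟩

end Pool.Agent.H958R2.GK
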