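import Pool.Agent.H958R2.GK.Stubs

set_option autoImplicit false

/-!
# SUPPM: the labels on which the messages depend
-/

open Finset

namespace Pool.Agent.H958R2.GK

namespace SUPPMaux

variable {V : Type} {T N : ℕ} {nb : V → Finset V} {P : ℕ → ℕ → ℕ}

theorem mem_Br_self (k : ℕ) (v c : V) : c ∈ Br nb k v c := by
  classical
  cases k with
  | zero => simp [Br]
  | succ k => simp [Br]

theorem Br_child (k : ℕ) {v c d : V} (hd : d ∈ ch nb v c) : Br nb k c d ⊆ Br nb (k + 1) v c := by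
  classical
  intro x hx
  simp only [Br, mem_union, mem_singleton, mem_biUnion]
  right
  exact ⟨d, hd, hx⟩

theorem cn_congr {D : Finset V} {R R' : V → Prop} (h : ∀ d ∈ D, (R d ↔ R' d)) :
    cn D R = cn D R' := by
  classical
  unfold cn
  congr 1
  exact Finset.filter_congr h

/-- agreement of labels on a set of vertices -/
def Ag (A : Finset V) (ω ω' : Lab V T N) : Prop := ∀ i ∈ (lab A : Set (V × Fin T)), ω i = ω' i

theorem Ag.mono {A B : Finset V} (hAB : A ⊆ B) {ω ω' : Lab V T N} (h : Ag B ω ω') : Ag A ω ω' :=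
  fun i hi => h i (hAB hi)

theorem coin_congr {A : Finset V} {ω ω' : Lab V T N} (h : Ag A ω ω') {c : V} (hc : c ∈ A) (t k : ℕ) :
    coin P ω c t k ↔ coin P ω' c t k := by
  unfold coin
  constructor
  · rintro ⟨ht, hlt⟩
    refine ⟨ht, ?_⟩
    rwa [← h (c, ⟨t, ht⟩) hc]
  · rintro ⟨ht, hlt⟩
    refine ⟨ht, ?_⟩
    rwa [h (c, ⟨t, ht⟩) hc]

variable {ω ω' : Lab V T N}

theorem step_fi {t : ℕ} (hA : ∀ (R : ℕ) (v c : V), 3 * t ≤ R → Ag (Br nb R v c) ω ω' →
    (al nb P ω t v c ↔ al nb P ω' t v c)) (R : ℕ) (v c : V) (hR : 3 * t + 1 ≤ R)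
    (h : Ag (Br nb R v c) ω ω') : fi nb P ω t v c ↔ fi nb P ω' t v c := by
  obtain ⟨R', rfl⟩ : ∃ R', R = R' + 1 := ⟨R - 1, by omega⟩
  unfold fi FI
  have h1 := hA (R' + 1) v c (by omega) h
  have h2 : cn (ch nb v c) (al nb P ω t c) = cn (ch nb v c) (al nb P ω' t c) :=
    cn_congr fun d hd => hA R' c d (by omega) (h.mono (Br_child R' hd))
  rw [h1, h2, coin_congr h (mem_Br_self _ _ _)]

theorem step_jo {t : ℕ} (hA : ∀ (R : ℕ) (v c : V), 3 * t ≤ R → Ag (Br nb R v c) ω ω' →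
    (al nb P ω t v c ↔ al nb P ω' t v c)) (R : ℕ) (v c : V) (hR : 3 * t + 2 ≤ R)
    (h : Ag (Br nb R v c) ω ω') : jo nb P ω t v c ↔ jo nb P ω' t v c := by
  obtain ⟨R', rfl⟩ : ∃ R', R = R' + 1 := ⟨R - 1, by omega⟩
  have h1 := step_fi hA (R' + 1) v c (by omega) h
  have h2 : ∀ d ∈ ch nb v c, (fi nb P ω t c d ↔ fi nb P ω' t c d) := fun d hd =>
    step_fi hA R' c d (by omega) (h.mono (Br_child R' hd))
  unfold fi at h1 h2
  unfold jo JO
  rw [h1]
  refine and_congr_right fun _ => ?_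
  exact forall₂_congr fun d hd => not_congr (h2 d hd)

theorem all_al (t : ℕ) : ∀ (R : ℕ) (v c : V), 3 * t ≤ R → Ag (Br nb R v c) ω ω' →
    (al nb P ω t v c ↔ al nb P ω' t v c) := by
  induction t with
  | zero => intro R v c _ _; exact Iff.rfl
  | succ t ih =>
    intro R v c hR h
    obtain ⟨R', rfl⟩ : ∃ R', R = R' + 1 := ⟨R - 1, by omega⟩
    have h1 := ih (R' + 1) v c (by omega) h
    have h2 := step_fi ih (R' + 1) v c (by omega) h
    have h3 : ∀ d ∈ ch nb v c, (jo nb P ω t c d ↔ jo nb P ω' t c d) := fun d hd =>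
      step_jo ih R' c d (by omega) (h.mono (Br_child R' hd))
    unfold fi at h2
    unfold jo at h3
    show NX nb P ω t (al nb P ω t) v c ↔ NX nb P ω' t (al nb P ω' t) v c
    unfold NX
    rw [h1, h2]
    refine and_congr_right fun _ => and_congr_right fun _ => ?_
    exact forall₂_congr fun d hd => not_congr (h3 d hd)

end SUPPMaux

open SUPPMaux in
theorem suppm_proof : St_SUPPM := by
  intro V _ nb T N P R t v c
  refine ⟨fun hR ω ω' h => ?_, fun hR ω ω' h => ?_, fun hR ω ω' h => ?_⟩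
  · exact all_al t R v c hR h
  · exact step_fi (all_al t) R v c hR h
  · exact step_jo (all_al t) R v c hR h

end Pool.Agent.H958R2.GK
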