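import Pool.Agent.H958R2.GK.Stubs

set_option autoImplicit false

/-!
# Project GK, task WPR: probability of `Wt`
-/

open Finset

namespace Pool.Agent.H958R2.GK

namespace WPR

theorem stp_nonneg {T : ℕ} {S : Sq} (h : MsgCert T S) (s k : ℕ) (v : ℕ → ℝ) (hv : ∀ j, 0 ≤ v j)
    (j : ℕ) : 0 ≤ stp S s k v j := by
  unfold stp
  apply Finset.sum_nonneg
  intro i _
  have h1 := h.p1 s (k + (j + i))
  exact mul_nonneg (mul_nonneg (mul_nonneg (Nat.cast_nonneg _) (hv _)) (by linarith))
    (pow_nonneg (h.x0 s) _)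

theorem vec_nonneg {T : ℕ} {S : Sq} (h : MsgCert T S) (m : ℕ → ℕ) (s : ℕ) :
    ∀ j, 0 ≤ vec S m s j := by
  induction s with
  | zero =>
    intro j
    simp only [vec]
    split_ifs <;> norm_num
  | succ s ih =>
    intro j
    exact stp_nonneg h s (m s) _ ih j

theorem dep_not {ι C : Type} {E : (ι → C) → Prop} {S : Set ι} (h : Dep E S) :
    Dep (fun ω => ¬ E ω) S := fun ω ω' hω => not_congr (h ω ω' hω)

theorem dep_and {ι C : Type} {E F : (ι → C) → Prop} {S : Set ι} (h : Dep E S) (h' : Dep F S) :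
    Dep (fun ω => E ω ∧ F ω) S := fun ω ω' hω => and_congr (h ω ω' hω) (h' ω ω' hω)

theorem ch2_card {V : Type} {nb : V → Finset V} (h : Nb4 nb) {c u w : V} (hu : u ∈ nb c)
    (hw : w ∈ nb c) (huw : u ≠ w) : (ch2 nb u c w).card = 2 := by
  classical
  have h1 : ch2 nb u c w = ((nb c).erase u).erase w := by
    ext d
    simp only [ch2, mem_filter, mem_erase]
    tauto
  rw [h1, Finset.card_erase_of_mem, Finset.card_erase_of_mem hu, h.card]
  exact Finset.mem_erase.2 ⟨huw.symm, hw⟩

theorem ch2_sub {V : Type} {nb : V → Finset V} {c u w : V} : ch2 nb u c w ⊆ nb c := by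
  intro d hd
  simp only [ch2, mem_filter] at hd
  exact hd.1

end WPR

open WPR in
theorem wpr_proof (h1 : St_PROB) (h2 : St_COIN) (h3 : St_SUPPM) (h4 : St_DISJ) (h5 : St_SITE)
    (h6 : St_GL) (h7 : St_DD) (h8 : St_MSG) : St_WPR := by
  classical
  intro V _ nb hnb T N P S hN hP hp hC hU c u hu w hw huw x hx y hy z hz
  have : Nonempty (Fin N) := ⟨⟨0, hN⟩⟩
  obtain ⟨hb, hmono, hunion, -, -, -⟩ := h1 (V × Fin T) (Fin N)
  set D := ch2 nb u c w with hDdef
  have hDc : D.card = 2 := ch2_card hnb hu hw huw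
  have hDs : D ⊆ nb c := ch2_sub
  set R := 3 * T + 3 with hR
  have hdis := (h4 V nb hnb (3 * T + 6) R hU).1 (by omega) c
  have hLoc : Loc nb T R c D :=
    ⟨fun d hd d' hd' hdd => hdis.1 d (hDs hd) d' (hDs hd') hdd, fun d hd => hdis.2 d (hDs hd),
      le_refl _⟩
  have hmsg : ∀ t ≤ T, ∀ d ∈ D,
    Pr (fun ω : Lab V T N => al nb P ω t c d) ≤ S.a t ∧
    (t < T →
      Pr (fun ω : Lab V T N => fi nb P ω t c d) ≤ S.f t ∧
      Pr (fun ω : Lab V T N => al nb P ω t c d ∧ ¬ fi nb P ω t c d) ≤ S.b t ∧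
      Pr (fun ω : Lab V T N => jo nb P ω t c d) ≤ S.J t ∧
      Pr (fun ω : Lab V T N => al nb P ω t c d ∧ ¬ jo nb P ω t c d) ≤ S.n t ∧
      Pr (fun ω : Lab V T N => sil nb P ω t c d) ≤ S.x t) := by
    intro t ht d hd
    exact h8 V nb hnb T N P S hN hP hp hC hU t ht d c (hnb.symm c d (hDs hd))
  have hvn : ∀ t j, 0 ≤ vec S (mm y z) t j := fun t j => vec_nonneg hC (mm y z) t j
  have hSite : ∀ t ≤ T, ∀ J ⊆ D,
      Pr (fun ω : Lab V T N => Ue nb P c D (mm y z) t J ω) ≤ vec S (mm y z) t J.card := by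
    refine h5 V nb T N P hN hP R c D hLoc (mm y z) S.x (vec S (mm y z)) T le_rfl hvn hC.x0 ?_ ?_ ?_
    · rw [hDc]; simp [vec]
    · intro t ht j hj
      rw [hDc] at hj ⊢
      simp only [vec, stp, hp]
      exact le_refl _
    · intro t ht d hd
      exact ((hmsg t ht.le d hd).2 ht).2.2.2.2
  have hGL := h6 V nb T N P hN R c D hLoc (mm y z) x (vec S (mm y z) x) hx (hvn x) (hSite x hx)
  have hsup := fun (d : V) => h3 V nb T N P R x c d
  have hal : ∀ d ∈ D, Dep (fun ω : Lab V T N => al nb P ω x c d) (lab (Br nb R c d)) :=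
    fun d _ => (hsup d).1 (by omega)
  have hfi : ∀ d ∈ D, Dep (fun ω : Lab V T N => fi nb P ω x c d) (lab (Br nb R c d)) :=
    fun d _ => (hsup d).2.1 (by omega)
  have hjo : ∀ d ∈ D, Dep (fun ω : Lab V T N => jo nb P ω x c d) (lab (Br nb R c d)) :=
    fun d _ => (hsup d).2.2 (by omega)
  have hDD : ∀ ω : Lab V T N, Wt nb P c D x y z ω →
      Ue nb P c D (mm y z) x (D.filter (fun d => al nb P ω x c d)) ω :=
    fun ω hω => (h7 V nb T N P c D (mm y z) x ω hω.1).1
  have hcn : ∀ ω : Lab V T N, cn D (al nb P ω x c) = (D.filter (fun d => al nb P ω x c d)).card := by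
    intro ω
    unfold cn
    congr
  unfold wt
  by_cases hxT : x < T
  · rw [if_pos hxT]
    -- first alternative
    have hA := (hGL (fun j ω => ¬ coin P ω c x (mm y z x + j))
      (fun j => 1 - S.p x (mm y z x + j)) (fun j => by have := hC.p1 x (mm y z x + j); linarith)
      (fun j => dep_not (h2 V T N P hN hP c x (mm y z x + j)).1)
      (fun j => by rw [((h2 V T N P hN hP c x (mm y z x + j)).2 hxT).2, hp])
      (fun d ω => jo nb P ω x c d) (fun d ω => al nb P ω x c d ∧ ¬ jo nb P ω x c d)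
      (S.J x) (S.n x) (hC.J0 x) (hC.n0 x) hjo (fun d hd => dep_and (hal d hd) (dep_not (hjo d hd)))
      (fun d hd => ((hmsg x hx d hd).2 hxT).2.2.1)
      (fun d hd => ((hmsg x hx d hd).2 hxT).2.2.2.1)).2
    have hWA : ∀ ω : Lab V T N, Wt nb P c D x y z ω →
        ¬ coin P ω c x (mm y z x + cn D (al nb P ω x c)) → (∃ d ∈ D, jo nb P ω x c d) →
        ∃ J ⊆ D, Ue nb P c D (mm y z) x J ω ∧ (¬ coin P ω c x (mm y z x + J.card)) ∧
          ∃ B ⊆ J, B.Nonempty ∧ (∀ d ∈ B, jo nb P ω x c d) ∧
            ∀ d ∈ J \ B, (al nb P ω x c d ∧ ¬ jo nb P ω x c d) := by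
      intro ω hω hco hex
      refine ⟨D.filter (fun d => al nb P ω x c d), filter_subset _ _, hDD ω hω, ?_, ?_⟩
      · rw [← hcn]; exact hco
      · refine ⟨(D.filter (fun d => al nb P ω x c d)).filter (fun d => jo nb P ω x c d),
          filter_subset _ _, ?_, ?_, ?_⟩
        · obtain ⟨d, hd, hj⟩ := hex
          exact ⟨d, by
            simp only [mem_filter]
            exact ⟨⟨hd, hj.1.1⟩, hj⟩⟩
        · intro d hd
          simp only [mem_filter] at hd
          exact hd.2
        · intro d hd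
          simp only [mem_sdiff, mem_filter, not_and] at hd
          exact ⟨hd.1.2, hd.2 hd.1⟩
    by_cases hsim : y = x ∨ z = x
    · have hB := (hGL (fun j ω => coin P ω c x (mm y z x + j))
        (fun j => S.p x (mm y z x + j)) (fun j => hC.p0 x (mm y z x + j))
        (fun j => (h2 V T N P hN hP c x (mm y z x + j)).1)
        (fun j => by rw [((h2 V T N P hN hP c x (mm y z x + j)).2 hxT).1, hp])
        (fun d ω => al nb P ω x c d) (fun d ω => al nb P ω x c d)
        (S.a x) (S.a x) (hC.a0 x) (hC.a0 x) hal hal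
        (fun d hd => (hmsg x hx d hd).1)
        (fun d hd => (hmsg x hx d hd).1)).1
      refine (hmono _ (fun ω : Lab V T N => (∃ J ⊆ D, Ue nb P c D (mm y z) x J ω ∧
          (¬ coin P ω c x (mm y z x + J.card)) ∧
          ∃ B ⊆ J, B.Nonempty ∧ (∀ d ∈ B, jo nb P ω x c d) ∧
            ∀ d ∈ J \ B, (al nb P ω x c d ∧ ¬ jo nb P ω x c d)) ∨
          (∃ J ⊆ D, Ue nb P c D (mm y z) x J ω ∧ coin P ω c x (mm y z x + J.card) ∧
            ∀ d ∈ J, al nb P ω x c d)) ?_).trans ((hunion _ _).trans ((add_le_add hA hB).trans ?_))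
      · intro ω hω
        rcases hω.2 hxT with h | h
        · exact Or.inl (hWA ω hω h.1 h.2)
        · refine Or.inr ⟨D.filter (fun d => al nb P ω x c d), filter_subset _ _, hDD ω hω, ?_, ?_⟩
          · rw [← hcn]; exact h.1
          · intro d hd
            exact (mem_filter.1 hd).2
      · rw [hDc]
        simp only [exw, exc, hsim, decide_true, if_true]
        rw [← Finset.sum_add_distrib]
        apply le_of_eq
        apply Finset.sum_congr rfl
        intro j _
        ring
    · have hB := (hGL (fun j ω => coin P ω c x (mm y z x + j))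
        (fun j => S.p x (mm y z x + j)) (fun j => hC.p0 x (mm y z x + j))
        (fun j => (h2 V T N P hN hP c x (mm y z x + j)).1)
        (fun j => by rw [((h2 V T N P hN hP c x (mm y z x + j)).2 hxT).1, hp])
        (fun d ω => fi nb P ω x c d) (fun d ω => al nb P ω x c d ∧ ¬ fi nb P ω x c d)
        (S.f x) (S.b x) (hC.f0 x) (hC.b0 x) hfi (fun d hd => dep_and (hal d hd) (dep_not (hfi d hd)))
        (fun d hd => ((hmsg x hx d hd).2 hxT).1)
        (fun d hd => ((hmsg x hx d hd).2 hxT).2.1)).2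
      refine (hmono _ (fun ω : Lab V T N => (∃ J ⊆ D, Ue nb P c D (mm y z) x J ω ∧
          (¬ coin P ω c x (mm y z x + J.card)) ∧
          ∃ B ⊆ J, B.Nonempty ∧ (∀ d ∈ B, jo nb P ω x c d) ∧
            ∀ d ∈ J \ B, (al nb P ω x c d ∧ ¬ jo nb P ω x c d)) ∨
          (∃ J ⊆ D, Ue nb P c D (mm y z) x J ω ∧ coin P ω c x (mm y z x + J.card) ∧
            ∃ B ⊆ J, B.Nonempty ∧ (∀ d ∈ B, fi nb P ω x c d) ∧
            ∀ d ∈ J \ B, (al nb P ω x c d ∧ ¬ fi nb P ω x c d))) ?_).trans
          ((hunion _ _).trans ((add_le_add hA hB).trans ?_))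
      · intro ω hω
        rcases hω.2 hxT with h | h
        · exact Or.inl (hWA ω hω h.1 h.2)
        · have hex : ∃ d ∈ D, fi nb P ω x c d := by
            rcases h.2 with h' | h' | h'
            · exact absurd (Or.inl h') hsim
            · exact absurd (Or.inr h') hsim
            · exact h'
          refine Or.inr ⟨D.filter (fun d => al nb P ω x c d), filter_subset _ _, hDD ω hω, ?_, ?_⟩
          · rw [← hcn]; exact h.1
          · refine ⟨(D.filter (fun d => al nb P ω x c d)).filter (fun d => fi nb P ω x c d),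
              filter_subset _ _, ?_, ?_, ?_⟩
            · obtain ⟨d, hd, hj⟩ := hex
              exact ⟨d, by
                simp only [mem_filter]
                exact ⟨⟨hd, hj.1⟩, hj⟩⟩
            · intro d hd
              simp only [mem_filter] at hd
              exact hd.2
            · intro d hd
              simp only [mem_sdiff, mem_filter, not_and] at hd
              exact ⟨hd.1.2, hd.2 hd.1⟩
      · rw [hDc]
        simp only [exw, exc, hsim, decide_false]
        rw [← Finset.sum_add_distrib]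
        apply le_of_eq
        apply Finset.sum_congr rfl
        intro j _
        simp only [Bool.false_eq_true, if_false]
        ring
  · rw [if_neg hxT]
    have hxe : x = T := le_antisymm hx (not_lt.1 hxT)
    subst hxe
    have hB := (hGL (fun _ _ => True)
      (fun _ => 1) (fun _ => zero_le_one)
      (fun _ => fun _ _ _ => Iff.rfl)
      (fun _ => (hb _).2)
      (fun d ω => al nb P ω x c d) (fun d ω => al nb P ω x c d)
      (S.a x) (S.a x) (hC.a0 x) (hC.a0 x) hal hal
      (fun d hd => (hmsg x hx d hd).1)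
      (fun d hd => (hmsg x hx d hd).1)).1
    refine (hmono _ _ ?_).trans (hB.trans ?_)
    · intro ω hω
      refine ⟨D.filter (fun d => al nb P ω x c d), filter_subset _ _, hDD ω hω, trivial, ?_⟩
      intro d hd
      exact (mem_filter.1 hd).2
    · rw [hDc]
      simp only [enw]
      apply le_of_eq
      apply Finset.sum_congr rfl
      intro j _
      ring

end Pool.Agent.H958R2.GK
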