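import Pool.Agent.H958R2.GK.PROB
import Pool.Agent.H958R2.GK.COIN
import Pool.Agent.H958R2.GK.LLL
import Pool.Agent.H958R2.GK.GIRTH
import Pool.Agent.H958R2.GK.COUNT
import Pool.Agent.H958R2.GK.DEG
import Pool.Agent.H958R2.GK.COL
import Pool.Agent.H958R2.GK.IND
import Pool.Agent.H958R2.GK.CONS
import Pool.Agent.H958R2.GK.PD
import Pool.Agent.H958R2.GK.SUPPI
import Pool.Agent.H958R2.GK.SUPPM
import Pool.Agent.H958R2.GK.DISJ
import Pool.Agent.H958R2.GK.SITE
import Pool.Agent.H958R2.GK.GL
import Pool.Agent.H958R2.GK.DD
import Pool.Agent.H958R2.GK.MSG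
import Pool.Agent.H958R2.GK.WPR
import Pool.Agent.H958R2.GK.PATHPR
import Pool.Agent.H958R2.GK.ALG
import Pool.Agent.H958R2.GK.FIN
import Pool.Agent.H958R2.GK.NUM

set_option autoImplicit false

/-!
# Project GK: large 4-regular graphs of large girth are 3-colourable
-/

namespace Pool.Agent.H958R2.GK

/-- There is a number `g` such that every finite 4-regular graph of girth at least `g` is
3-colourable. -/
theorem main : St_FIN := by
  have hmsg : St_MSG := msg_proof prob_proof coin_proof suppm_proof disj_proof
    (site_proof prob_proof coin_proof suppm_proof) (gl_proof prob_proof suppm_proof) dd_proof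
  have hwpr : St_WPR := wpr_proof prob_proof coin_proof suppm_proof disj_proof
    (site_proof prob_proof coin_proof suppm_proof) (gl_proof prob_proof suppm_proof) dd_proof hmsg
  exact fin_proof lll_proof girth_proof (deg_proof count_proof) col_proof ind_proof
    (pd_proof cons_proof) suppi_proof prob_proof
    (pathpr_proof prob_proof suppm_proof disj_proof hwpr) alg_proof num_proof

end Pool.Agent.H958R2.GK
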