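import Pool.Agent.H958R2.GK.NumTab

set_option autoImplicit false

/-!
# Project GK, task NUM: kernel computation
-/

namespace Pool.Agent.H958R2.GK.Num

theorem run_true : run qT tab st0 [] = true := by decide +kernel

end Pool.Agent.H958R2.GK.Num
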