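import Mathlib

set_option autoImplicit false

/-!
# Project GK, task NUM: the computation (definitions)

Numbers are upper bounds in fixed point arithmetic with 1000 binary places.
-/

namespace Pool.Agent.H958R2.GK.Num

/-- strict evaluation -/
def frc {α : Type} (n : ℕ) (k : ℕ → α) : α := Nat.rec (k 0) (fun m _ => k (Nat.succ m)) n

theorem frc_eq {α : Type} (n : ℕ) (k : ℕ → α) : frc n k = k n := by cases n <;> rfl

/-- product, rounded up -/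
def mu (a b : ℕ) : ℕ := Nat.succ (Nat.shiftRight (Nat.mul a b) 1000)

/-- one row of the table: firing probabilities (with denominator `2^30`) for two and four alive
neighbours, and the weights `q`, `q'`, `c` (with denominator `2^60`) -/
structure Row where
  P2 : ℕ
  P4 : ℕ
  q : ℕ
  q' : ℕ
  c : ℕ

structure St where
  u0 : ℕ
  u1 : ℕ
  u2 : ℕ
  u3 : ℕ
  a : ℕ
  g0 : ℕ
  g1 : ℕ
  g2 : ℕ
  r0 : ℕ
  r1 : ℕ
  r2 : ℕ

/-- data of a round -/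
structure Rd where
  p2 : ℕ
  n2 : ℕ
  p4 : ℕ
  n4 : ℕ
  un1 : ℕ
  un3 : ℕ
  a2 : ℕ
  f : ℕ
  b : ℕ
  J : ℕ
  n : ℕ
  x : ℕ
  x2 : ℕ
  nn : ℕ
  kk : ℕ
  hh : ℕ
  e1f : ℕ
  e1t : ℕ
  q : ℕ
  q' : ℕ
  c : ℕ

def rd (ρ : Row) (s : St) : Rd :=
  frc (Nat.shiftLeft ρ.P2 970) fun p2 =>
  frc (Nat.shiftLeft (Nat.sub 1073741824 ρ.P2) 970) fun n2 =>
  frc (Nat.shiftLeft ρ.P4 970) fun p4 =>
  frc (Nat.shiftLeft (Nat.sub 1073741824 ρ.P4) 970) fun n4 =>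
  frc (mu s.u1 p2) fun uf1 =>
  frc (mu s.u3 p4) fun uf3 =>
  frc (mu s.u1 n2) fun un1 =>
  frc (mu s.u3 n4) fun un3 =>
  frc (mu s.a s.a) fun a2 =>
  frc (mu a2 s.a) fun a3 =>
  frc (s.u0 + 3 * mu uf1 s.a + mu uf3 a3) fun f =>
  frc (3 * mu un1 s.a + 3 * mu s.u2 a2 + mu un3 a3) fun b =>
  frc (mu b b) fun b2 =>
  frc (s.u0 + 3 * mu uf1 b + mu uf3 (mu b2 b)) fun J =>
  frc (mu f f) fun f2 =>
  frc (3 * mu uf1 f + mu uf3 (3 * mu b2 f + 3 * mu b f2 + mu f2 f)) fun R =>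
  frc (b + R) fun n =>
  frc (mu n n) fun nn =>
  frc (mu J J) fun J2 =>
  frc (J2 + 2 * mu J n) fun kk =>
  frc (3 * mu nn J + 3 * mu n J2 + mu J2 J) fun kk3 =>
  frc (R + (3 * mu un1 J + 3 * mu s.u2 kk + mu un3 kk3)) fun x =>
  frc (mu x x) fun x2 =>
  frc (f2 + 2 * mu f b) fun hh =>
  frc (2 * (mu n2 J + mu p2 f)) fun e1f =>
  frc (2 * (mu n2 J + mu p2 s.a)) fun e1t =>
  frc (Nat.shiftLeft ρ.q 940) fun q =>
  frc (Nat.shiftLeft ρ.q' 940) fun q' =>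
  frc (Nat.shiftLeft ρ.c 940) fun c =>
  ⟨p2, n2, p4, n4, un1, un3, a2, f, b, J, n, x, x2, nn, kk, hh, e1f, e1t, q, q', c⟩

/-- the state after the round -/
def nxt (s : St) (d : Rd) : St :=
  frc (3 * mu d.un1 d.x + 3 * mu s.u2 d.x2 + mu d.un3 (mu d.x2 d.x)) fun u0 =>
  frc (d.un1 + 2 * mu s.u2 d.x + mu d.un3 d.x2) fun u1 =>
  frc (s.u2 + mu d.un3 d.x) fun u2 =>
  frc (3 * mu d.un1 d.n + 3 * mu s.u2 d.nn + mu d.un3 (mu d.nn d.n)) fun a =>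
  frc (mu s.g2 d.n4) fun g2 =>
  frc (s.g1 + mu g2 d.x) fun g1 =>
  frc (mu s.g0 d.n2 + 2 * mu s.g1 d.x + mu g2 d.x2) fun g0 =>
  frc (mu s.r1 d.n2) fun rn =>
  frc (2 * mu rn d.x + mu s.r2 d.x2 + mu d.q g0) fun r0 =>
  frc (rn + mu s.r2 d.x + mu d.q g1) fun r1 =>
  frc (s.r2 + mu d.q g2) fun r2 =>
  ⟨u0, u1, u2, d.un3, a, g0, g1, g2, r0, r1, r2⟩

/-- the inequalities `q_ge` and `q'_ge` and the bounds for the row -/
def chk (ρ : Row) (s : St) (d : Rd) : Bool :=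
  frc (mu s.g1 (2 * d.J)) fun gj =>
  frc (mu d.n4 d.kk) fun nk =>
  frc (gj + mu s.g2 (nk + mu d.p4 d.hh)) fun ef =>
  frc (mu s.g0 d.p2 + gj + mu s.g2 (nk + mu d.p4 d.a2)) fun et =>
  frc (mu s.r2 d.kk) fun rk =>
  Nat.ble ρ.P2 1073741824 && Nat.ble ρ.P4 1073741824 && Nat.ble 1 ρ.q && Nat.ble 1 ρ.q' &&
  Nat.ble (Nat.mul 10000 (mu s.r1 d.e1f + rk + mu d.q' et + mu d.c ef)) (Nat.mul 3307 d.q) &&
  Nat.ble (Nat.mul 10000 (s.r0 + mu s.r1 d.e1t + rk + mu d.q' et + mu d.c et)) (Nat.mul 3307 d.q')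

/-- backward vectors -/
structure Bk where
  y0 : ℕ
  y1 : ℕ
  y2 : ℕ
  b0 : ℕ
  b1 : ℕ
  b2 : ℕ

def bst (d : Rd) (k : Bk) : Bk :=
  frc (k.b0 + mu d.q k.y0) fun z0 =>
  frc (k.b1 + mu d.q k.y1) fun z1 =>
  frc (k.b2 + mu d.q k.y2) fun z2 =>
  frc (2 * d.f) fun y1 =>
  frc (mu d.n2 d.kk + mu d.p2 d.hh + mu d.n2 (mu k.y0 d.x2 + mu k.y1 d.x + k.y2)) fun y2 =>
  frc (mu d.q' d.e1t + mu d.c d.e1f + mu d.n2 (2 * mu z0 d.x + z1)) fun b1 =>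
  frc (mu d.q' d.kk + mu d.c d.kk + (mu z0 d.x2 + mu z1 d.x + z2)) fun b2 =>
  ⟨0, y1, y2, d.q', b1, b2⟩

/-- the inequality `c_ge`; `s` is the state after the round -/
def chc (s : St) (d : Rd) (k : Bk) : Bool :=
  Nat.ble (Nat.mul 10000 (mu s.g0 k.b0 + mu s.r0 k.y0 + (mu s.g1 k.b1 + mu s.r1 k.y1) +
    (mu s.g2 k.b2 + mu s.r2 k.y2) + Nat.shiftLeft 1 978)) (Nat.mul 3307 d.c)

/-- terminal backward vectors -/
def bk0 (s : St) (qT : ℕ) : Bk :=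
  frc (2 * s.a) fun y1 =>
  frc (mu s.a s.a) fun y2 =>
  frc (mu qT y1) fun b1 =>
  frc (mu qT y2) fun b2 =>
  ⟨Nat.shiftLeft 1 1000, y1, y2, Nat.succ qT, b1, b2⟩

/-- the inequality `q'_T` -/
def chT (s : St) (qT : ℕ) : Bool :=
  Nat.ble 1 qT &&
  Nat.ble (Nat.mul 10000 (s.r0 + 2 * mu s.r1 s.a + mu s.r2 (mu s.a s.a) +
    mu qT (s.g0 + 2 * mu s.g1 s.a + mu s.g2 (mu s.a s.a)))) (Nat.mul 3307 qT)

/-- strict evaluation of the fields -/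
def frcRd {α : Type} (d : Rd) (k : Rd → α) : α :=
  match d with
  | ⟨p2, n2, p4, n4, un1, un3, a2, f, b, J, n, x, x2, nn, kk, hh, e1f, e1t, q, q', c⟩ =>
    k ⟨p2, n2, p4, n4, un1, un3, a2, f, b, J, n, x, x2, nn, kk, hh, e1f, e1t, q, q', c⟩

theorem frcRd_eq {α : Type} (d : Rd) (k : Rd → α) : frcRd d k = k d := by cases d; rfl

/-- strict evaluation of the fields -/
def frcSt {α : Type} (s : St) (k : St → α) : α :=
  match s with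
  | ⟨u0, u1, u2, u3, a, g0, g1, g2, r0, r1, r2⟩ => k ⟨u0, u1, u2, u3, a, g0, g1, g2, r0, r1, r2⟩

theorem frcSt_eq {α : Type} (s : St) (k : St → α) : frcSt s k = k s := by cases s; rfl

/-- strict evaluation of the fields -/
def frcBk {α : Type} (s : Bk) (k : Bk → α) : α :=
  match s with
  | ⟨y0, y1, y2, b0, b1, b2⟩ => k ⟨y0, y1, y2, b0, b1, b2⟩

theorem frcBk_eq {α : Type} (s : Bk) (k : Bk → α) : frcBk s k = k s := by cases s; rfl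

/-- backward pass -/
def back : List (St × Rd) → St → Bk → Bool
  | [], _, _ => true
  | sd :: h, s', k => chc s' sd.2 k && frcBk (bst sd.2 k) fun k' => back h sd.1 k'

/-- forward pass -/
def run (qT : ℕ) : List Row → St → List (St × Rd) → Bool
  | [], s, h => chT s qT && frcBk (bk0 s qT) fun k => back h s k
  | ρ :: l, s, h => frcRd (rd ρ s) fun d => chk ρ s d &&
      frcSt (nxt s d) fun s' => run qT l s' ((s, d) :: h)

/-- the initial state -/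
def st0 : St := ⟨0, 0, 0, Nat.shiftLeft 1 1000, Nat.shiftLeft 1 1000, 0, 0, Nat.shiftLeft 1 1000, 0, 0, 0⟩

end Pool.Agent.H958R2.GK.Num
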