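import Pool.Agent.H958R2.GK.NumSeq
import Pool.Agent.H958R2.GK.NumCheck

set_option autoImplicit false
set_option exponentiation.threshold 100000

/-!
# Project GK, task NUM: the certificate for the messages
-/

open Finset

namespace Pool.Agent.H958R2.GK.Num

theorem all_chk : (∀ i < 640, chk (row i) (st i) (dd i) = true) ∧ chT (st 640) qT = true ∧
    ∀ s < 640, chc (st (s + 1)) (dd s) (bk (639 - s)) = true := by
  obtain ⟨h1, h2, h3⟩ := run_spec 640 0 rfl run_true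
  exact ⟨fun i hi => h1 i (Nat.zero_le i) hi, h2, back_spec 640 le_rfl h3⟩

theorem row_large (t : ℕ) (h : 640 ≤ t) : row t = dfl := by
  unfold row
  rw [List.getD_eq_getElem?_getD, List.getElem?_eq_none (by rw [tab_length]; exact h)]
  rfl

theorem chk_spec {ρ : Row} {s : St} {d : Rd} (h : chk ρ s d = true) :
    ρ.P2 ≤ 1073741824 ∧ ρ.P4 ≤ 1073741824 ∧ 1 ≤ ρ.q ∧ 1 ≤ ρ.q' ∧
    10000 * (mu s.r1 d.e1f + mu s.r2 d.kk + mu d.q' (mu s.g0 d.p2 + mu s.g1 (2 * d.J) +
      mu s.g2 (mu d.n4 d.kk + mu d.p4 d.a2)) +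
      mu d.c (mu s.g1 (2 * d.J) + mu s.g2 (mu d.n4 d.kk + mu d.p4 d.hh))) ≤ 3307 * d.q ∧
    10000 * (s.r0 + mu s.r1 d.e1t + mu s.r2 d.kk + mu d.q' (mu s.g0 d.p2 + mu s.g1 (2 * d.J) +
      mu s.g2 (mu d.n4 d.kk + mu d.p4 d.a2)) + mu d.c (mu s.g0 d.p2 + mu s.g1 (2 * d.J) +
      mu s.g2 (mu d.n4 d.kk + mu d.p4 d.a2))) ≤ 3307 * d.q' := by
  simp only [chk, frc_eq, Bool.and_eq_true] at h
  obtain ⟨⟨⟨⟨⟨h1, h2⟩, h3⟩, h4⟩, h5⟩, h6⟩ := h
  exact ⟨Nat.le_of_ble_eq_true h1, Nat.le_of_ble_eq_true h2, Nat.le_of_ble_eq_true h3,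
    Nat.le_of_ble_eq_true h4, Nat.le_of_ble_eq_true h5, Nat.le_of_ble_eq_true h6⟩

theorem row_P2 (t : ℕ) : (row t).P2 ≤ 1073741824 := by
  rcases Nat.lt_or_ge t 640 with h | h
  · exact (chk_spec (all_chk.1 t h)).1
  · rw [row_large t h]; exact Nat.zero_le _

theorem row_P4 (t : ℕ) : (row t).P4 ≤ 1073741824 := by
  rcases Nat.lt_or_ge t 640 with h | h
  · exact (chk_spec (all_chk.1 t h)).2.1
  · rw [row_large t h]; exact Nat.zero_le _

theorem row_q (t : ℕ) : 1 ≤ (row t).q := by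
  rcases Nat.lt_or_ge t 640 with h | h
  · exact (chk_spec (all_chk.1 t h)).2.2.1
  · rw [row_large t h]; exact le_rfl

theorem row_q' (t : ℕ) : 1 ≤ (row t).q' := by
  rcases Nat.lt_or_ge t 640 with h | h
  · exact (chk_spec (all_chk.1 t h)).2.2.2.1
  · rw [row_large t h]; exact le_rfl

/-- the thresholds -/
def P (t : ℕ) : ℕ → ℕ
  | 0 => 1073741824
  | 1 => 1073741824
  | 2 => (row t).P2
  | 3 => 0
  | 4 => (row t).P4
  | _ => 0

theorem P_le (t k : ℕ) : P t k ≤ 1073741824 := by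
  match k with
  | 0 => exact le_rfl
  | 1 => exact le_rfl
  | 2 => exact row_P2 t
  | 3 => exact Nat.zero_le _
  | 4 => exact row_P4 t
  | _ + 5 => exact Nat.zero_le _

/-- the `u`-components -/
def uu (s : St) : ℕ → ℕ
  | 0 => s.u0
  | 1 => s.u1
  | 2 => s.u2
  | 3 => s.u3
  | _ => 0

/-- the numbers of the certificate -/
noncomputable def SS : Sq where
  p := fun t k => (P t k : ℝ) / ((1073741824 : ℕ) : ℝ)
  u := fun t j => rr (uu (st t) j)
  a := fun t => rr (st t).a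
  b := fun t => rr (dd t).b
  f := fun t => rr (dd t).f
  J := fun t => rr (dd t).J
  n := fun t => rr (dd t).n
  x := fun t => rr (dd t).x

theorem p0 (t : ℕ) : SS.p t 0 = 1 := by
  show ((1073741824 : ℕ) : ℝ) / _ = 1
  exact div_self (by norm_num)

theorem p1 (t : ℕ) : SS.p t 1 = 1 := by
  show ((1073741824 : ℕ) : ℝ) / _ = 1
  exact div_self (by norm_num)

theorem p2 (t : ℕ) : SS.p t 2 = pr (row t).P2 := by
  show (((row t).P2 : ℕ) : ℝ) / _ = _
  rw [pr]; norm_num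

theorem p3 (t : ℕ) : SS.p t 3 = 0 := by
  show ((0 : ℕ) : ℝ) / _ = _
  simp

theorem p4 (t : ℕ) : SS.p t 4 = pr (row t).P4 := by
  show (((row t).P4 : ℕ) : ℝ) / _ = _
  rw [pr]; norm_num

theorem nxt_eq (s : St) (d : Rd) : nxt s d =
    ⟨3 * mu d.un1 d.x + 3 * mu s.u2 d.x2 + mu d.un3 (mu d.x2 d.x),
     d.un1 + 2 * mu s.u2 d.x + mu d.un3 d.x2,
     s.u2 + mu d.un3 d.x,
     d.un3,
     3 * mu d.un1 d.n + 3 * mu s.u2 d.nn + mu d.un3 (mu d.nn d.n),
     mu s.g0 d.n2 + 2 * mu s.g1 d.x + mu (mu s.g2 d.n4) d.x2,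
     s.g1 + mu (mu s.g2 d.n4) d.x,
     mu s.g2 d.n4,
     2 * mu (mu s.r1 d.n2) d.x + mu s.r2 d.x2 +
       mu d.q (mu s.g0 d.n2 + 2 * mu s.g1 d.x + mu (mu s.g2 d.n4) d.x2),
     mu s.r1 d.n2 + mu s.r2 d.x + mu d.q (s.g1 + mu (mu s.g2 d.n4) d.x),
     s.r2 + mu d.q (mu s.g2 d.n4)⟩ := by
  simp only [nxt, frc_eq]

theorem un1_up (t : ℕ) : Up (rr (st t).u1 * (1 - pr (row t).P2)) (dd t).un1 :=
  ⟨mul_nonneg (rr_nonneg _) (pr1 _ (row_P2 t)),
    (msg_step (row t) (st t) (row_P2 t) (row_P4 t) (dd t) rfl).2.2.2.2.2.2.2.2.2.1⟩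

theorem un3_up (t : ℕ) : Up (rr (st t).u3 * (1 - pr (row t).P4)) (dd t).un3 :=
  ⟨mul_nonneg (rr_nonneg _) (pr1 _ (row_P4 t)),
    (msg_step (row t) (st t) (row_P2 t) (row_P4 t) (dd t) rfl).2.2.2.2.2.2.2.2.2.2.1⟩

theorem a2_up (t : ℕ) : Up (rr (st t).a ^ 2) (dd t).a2 :=
  (msg_step (row t) (st t) (row_P2 t) (row_P4 t) (dd t) rfl).2.2.2.2.2.2.2.2.2.2.2.1

theorem x2_up (t : ℕ) : Up (rr (dd t).x ^ 2) (dd t).x2 :=
  (msg_step (row t) (st t) (row_P2 t) (row_P4 t) (dd t) rfl).2.2.2.2.2.2.2.2.2.2.2.2.1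

theorem nn_up (t : ℕ) : Up (rr (dd t).n ^ 2) (dd t).nn :=
  (msg_step (row t) (st t) (row_P2 t) (row_P4 t) (dd t) rfl).2.2.2.2.2.2.2.2.2.2.2.2.2.1

theorem kk_up (t : ℕ) : Up ((rr (dd t).J + rr (dd t).n) ^ 2 - rr (dd t).n ^ 2) (dd t).kk :=
  (msg_step (row t) (st t) (row_P2 t) (row_P4 t) (dd t) rfl).2.2.2.2.2.2.2.2.2.2.2.2.2.2.1

theorem hh_up (t : ℕ) : Up ((rr (dd t).f + rr (dd t).b) ^ 2 - rr (dd t).b ^ 2) (dd t).hh :=
  (msg_step (row t) (st t) (row_P2 t) (row_P4 t) (dd t) rfl).2.2.2.2.2.2.2.2.2.2.2.2.2.2.2.1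

theorem e1f_up (t : ℕ) : Up (2 * ((1 - pr (row t).P2) * rr (dd t).J + pr (row t).P2 * rr (dd t).f))
    (dd t).e1f :=
  (msg_step (row t) (st t) (row_P2 t) (row_P4 t) (dd t) rfl).2.2.2.2.2.2.2.2.2.2.2.2.2.2.2.2.1

theorem e1t_up (t : ℕ) : Up (2 * ((1 - pr (row t).P2) * rr (dd t).J + pr (row t).P2 * rr (st t).a))
    (dd t).e1t :=
  (msg_step (row t) (st t) (row_P2 t) (row_P4 t) (dd t) rfl).2.2.2.2.2.2.2.2.2.2.2.2.2.2.2.2.2

theorem p2_up (t : ℕ) : Up (pr (row t).P2) (dd t).p2 :=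
  (msg_step (row t) (st t) (row_P2 t) (row_P4 t) (dd t) rfl).2.2.2.2.2.1 ▸ Up.self _

theorem n2_up (t : ℕ) : Up (1 - pr (row t).P2) (dd t).n2 :=
  (msg_step (row t) (st t) (row_P2 t) (row_P4 t) (dd t) rfl).2.2.2.2.2.2.1 ▸ Up.self _

theorem p4_up (t : ℕ) : Up (pr (row t).P4) (dd t).p4 :=
  (msg_step (row t) (st t) (row_P2 t) (row_P4 t) (dd t) rfl).2.2.2.2.2.2.2.1 ▸ Up.self _

theorem n4_up (t : ℕ) : Up (1 - pr (row t).P4) (dd t).n4 :=
  (msg_step (row t) (st t) (row_P2 t) (row_P4 t) (dd t) rfl).2.2.2.2.2.2.2.2.1 ▸ Up.self _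

theorem rr_one : rr (Nat.shiftLeft 1 1000) = 1 := by
  rw [rr_shift 1 1000 le_rfl]; norm_num

theorem msgCert : MsgCert 640 SS where
  p0 := fun t k => by show 0 ≤ (P t k : ℝ) / _; positivity
  p1 := fun t k => by
    show (P t k : ℝ) / _ ≤ 1
    rw [div_le_one (by norm_num)]
    exact_mod_cast P_le t k
  u0 := fun t j => rr_nonneg _
  a0 := fun t => rr_nonneg _
  b0 := fun t => rr_nonneg _
  f0 := fun t => rr_nonneg _
  J0 := fun t => rr_nonneg _
  n0 := fun t => rr_nonneg _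
  x0 := fun t => rr_nonneg _
  u_init := by
    show 1 ≤ rr (Nat.shiftLeft 1 1000)
    rw [rr_one]
  u_step := fun t _ j hj => by
    have hst : st (t + 1) = _ := (st_succ t).trans (nxt_eq _ _)
    have h1 := un1_up t
    have h3 := un3_up t
    have hx : Up (rr (dd t).x) (dd t).x := Up.self _
    have hx2 := x2_up t
    have hu2 : Up (rr (st t).u2) (st t).u2 := Up.self _
    interval_cases j
    · have := (((h1.mul hx).three).add (hu2.mul hx2).three).add (h3.mul (hx2.mul hx))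
      show _ ≤ rr (st (t + 1)).u0
      rw [hst]
      refine le_trans (le_of_eq ?_) this.2
      simp only [Finset.sum_range_succ, Finset.sum_range_zero, p1, p2, p3, p4, Nat.reduceAdd,
        Nat.reduceSub, Nat.choose, zero_add, add_zero]
      simp only [SS, uu]
      push_cast
      ring
    · have := ((h1.add (hu2.mul hx).two)).add (h3.mul hx2)
      show _ ≤ rr (st (t + 1)).u1
      rw [hst]
      refine le_trans (le_of_eq ?_) this.2
      simp only [Finset.sum_range_succ, Finset.sum_range_zero, p1, p2, p3, p4, Nat.reduceAdd,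
        Nat.reduceSub, Nat.choose, zero_add, add_zero]
      simp only [SS, uu]
      push_cast
      ring
    · have := hu2.add (h3.mul hx)
      show _ ≤ rr (st (t + 1)).u2
      rw [hst]
      refine le_trans (le_of_eq ?_) this.2
      simp only [Finset.sum_range_succ, Finset.sum_range_zero, p1, p2, p3, p4, Nat.reduceAdd,
        Nat.reduceSub, Nat.choose, zero_add, add_zero]
      simp only [SS, uu]
      push_cast
      ring
    · have e3 : (st (t + 1)).u3 = (dd t).un3 := by rw [st_succ, nxt_eq]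
      show _ ≤ rr (st (t + 1)).u3
      rw [e3]
      refine le_trans (le_of_eq ?_) h3.2
      simp only [Finset.sum_range_succ, Finset.sum_range_zero, p1, p2, p3, p4, Nat.reduceAdd,
        Nat.reduceSub, Nat.choose, zero_add, add_zero]
      simp only [SS, uu]
      push_cast
      ring
  a_init := by
    show 1 ≤ rr (Nat.shiftLeft 1 1000)
    rw [rr_one]
  f_ge := fun t _ => by
    refine le_trans (le_of_eq ?_)
      (msg_step (row t) (st t) (row_P2 t) (row_P4 t) (dd t) rfl).1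
    simp only [Finset.sum_range_succ, Finset.sum_range_zero, p1, p2, p3, p4, Nat.reduceAdd,
      Nat.choose, zero_add, add_zero]
    simp only [SS, uu]
    push_cast
    ring
  b_ge := fun t _ => by
    refine le_trans (le_of_eq ?_)
      (msg_step (row t) (st t) (row_P2 t) (row_P4 t) (dd t) rfl).2.1
    simp only [Finset.sum_range_succ, Finset.sum_range_zero, p1, p2, p3, p4, Nat.reduceAdd,
      Nat.choose, zero_add, add_zero]
    simp only [SS, uu]
    push_cast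
    ring
  J_ge := fun t _ => by
    refine le_trans (le_of_eq ?_)
      (msg_step (row t) (st t) (row_P2 t) (row_P4 t) (dd t) rfl).2.2.1
    simp only [Finset.sum_range_succ, Finset.sum_range_zero, p1, p2, p3, p4, Nat.reduceAdd,
      Nat.choose, zero_add, add_zero]
    simp only [SS, uu]
    push_cast
    ring
  n_ge := fun t _ => by
    refine le_trans (le_of_eq ?_)
      (msg_step (row t) (st t) (row_P2 t) (row_P4 t) (dd t) rfl).2.2.2.1
    simp only [Finset.sum_range_succ, Finset.sum_range_zero, p1, p2, p3, p4, Nat.reduceAdd,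
      Nat.choose, zero_add, add_zero]
    simp only [SS, uu]
    push_cast
    ring
  x_ge := fun t _ => by
    refine le_trans (le_of_eq ?_)
      (msg_step (row t) (st t) (row_P2 t) (row_P4 t) (dd t) rfl).2.2.2.2.1
    simp only [Finset.sum_range_succ, Finset.sum_range_zero, p1, p2, p3, p4, Nat.reduceAdd,
      Nat.choose, zero_add, add_zero]
    simp only [SS, uu]
    push_cast
    ring
  a_step := fun t _ => by
    have hst : st (t + 1) = _ := (st_succ t).trans (nxt_eq _ _)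
    have hn : Up (rr (dd t).n) (dd t).n := Up.self _
    have hu2 : Up (rr (st t).u2) (st t).u2 := Up.self _
    have := ((((un1_up t).mul hn).three).add (hu2.mul (nn_up t)).three).add
      ((un3_up t).mul ((nn_up t).mul hn))
    show _ ≤ rr (st (t + 1)).a
    rw [hst]
    refine le_trans (le_of_eq ?_) this.2
    simp only [Finset.sum_range_succ, Finset.sum_range_zero, p1, p2, p3, p4, Nat.reduceAdd,
      Nat.choose, zero_add, add_zero]
    simp only [SS, uu]
    push_cast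
    ring

end Pool.Agent.H958R2.GK.Num
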