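import Pool.Agent.H958R2.GK.NumStep
import Pool.Agent.H958R2.GK.NumTab

set_option autoImplicit false
set_option exponentiation.threshold 100000

/-!
# Project GK, task NUM: the sequences and what the computation says about them
-/

open Finset

namespace Pool.Agent.H958R2.GK.Num

theorem tab_length : tab.length = 640 := by decide +kernel

def dfl : Row := ⟨0, 0, 1, 1, 0⟩

/-- the row of round `t` -/
def row (t : ℕ) : Row := tab.getD t dfl

/-- the state at time `t` -/
def st : ℕ → St
  | 0 => st0
  | t + 1 => nxt (st t) (rd (row t) (st t))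

/-- the data of round `t` -/
def dd (t : ℕ) : Rd := rd (row t) (st t)

theorem st_succ (t : ℕ) : st (t + 1) = nxt (st t) (dd t) := rfl

/-- the list of the first `t` rounds, last one first -/
def hist : ℕ → List (St × Rd)
  | 0 => []
  | t + 1 => (st t, dd t) :: hist t

/-- backward vectors at time `640 - i` -/
def bk : ℕ → Bk
  | 0 => bk0 (st 640) qT
  | i + 1 => bst (dd (639 - i)) (bk i)

theorem run_nil (q : ℕ) (s : St) (h : List (St × Rd)) :
    run q [] s h = (chT s q && back h s (bk0 s q)) := by
  simp only [run, frcBk_eq]

theorem run_cons (q : ℕ) (ρ : Row) (l : List Row) (s : St) (h : List (St × Rd)) :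
    run q (ρ :: l) s h =
      (chk ρ s (rd ρ s) && run q l (nxt s (rd ρ s)) ((s, rd ρ s) :: h)) := by
  simp only [run, frcRd_eq, frcSt_eq]

theorem back_cons (s s' : St) (d : Rd) (h : List (St × Rd)) (k : Bk) :
    back ((s, d) :: h) s' k = (chc s' d k && back h s (bst d k)) := by
  simp only [back, frcBk_eq]

theorem run_spec (m : ℕ) : ∀ t, t + m = 640 → run qT (tab.drop t) (st t) (hist t) = true →
    (∀ i, t ≤ i → i < 640 → chk (row i) (st i) (dd i) = true) ∧ chT (st 640) qT = true ∧
    back (hist 640) (st 640) (bk0 (st 640) qT) = true := by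
  induction m with
  | zero =>
    intro t ht h
    have ht' : t = 640 := by omega
    subst ht'
    have e : tab.drop 640 = [] := List.drop_eq_nil_of_le (by rw [tab_length])
    rw [e, run_nil, Bool.and_eq_true] at h
    exact ⟨fun i h1 h2 => by omega, h.1, h.2⟩
  | succ m ih =>
    intro t ht h
    have hl : t < tab.length := by rw [tab_length]; omega
    have e : tab.drop t = row t :: tab.drop (t + 1) := by
      rw [List.drop_eq_getElem_cons hl, row, List.getD_eq_getElem _ _ hl]
    rw [e, run_cons, Bool.and_eq_true] at h
    obtain ⟨h1, h2, h3⟩ := ih (t + 1) (by omega) h.2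
    refine ⟨fun i hi hi' => ?_, h2, h3⟩
    rcases Nat.eq_or_lt_of_le hi with rfl | hlt
    · exact h.1
    · exact h1 i hlt hi'

theorem back_spec : ∀ t ≤ 640, back (hist t) (st t) (bk (640 - t)) = true →
    ∀ s < t, chc (st (s + 1)) (dd s) (bk (639 - s)) = true := by
  intro t
  induction t with
  | zero => intro _ _ s hs; omega
  | succ t ih =>
    intro ht h s hs
    have e : hist (t + 1) = (st t, dd t) :: hist t := rfl
    rw [e, back_cons, Bool.and_eq_true] at h
    have e2 : 640 - (t + 1) = 639 - t := by omega
    rw [e2] at h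
    rcases Nat.lt_succ_iff_lt_or_eq.1 hs with hlt | rfl
    · refine ih (by omega) ?_ s hlt
      have e3 : 640 - t = (639 - t) + 1 := by omega
      rw [e3]
      show back (hist t) (st t) (bst (dd (639 - (639 - t))) (bk (639 - t))) = true
      have e4 : 639 - (639 - t) = t := by omega
      rw [e4]
      exact h.2
    · exact h.1

end Pool.Agent.H958R2.GK.Num
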