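import Pool.Agent.H958R2.GK.NumUp

set_option autoImplicit false
set_option exponentiation.threshold 100000

/-!
# Project GK, task NUM: the inequalities of one round
-/

open Finset

namespace Pool.Agent.H958R2.GK.Num

/-- firing probability -/
noncomputable def pr (m : ℕ) : ℝ := (m : ℝ) / 1073741824

theorem shift_pr (m : ℕ) : rr (Nat.shiftLeft m 970) = pr m := by
  rw [rr_shift m 970 (by norm_num), pr]; norm_num

theorem shift_pr' (m : ℕ) (h : m ≤ 1073741824) :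
    rr (Nat.shiftLeft (Nat.sub 1073741824 m) 970) = 1 - pr m := by
  rw [rr_shift _ 970 (by norm_num), pr]
  show (((1073741824 - m : ℕ)) : ℝ) / _ = _
  rw [Nat.cast_sub h]
  norm_num
  ring

theorem pr0 (m : ℕ) : 0 ≤ pr m := by unfold pr; positivity

theorem pr1 (m : ℕ) (h : m ≤ 1073741824) : 0 ≤ 1 - pr m := by
  rw [← shift_pr' m h]; exact rr_nonneg _

/-- all inequalities for the messages in one round -/
theorem msg_step (ρ : Row) (s : St) (h2 : ρ.P2 ≤ 1073741824) (h4 : ρ.P4 ≤ 1073741824) (d : Rd)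
    (hd : d = rd ρ s) :
    (rr s.u0 + 3 * rr s.u1 * pr ρ.P2 * rr s.a + rr s.u3 * pr ρ.P4 * rr s.a ^ 3 ≤ rr d.f) ∧
    (3 * rr s.u1 * (1 - pr ρ.P2) * rr s.a + 3 * rr s.u2 * rr s.a ^ 2 +
      rr s.u3 * (1 - pr ρ.P4) * rr s.a ^ 3 ≤ rr d.b) ∧
    (rr s.u0 + 3 * rr s.u1 * pr ρ.P2 * rr d.b + rr s.u3 * pr ρ.P4 * rr d.b ^ 3 ≤ rr d.J) ∧
    (rr d.b + (3 * rr s.u1 * pr ρ.P2 * rr d.f +
      rr s.u3 * pr ρ.P4 * ((rr d.f + rr d.b) ^ 3 - rr d.b ^ 3)) ≤ rr d.n) ∧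
    (3 * rr s.u1 * pr ρ.P2 * rr d.f + rr s.u3 * pr ρ.P4 * ((rr d.f + rr d.b) ^ 3 - rr d.b ^ 3) +
      (3 * rr s.u1 * (1 - pr ρ.P2) * rr d.J +
        3 * rr s.u2 * ((rr d.J + rr d.n) ^ 2 - rr d.n ^ 2) +
        rr s.u3 * (1 - pr ρ.P4) * ((rr d.J + rr d.n) ^ 3 - rr d.n ^ 3)) ≤ rr d.x) ∧
    rr d.p2 = pr ρ.P2 ∧ rr d.n2 = 1 - pr ρ.P2 ∧ rr d.p4 = pr ρ.P4 ∧ rr d.n4 = 1 - pr ρ.P4 ∧
    (rr s.u1 * (1 - pr ρ.P2) ≤ rr d.un1) ∧ (rr s.u3 * (1 - pr ρ.P4) ≤ rr d.un3) ∧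
    Up (rr s.a ^ 2) d.a2 ∧ Up (rr d.x ^ 2) d.x2 ∧ Up (rr d.n ^ 2) d.nn ∧
    Up ((rr d.J + rr d.n) ^ 2 - rr d.n ^ 2) d.kk ∧ Up ((rr d.f + rr d.b) ^ 2 - rr d.b ^ 2) d.hh ∧
    Up (2 * ((1 - pr ρ.P2) * rr d.J + pr ρ.P2 * rr d.f)) d.e1f ∧
    Up (2 * ((1 - pr ρ.P2) * rr d.J + pr ρ.P2 * rr s.a)) d.e1t := by
  obtain ⟨p2, n2, p4, n4, uf1, uf3, un1, un3, a2, a3, f, b, b2, J, f2, R, n, nn, J2, kk, kk3, x, x2,
    hh, e1f, e1t, q, q', c, e1, e2, e3, e4, e5, e6, e7, e8, e9, e10, e11, e12, e13, e14, e15, e16,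
    e17, e18, e19, e20, e21, e22, e23, e24, e25, e26, e27, e28, e29, hrd⟩ := rd_spec ρ s
  rw [← hd] at hrd
  have r1 : rr p2 = pr ρ.P2 := by rw [e1]; exact shift_pr _
  have r2 : rr n2 = 1 - pr ρ.P2 := by rw [e2]; exact shift_pr' _ h2
  have r3 : rr p4 = pr ρ.P4 := by rw [e3]; exact shift_pr _
  have r4 : rr n4 = 1 - pr ρ.P4 := by rw [e4]; exact shift_pr' _ h4
  have k1 : Up (pr ρ.P2) p2 := r1 ▸ Up.self p2
  have k2 : Up (1 - pr ρ.P2) n2 := r2 ▸ Up.self n2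
  have k3 : Up (pr ρ.P4) p4 := r3 ▸ Up.self p4
  have k4 : Up (1 - pr ρ.P4) n4 := r4 ▸ Up.self n4
  have k5 : Up (rr s.u1 * pr ρ.P2) uf1 := by rw [e5]; exact (Up.self _).mul k1
  have k6 : Up (rr s.u3 * pr ρ.P4) uf3 := by rw [e6]; exact (Up.self _).mul k3
  have k7 : Up (rr s.u1 * (1 - pr ρ.P2)) un1 := by rw [e7]; exact (Up.self _).mul k2
  have k8 : Up (rr s.u3 * (1 - pr ρ.P4)) un3 := by rw [e8]; exact (Up.self _).mul k4
  have k9 : Up (rr s.a * rr s.a) a2 := by rw [e9]; exact (Up.self _).mul (Up.self _)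
  have k10 : Up (rr s.a * rr s.a * rr s.a) a3 := by rw [e10]; exact k9.mul (Up.self _)
  have k11 : Up (rr s.u0 + 3 * (rr s.u1 * pr ρ.P2 * rr s.a) +
      rr s.u3 * pr ρ.P4 * (rr s.a * rr s.a * rr s.a)) f := by
    rw [e11]
    exact ((Up.self _).add (k5.mul (Up.self _)).three).add (k6.mul k10)
  have k12 : Up (3 * (rr s.u1 * (1 - pr ρ.P2) * rr s.a) + 3 * (rr s.u2 * (rr s.a * rr s.a)) +
      rr s.u3 * (1 - pr ρ.P4) * (rr s.a * rr s.a * rr s.a)) b := by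
    rw [e12]
    exact ((k7.mul (Up.self _)).three.add ((Up.self _).mul k9).three).add (k8.mul k10)
  have k13 : Up (rr b * rr b) b2 := by rw [e13]; exact (Up.self _).mul (Up.self _)
  have k14 : Up (rr s.u0 + 3 * (rr s.u1 * pr ρ.P2 * rr b) +
      rr s.u3 * pr ρ.P4 * (rr b * rr b * rr b)) J := by
    rw [e14]
    exact ((Up.self _).add (k5.mul (Up.self _)).three).add (k6.mul (k13.mul (Up.self _)))
  have k15 : Up (rr f * rr f) f2 := by rw [e15]; exact (Up.self _).mul (Up.self _)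
  have k16 : Up (3 * (rr s.u1 * pr ρ.P2 * rr f) + rr s.u3 * pr ρ.P4 *
      (3 * (rr b * rr b * rr f) + 3 * (rr b * (rr f * rr f)) + rr f * rr f * rr f)) R := by
    rw [e16]
    exact (k5.mul (Up.self _)).three.add (k6.mul (((k13.mul (Up.self _)).three.add
      ((Up.self _).mul k15).three).add (k15.mul (Up.self _))))
  have k18 : Up (rr n * rr n) nn := by rw [e18]; exact (Up.self _).mul (Up.self _)
  have k19 : Up (rr J * rr J) J2 := by rw [e19]; exact (Up.self _).mul (Up.self _)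
  have k20 : Up (rr J * rr J + 2 * (rr J * rr n)) kk := by
    rw [e20]; exact k19.add ((Up.self _).mul (Up.self _)).two
  have k21 : Up (3 * (rr n * rr n * rr J) + 3 * (rr n * (rr J * rr J)) + rr J * rr J * rr J) kk3 := by
    rw [e21]
    exact (((k18.mul (Up.self _)).three).add ((Up.self _).mul k19).three).add (k19.mul (Up.self _))
  have k22 : Up (3 * (rr s.u1 * pr ρ.P2 * rr f) + rr s.u3 * pr ρ.P4 *
      (3 * (rr b * rr b * rr f) + 3 * (rr b * (rr f * rr f)) + rr f * rr f * rr f) +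
      (3 * (rr s.u1 * (1 - pr ρ.P2) * rr J) + 3 * (rr s.u2 * (rr J * rr J + 2 * (rr J * rr n))) +
        rr s.u3 * (1 - pr ρ.P4) *
          (3 * (rr n * rr n * rr J) + 3 * (rr n * (rr J * rr J)) + rr J * rr J * rr J))) x := by
    rw [e22]
    exact k16.add (((k7.mul (Up.self _)).three.add ((Up.self _).mul k20).three).add (k8.mul k21))
  have k23 : Up (rr x * rr x) x2 := by rw [e23]; exact (Up.self _).mul (Up.self _)
  have k24 : Up (rr f * rr f + 2 * (rr f * rr b)) hh := by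
    rw [e24]; exact k15.add ((Up.self _).mul (Up.self _)).two
  have k25 : Up (2 * ((1 - pr ρ.P2) * rr J + pr ρ.P2 * rr f)) e1f := by
    rw [e25]; exact ((k2.mul (Up.self _)).add (k1.mul (Up.self _))).two
  have k26 : Up (2 * ((1 - pr ρ.P2) * rr J + pr ρ.P2 * rr s.a)) e1t := by
    rw [e26]; exact ((k2.mul (Up.self _)).add (k1.mul (Up.self _))).two
  rw [hrd]
  refine ⟨?_, ?_, ?_, ?_, ?_, r1, r2, r3, r4, k7.2, k8.2, ?_, ?_, ?_, ?_, ?_, k25, k26⟩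
  · exact k11.le (by ring)
  · exact k12.le (by ring)
  · exact k14.le (by ring)
  · show _ ≤ rr n
    rw [e17, rr_add]
    have := k16.2
    have e : 3 * rr s.u1 * pr ρ.P2 * rr f + rr s.u3 * pr ρ.P4 * ((rr f + rr b) ^ 3 - rr b ^ 3) =
      3 * (rr s.u1 * pr ρ.P2 * rr f) + rr s.u3 * pr ρ.P4 *
      (3 * (rr b * rr b * rr f) + 3 * (rr b * (rr f * rr f)) + rr f * rr f * rr f) := by ring
    show rr b + (3 * rr s.u1 * pr ρ.P2 * rr f + rr s.u3 * pr ρ.P4 * ((rr f + rr b) ^ 3 - rr b ^ 3)) ≤ _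
    rw [e]
    linarith
  · exact k22.le (by ring)
  · have e : rr s.a ^ 2 = rr s.a * rr s.a := by ring
    rw [e]; exact k9
  · have e : rr x ^ 2 = rr x * rr x := by ring
    show Up (rr x ^ 2) x2
    rw [e]; exact k23
  · have e : rr n ^ 2 = rr n * rr n := by ring
    show Up (rr n ^ 2) nn
    rw [e]; exact k18
  · have e : (rr J + rr n) ^ 2 - rr n ^ 2 = rr J * rr J + 2 * (rr J * rr n) := by ring
    show Up ((rr J + rr n) ^ 2 - rr n ^ 2) kk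
    rw [e]; exact k20
  · have e : (rr f + rr b) ^ 2 - rr b ^ 2 = rr f * rr f + 2 * (rr f * rr b) := by ring
    show Up ((rr f + rr b) ^ 2 - rr b ^ 2) hh
    rw [e]; exact k24

end Pool.Agent.H958R2.GK.Num
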