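import Pool.Agent.H958R2.GK.NumDefs
import Pool.Agent.H958R2.GK.Stubs

set_option autoImplicit false
set_option exponentiation.threshold 100000

/-!
# Project GK, task NUM: real inequalities behind the computation
-/

open Finset

namespace Pool.Agent.H958R2.GK.Num

/-- the real number represented by `a` -/
noncomputable def rr (a : ℕ) : ℝ := (a : ℝ) / 2 ^ 1000

theorem rr_nonneg (a : ℕ) : 0 ≤ rr a := by unfold rr; positivity

theorem rr_add (a b : ℕ) : rr (a + b) = rr a + rr b := by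
  unfold rr; push_cast; ring

theorem rr_mul (k a : ℕ) : rr (k * a) = k * rr a := by
  unfold rr; push_cast; ring

theorem rr_mono {a b : ℕ} (h : a ≤ b) : rr a ≤ rr b := by
  unfold rr; gcongr

theorem mu_ge (a b : ℕ) : rr a * rr b ≤ rr (mu a b) := by
  have h1 : a * b < (a * b / 2 ^ 1000 + 1) * 2 ^ 1000 := by
    rw [mul_comm (a * b / 2 ^ 1000 + 1)]
    exact Nat.lt_mul_div_succ (a * b) (by positivity)
  have h2 : mu a b = a * b / 2 ^ 1000 + 1 := by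
    unfold mu
    show Nat.succ ((a * b) >>> 1000) = _
    rw [Nat.shiftRight_eq_div_pow]
  have h3 : ((a : ℝ) * b) ≤ ((mu a b : ℕ) : ℝ) * 2 ^ 1000 := by
    rw [h2]; exact_mod_cast h1.le
  have h4 : rr a * rr b = ((a : ℝ) * b) / 2 ^ 1000 / 2 ^ 1000 := by unfold rr; field_simp
  rw [h4, rr, div_le_div_iff_of_pos_right (by positivity), div_le_iff₀ (by positivity)]
  exact h3

/-- `a` represents an upper bound for the nonnegative number `x` -/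
def Up (x : ℝ) (a : ℕ) : Prop := 0 ≤ x ∧ x ≤ rr a

theorem Up.self (a : ℕ) : Up (rr a) a := ⟨rr_nonneg a, le_rfl⟩

theorem Up.mul {x y : ℝ} {a b : ℕ} (h : Up x a) (h' : Up y b) : Up (x * y) (mu a b) :=
  ⟨mul_nonneg h.1 h'.1, (mul_le_mul h.2 h'.2 h'.1 (rr_nonneg a)).trans (mu_ge a b)⟩

theorem Up.add {x y : ℝ} {a b : ℕ} (h : Up x a) (h' : Up y b) : Up (x + y) (a + b) :=
  ⟨add_nonneg h.1 h'.1, by rw [rr_add]; exact add_le_add h.2 h'.2⟩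

theorem Up.two {x : ℝ} {a : ℕ} (h : Up x a) : Up (2 * x) (2 * a) :=
  ⟨mul_nonneg (by norm_num) h.1, by rw [rr_mul]; push_cast; linarith [h.2]⟩

theorem Up.three {x : ℝ} {a : ℕ} (h : Up x a) : Up (3 * x) (3 * a) :=
  ⟨mul_nonneg (by norm_num) h.1, by rw [rr_mul]; push_cast; linarith [h.2]⟩

theorem Up.le {x y : ℝ} {a : ℕ} (h : Up x a) (h' : y = x) : y ≤ rr a := h' ▸ h.2

theorem rr_shift (m k : ℕ) (hk : k ≤ 1000) :
    rr (Nat.shiftLeft m k) = (m : ℝ) / 2 ^ (1000 - k) := by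
  unfold rr
  show ((m <<< k : ℕ) : ℝ) / _ = _
  rw [Nat.shiftLeft_eq]
  push_cast
  rw [div_eq_div_iff (by positivity) (by positivity), mul_assoc, ← pow_add]
  congr 2
  omega

/-- the equations defining the data of a round -/
theorem rd_spec (ρ : Row) (s : St) : ∃ p2 n2 p4 n4 uf1 uf3 un1 un3 a2 a3 f b b2 J f2 R n nn J2 kk kk3 x
    x2 hh e1f e1t q q' c : ℕ,
    p2 = Nat.shiftLeft ρ.P2 970 ∧ n2 = Nat.shiftLeft (Nat.sub 1073741824 ρ.P2) 970 ∧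
    p4 = Nat.shiftLeft ρ.P4 970 ∧ n4 = Nat.shiftLeft (Nat.sub 1073741824 ρ.P4) 970 ∧
    uf1 = mu s.u1 p2 ∧ uf3 = mu s.u3 p4 ∧ un1 = mu s.u1 n2 ∧ un3 = mu s.u3 n4 ∧
    a2 = mu s.a s.a ∧ a3 = mu a2 s.a ∧
    f = s.u0 + 3 * mu uf1 s.a + mu uf3 a3 ∧
    b = 3 * mu un1 s.a + 3 * mu s.u2 a2 + mu un3 a3 ∧
    b2 = mu b b ∧
    J = s.u0 + 3 * mu uf1 b + mu uf3 (mu b2 b) ∧
    f2 = mu f f ∧
    R = 3 * mu uf1 f + mu uf3 (3 * mu b2 f + 3 * mu b f2 + mu f2 f) ∧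
    n = b + R ∧ nn = mu n n ∧ J2 = mu J J ∧ kk = J2 + 2 * mu J n ∧
    kk3 = 3 * mu nn J + 3 * mu n J2 + mu J2 J ∧
    x = R + (3 * mu un1 J + 3 * mu s.u2 kk + mu un3 kk3) ∧
    x2 = mu x x ∧ hh = f2 + 2 * mu f b ∧
    e1f = 2 * (mu n2 J + mu p2 f) ∧ e1t = 2 * (mu n2 J + mu p2 s.a) ∧
    q = Nat.shiftLeft ρ.q 940 ∧ q' = Nat.shiftLeft ρ.q' 940 ∧ c = Nat.shiftLeft ρ.c 940 ∧
    rd ρ s = ⟨p2, n2, p4, n4, un1, un3, a2, f, b, J, n, x, x2, nn, kk, hh, e1f, e1t, q, q', c⟩ := by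
  refine ⟨_, _, _, _, _, _, _, _, _, _, _, _, _, _, _, _, _, _, _, _, _, _, _, _, _, _, _, _, _,
    rfl, rfl, rfl, rfl, rfl, rfl, rfl, rfl, rfl, rfl, rfl, rfl, rfl, rfl, rfl, rfl, rfl, rfl, rfl,
    rfl, rfl, rfl, rfl, rfl, rfl, rfl, rfl, rfl, rfl, ?_⟩
  simp only [rd, frc_eq]

end Pool.Agent.H958R2.GK.Num
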