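import Pool.Agent.H958R2.GK.Stubs

set_option autoImplicit false

/-! Task PROB (helper89). -/

open Finset

namespace Pool.Agent.H958R2.GK

namespace PROBaux

variable {ι C : Type} [Fintype ι] [Fintype C]

lemma Pr_eq [DecidableEq ι] (E : (ι → C) → Prop) [DecidablePred E] :
    Pr E = ((univ.filter E).card : ℝ) / (Fintype.card (ι → C) : ℝ) := by
  unfold Pr
  rw [Nat.card_eq_fintype_card, Nat.card_eq_fintype_card, Fintype.card_subtype]

lemma card_pos [DecidableEq ι] [Nonempty C] : (0 : ℝ) < (Fintype.card (ι → C) : ℝ) := by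
  exact_mod_cast Fintype.card_pos

lemma Pr_mono {E F : (ι → C) → Prop} (h : ∀ ω, E ω → F ω) : Pr E ≤ Pr F := by
  classical
  rw [Pr_eq, Pr_eq]
  gcongr with ω
  exact h ω

lemma Pr_nonneg (E : (ι → C) → Prop) : 0 ≤ Pr E := by
  classical
  rw [Pr_eq]
  positivity

lemma Pr_le_one [Nonempty C] (E : (ι → C) → Prop) : Pr E ≤ 1 := by
  classical
  rw [Pr_eq, div_le_one card_pos]
  exact_mod_cast Finset.card_le_univ _

lemma Pr_true [Nonempty C] : Pr (fun _ : ι → C => True) = 1 := by
  classical
  rw [Pr_eq]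
  rw [Finset.filter_true_of_mem (fun _ _ => trivial), Finset.card_univ]
  exact div_self card_pos.ne'

lemma Pr_or (E F : (ι → C) → Prop) : Pr (fun ω => E ω ∨ F ω) ≤ Pr E + Pr F := by
  classical
  rw [Pr_eq, Pr_eq, Pr_eq, ← add_div]
  gcongr
  rw [Finset.filter_or]
  exact_mod_cast Finset.card_union_le _ _

lemma Pr_ex {κ : Type} (s : Finset κ) (E : κ → (ι → C) → Prop) :
    Pr (fun ω => ∃ k ∈ s, E k ω) ≤ ∑ k ∈ s, Pr (E k) := by
  classical
  induction s using Finset.induction_on with
  | empty =>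
    rw [Finset.sum_empty, Pr_eq]
    simp
  | insert k s hk ih =>
    rw [Finset.sum_insert hk]
    have h1 : Pr (fun ω => ∃ k' ∈ insert k s, E k' ω) ≤ Pr (fun ω => E k ω ∨ ∃ k' ∈ s, E k' ω) := by
      apply Pr_mono
      rintro ω ⟨k', hk', h⟩
      rcases Finset.mem_insert.1 hk' with rfl | hk'
      · exact Or.inl h
      · exact Or.inr ⟨k', hk', h⟩
    refine h1.trans ((Pr_or _ _).trans ?_)
    gcongr

lemma Pr_and [Nonempty C] (E F : (ι → C) → Prop) (S S' : Set ι) (hE : Dep E S) (hF : Dep F S')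
    (hd : Disjoint S S') : Pr (fun ω => E ω ∧ F ω) = Pr E * Pr F := by
  classical
  have key : (univ.filter fun ω => E ω ∧ F ω).card * Fintype.card (ι → C) =
      (univ.filter E).card * (univ.filter F).card := by
    rw [← Finset.card_univ, ← Finset.card_product, ← Finset.card_product]
    -- exchange the coordinates outside `S`
    let f : (ι → C) × (ι → C) → (ι → C) × (ι → C) := fun p =>
      (fun i => if i ∈ S then p.1 i else p.2 i, fun i => if i ∈ S then p.2 i else p.1 i)
    have hff : ∀ p, f (f p) = p := by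
      intro p
      apply Prod.ext
      · funext i
        simp only [f]
        by_cases h : i ∈ S <;> simp [h]
      · funext i
        simp only [f]
        by_cases h : i ∈ S <;> simp [h]
    have h1 : ∀ p, E (f p).1 ↔ E p.1 := fun p => hE _ _ fun i hi => by
      simp only [f, if_pos hi]
    have h2 : ∀ p, F (f p).2 ↔ F p.1 := fun p => hF _ _ fun i hi => by
      have : i ∉ S := fun h => (Set.disjoint_left.1 hd) h hi
      simp only [f, if_neg this]
    have h3 : ∀ p, F (f p).1 ↔ F p.2 := fun p => hF _ _ fun i hi => by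
      have : i ∉ S := fun h => (Set.disjoint_left.1 hd) h hi
      simp only [f, if_neg this]
    refine Finset.card_nbij' f f ?_ ?_ (fun p _ => hff p) (fun p _ => hff p)
    · intro p hp
      simp only [Finset.coe_product, Set.mem_prod, Finset.mem_coe, Finset.mem_filter,
        Finset.mem_univ, true_and, and_true] at hp ⊢
      exact ⟨(h1 p).2 hp.1, (h2 p).2 hp.2⟩
    · intro p hp
      simp only [Finset.coe_product, Set.mem_prod, Finset.mem_coe, Finset.mem_filter,
        Finset.mem_univ, true_and, and_true] at hp ⊢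
      exact ⟨(h1 p).2 hp.1, (h3 p).2 hp.2⟩
  have hc : (0 : ℝ) < (Fintype.card (ι → C) : ℝ) := card_pos (ι := ι) (C := C)
  rw [Pr_eq, Pr_eq, Pr_eq, div_mul_div_comm, div_eq_div_iff hc.ne' (by positivity)]
  have key' : ((univ.filter fun ω => E ω ∧ F ω).card : ℝ) * (Fintype.card (ι → C) : ℝ) =
      ((univ.filter E).card : ℝ) * ((univ.filter F).card : ℝ) := by exact_mod_cast key
  rw [← key']
  ring

lemma Pr_all [Nonempty C] {κ : Type} (s : Finset κ) (E : κ → (ι → C) → Prop) (S : κ → Set ι)
    (hE : ∀ k ∈ s, Dep (E k) (S k)) (hd : ∀ k ∈ s, ∀ k' ∈ s, k ≠ k' → Disjoint (S k) (S k')) :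
    Pr (fun ω => ∀ k ∈ s, E k ω) = ∏ k ∈ s, Pr (E k) := by
  classical
  induction s using Finset.induction_on with
  | empty =>
    rw [Finset.prod_empty, ← Pr_true (ι := ι) (C := C)]
    congr 1
    funext ω
    simp
  | insert k s hk ih =>
    rw [Finset.prod_insert hk, ← ih (fun k' h => hE k' (Finset.mem_insert_of_mem h))
      (fun k' h k'' h' => hd k' (Finset.mem_insert_of_mem h) k'' (Finset.mem_insert_of_mem h'))]
    rw [← Pr_and (E k) (fun ω => ∀ k' ∈ s, E k' ω) (S k) (⋃ k' ∈ s, S k')
      (hE k (Finset.mem_insert_self _ _)) ?_ ?_]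
    · congr 1
      funext ω
      rw [Finset.forall_mem_insert]
    · intro ω ω' h
      constructor
      · intro h1 k' hk'
        exact (hE k' (Finset.mem_insert_of_mem hk') ω ω' fun i hi =>
          h i (Set.mem_biUnion hk' hi)).1 (h1 k' hk')
      · intro h1 k' hk'
        exact (hE k' (Finset.mem_insert_of_mem hk') ω ω' fun i hi =>
          h i (Set.mem_biUnion hk' hi)).2 (h1 k' hk')
    · rw [Set.disjoint_iUnion₂_right]
      intro k' hk'
      apply hd k (Finset.mem_insert_self _ _) k' (Finset.mem_insert_of_mem hk')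
      rintro rfl
      exact hk hk'

end PROBaux

open PROBaux

theorem prob_proof : St_PROB := by
  intro ι C _ _ _
  exact ⟨fun E => ⟨Pr_nonneg E, Pr_le_one E⟩, fun E F h => Pr_mono h, fun E F => Pr_or E F,
    fun κ s E => Pr_ex s E, fun E F S S' h1 h2 h3 => Pr_and E F S S' h1 h2 h3,
    fun κ s E S h1 h2 => Pr_all s E S h1 h2⟩

end Pool.Agent.H958R2.GK
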