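import Pool.Agent.H958R2.GK.Main
import Pool.Agent.H195.GK.Emb

set_option autoImplicit false

/-!
# Structure theorem behind project GK
-/

open Finset

namespace Pool.Agent.H958R2.GK

/-- the vertices of a path form a non-backtracking walk -/
theorem path_nbw {V : Type} (nb : V → Finset V) (G : SimpleGraph V)
    (hnb : ∀ v w, w ∈ nb v ↔ G.Adj v w) {a b : V} (p : G.Walk a b) (hp : p.IsPath) :
    NBW nb p.support := by
  induction p with
  | nil => trivial
  | @cons a c b h q ih =>
    rw [SimpleGraph.Walk.cons_isPath_iff] at hp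
    have h2 := ih hp.1
    cases q with
    | nil => exact (hnb _ _).2 h
    | @cons _ d _ h' q' =>
      rw [SimpleGraph.Walk.support_cons]
      rw [SimpleGraph.Walk.support_cons] at h2 hp ⊢
      cases q' with
      | nil =>
        refine ⟨(hnb _ _).2 h, ?_, h2⟩
        intro hac
        apply hp.2
        rw [hac]
        simp
      | cons h'' q'' =>
        refine ⟨(hnb _ _).2 h, ?_, h2⟩
        intro hac
        apply hp.2
        rw [hac]
        simp

/-- the core of the proof: an independent set that meets every path with `L` edges -/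
def St_CORE : Prop :=
  ∃ g L : ℕ, L + 2 ≤ g ∧ ∀ (V : Type) [Fintype V] (G : SimpleGraph V),
    (∀ v, (G.neighborSet v).ncard = 4) → (g : ℕ∞) ≤ G.egirth →
    ∃ I : Set V, (∀ v ∈ I, ∀ w ∈ I, ¬ G.Adj v w) ∧
      ∀ (a b : V) (p : G.Walk a b), p.IsPath → p.length = L → ∃ v ∈ p.support, v ∈ I

theorem struct_core (hLLL : St_LLL) (hG : St_GIRTH) (hD : St_DEG) (hI : St_IND)
    (hP : St_PD) (hS : St_SUPPI) (hPr : St_PROB) (hPath : St_PATHPR) (hA : St_ALG)
    (hN : St_NUM) : St_CORE := by
  obtain ⟨T, N, P, S, lam, del, q, q', c, g, r, y, be, hN0, hPN, hSp, hM, hPC, hlam⟩ := hN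
  obtain ⟨C, hC0, hQ⟩ := hA T S lam del q q' c g r y be hM hPC
  have hl0 := hPC.lam0
  obtain ⟨L, hL2, hL⟩ := fin_choice
    (4 * ((T + 1 : ℝ) ^ 2 * C) * (5 ^ (3 * T + 3) * (5 ^ (3 * T + 3) * 16))) lam hl0 hlam
    (by positivity)
  refine ⟨2 * (L + 1 + 3 * T + 12) + 1, L, by omega, ?_⟩
  intro V _ G h4 hg
  classical
  set nb : V → Finset V := fun v => (G.neighborSet v).toFinset with hnb_def
  have hnb : ∀ v w, w ∈ nb v ↔ G.Adj v w := by
    intro v w
    simp [hnb_def]
  have hNb4 : Nb4 nb := by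
    refine ⟨?_, ?_, ?_⟩
    · intro v w h
      rw [hnb] at h ⊢
      exact h.symm
    · intro v h
      rw [hnb] at h
      exact G.irrefl h
    · intro v
      have := h4 v
      rw [Set.ncard_eq_toFinset_card'] at this
      exact this
  have hU : Uniq nb (L + 1 + 3 * T + 12) := hG V G nb hnb _ hg
  have : Nonempty (Fin N) := ⟨⟨0, hN0⟩⟩
  obtain ⟨hPr01, hPrmono, hPror, hPrun, hPrind, hPrind2⟩ := hPr (V × Fin T) (Fin N)
  -- the probability of a bad walk
  have hbad : ∀ l : List V, NBW nb l → l.length = L + 1 →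
      Pr (fun ω : Lab V T N => ∀ v ∈ l, ¬ inI nb P ω v) ≤ (T + 1 : ℝ) ^ 2 * C * lam ^ (L - 1) := by
    intro l hl hlen
    have h1 : Pr (fun ω : Lab V T N => ∀ v ∈ l, ¬ inI nb P ω v) ≤
        Pr (fun ω : Lab V T N => ∃ k ∈ (range (T + 1) ×ˢ range (T + 1) : Finset (ℕ × ℕ)),
          EvL nb P ω l k.1 k.2) := by
      apply hPrmono
      intro ω hω
      obtain ⟨y, hy, x, hx, h⟩ := hP V nb hNb4 T N P ω l hl hω
      exact ⟨(y, x), by simp only [Finset.mem_product, Finset.mem_range]; omega, h⟩
    refine h1.trans ((hPrun (ℕ × ℕ) _ _).trans ?_)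
    have h2 : ∀ k ∈ (range (T + 1) ×ˢ range (T + 1) : Finset (ℕ × ℕ)),
        Pr (fun ω : Lab V T N => EvL nb P ω l k.1 k.2) ≤ C * lam ^ (L - 1) := by
      intro k hk
      simp only [Finset.mem_product, Finset.mem_range] at hk
      refine (hPath V nb hNb4 T N P S hN0 hPN hSp hM l hl (by rw [hlen]; exact hU) k.1 (by omega)
        k.2 (by omega)).trans ?_
      rw [hlen, show L + 1 - 2 = L - 1 by omega]
      exact hQ _ _ (by omega) _ (by omega)
    refine (Finset.sum_le_sum h2).trans ?_
    rw [Finset.sum_const, Finset.card_product, Finset.card_range, nsmul_eq_mul]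
    push_cast
    apply le_of_eq; ring
  -- the local lemma
  obtain ⟨ω, hω⟩ := hLLL (V × Fin T) (Fin N) (List.Vector V (L + 1))
    (univ.filter (fun l => NBW nb l.val))
    (fun l ω => ∀ v ∈ l.val, ¬ inI nb P ω v)
    (fun l => NL nb (3 * T + 3) l.val ×ˢ univ)
    (by
      intro l _ ω ω' h
      apply forall_congr'
      intro v
      apply imp_congr_right
      intro hv
      rw [not_iff_not]
      refine hS V nb T N P v ω ω' ?_
      intro i hi
      apply h
      rw [Finset.mem_coe, Finset.mem_product]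
      refine ⟨?_, Finset.mem_univ _⟩
      unfold NL
      rw [Finset.mem_biUnion]
      exact ⟨v, List.mem_toFinset.2 hv, hi⟩)
    ((T + 1 : ℝ) ^ 2 * C * lam ^ (L - 1))
    ((L + 1) * 5 ^ (3 * T + 3) * (5 ^ (3 * T + 3) * ((L + 1) * 16 * 3 ^ L)))
    (by positivity)
    (by
      intro l hl
      rw [Finset.mem_filter] at hl
      exact hbad l.val hl.2 l.2)
    (by
      intro l hl
      refine le_trans (Finset.card_le_card ?_) (hD V nb hNb4 L (3 * T + 3) l)
      intro l' hl'
      simp only [Finset.mem_filter, Finset.mem_univ, true_and] at hl' ⊢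
      refine ⟨hl'.1, fun hdis => hl'.2 ?_⟩
      rw [Finset.disjoint_product]
      exact Or.inl hdis)
    (by
      push_cast
      refine le_trans (le_of_eq ?_) hL
      ring)
    (by
      have h5 : 0 < 5 ^ (3 * T + 3) := by positivity
      have h3 : 0 < 3 ^ L := by positivity
      have : 0 < (L + 1) * 5 ^ (3 * T + 3) * (5 ^ (3 * T + 3) * ((L + 1) * 16 * 3 ^ L)) := by
        positivity
      omega)
  refine ⟨{v | inI nb P ω v}, ?_, ?_⟩
  · intro v hv w hw hadj
    exact hI V nb hNb4 T N P ω v w hv hw ((hnb v w).2 hadj)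
  · intro a b p hp hlen
    have hlen2 : p.support.length = L + 1 := by rw [SimpleGraph.Walk.length_support, hlen]
    have := hω ⟨p.support, hlen2⟩ (Finset.mem_filter.2 ⟨Finset.mem_univ _,
      path_nbw nb G hnb p hp⟩)
    simp only [not_forall, not_not] at this
    obtain ⟨v, hv, hvI⟩ := this
    exact ⟨v, hv, hvI⟩

end Pool.Agent.H958R2.GK
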